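import Pool.Agent.Y965.GP.Main

/-!
# Functions that are determined by a later term of the trajectory and by the product of the multipliers before it
-/

set_option autoImplicit false

namespace Pool.Agent.K3h65.LP

open Finset Pool.Agent.H319R3.GC Pool.Agent.Y965.PS Pool.Agent.Y965.GP

/-- bounded functions that take the same value at large `x` and `y` whenever the trajectories are at the
same point at the same time `k`, `d ^ k ≤ N ^ (1 / 16)`, with the same product of the first `k` multipliers -/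
def SyncM (d : ℕ) (m r : ℕ → ℤ) (N : ℕ) (F : ℤ → ℝ) : Prop :=
  (∀ x, |F x| ≤ 1) ∧ ∀ (k : ℕ) (x y : ℤ), (d : ℝ) ^ k ≤ (N : ℝ) ^ (1 / 16 : ℝ) → (N : ℝ) ^ (1 / 2 : ℝ) < |(x : ℝ)| →
    (N : ℝ) ^ (1 / 2 : ℝ) < |(y : ℝ)| → (Tm d m r)^[k] x = (Tm d m r)^[k] y →
    Mw m (wd d m r k x) = Mw m (wd d m r k y) → F x = F y

variable {d : ℕ} {m r : ℕ → ℤ}

theorem syncM_of {N : ℕ} {F : ℤ → ℝ} (hF : SyncN d (Tm d m r) N F) : SyncM d m r N F :=
  ⟨hF.1, fun k x y h1 h2 h3 h4 _ => hF.2 k x y h1 h2 h3 h4⟩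

end Pool.Agent.K3h65.LP
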