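import Pool.Agent.Y965.GP.Fin3
import Pool.Agent.K3h65.LP.Def

/-!
# Generalised Collatz maps on sparse weighted sets

If a nonnegative weight `w` on `[1, X]` of mean `p` is orthogonal, with a power saving, to all functions that are
constant on coalescing trajectories, then the integers with unbounded trajectories are rare with respect to the
weight, and the invariant sets have their natural densities with respect to the weight.
-/

set_option autoImplicit false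

namespace Pool.Agent.K3h65.LP

open Finset Filter Topology Pool.Agent.H319R3.GC Pool.Agent.Y965.PS Pool.Agent.Y965.GP

variable {d : ℕ} {m r : ℕ → ℤ}

theorem const_sync (T : ℤ → ℤ) (N : ℕ) : SyncN d T N (fun _ => 1) := ⟨fun x => by simp, fun _ _ _ _ _ _ _ => rfl⟩

theorem ind_sync {T : ℤ → ℤ} {S : Set ℤ} (hS : InvT T S) (N : ℕ) : SyncN d T N (ind S) :=
  ⟨ind_abs S, fun k x y _ _ _ he => ind_congr (by rw [inv_iter hS k x, inv_iter hS k y, he])⟩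

/-- the weight `w` of mean `p` is orthogonal to the synchronous functions, with error `E` -/
def Tr (d : ℕ) (m r : ℕ → ℤ) (s : ℤ) (X : ℕ) (w : ℕ → ℝ) (p E : ℝ) : Prop :=
  (∀ n, 0 ≤ w n) ∧ ∀ F : ℤ → ℝ, SyncM d m r X F →
    |∑ n ∈ Icc 1 X, w n * F (s * (n : ℤ)) - p * ∑ n ∈ Icc 1 X, F (s * (n : ℤ))| ≤ E

theorem av_sparse (h : Adm d m r) {a K : ℝ} (ha0 : 0 < a) (hK : 0 ≤ K) (B : ℕ) :
    ∃ C : ℝ, 0 < C ∧ ∀ s : ℤ, (s = 1 ∨ s = -1) → ∀ X : ℕ, 1 ≤ X → ∀ (w : ℕ → ℝ) (p : ℝ),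
      (X : ℝ) ^ (-a) ≤ p → Tr d m r s X w p (K * (X : ℝ) ^ (1 - 2 * a)) → ∀ y : ℝ, 2 ≤ y →
      ∑ n ∈ Icc 1 X, w n * ind (Av (Tm d m r) y) (s * (n : ℤ)) ≤ C * (p * X) / Real.log y ^ B := by
  obtain ⟨C1, hC1, hm⟩ := Pool.Agent.H319R3.GC.main h B
  obtain ⟨M0, hM0⟩ := av_sync h
  obtain ⟨M1, hM1⟩ : ∃ M1 : ℕ, M1 = max M0 8 := ⟨_, rfl⟩
  have hM10 : M0 ≤ M1 := by rw [hM1]; exact le_max_left _ _
  have hM18 : 8 ≤ M1 := by rw [hM1]; exact le_max_right _ _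
  obtain ⟨sg, hsg⟩ : ∃ sg : ℝ, sg = a / (B + 1) := ⟨_, rfl⟩
  have hsg0 : 0 < sg := by rw [hsg]; positivity
  obtain ⟨C2, hC2⟩ : ∃ C2 : ℝ, C2 = (1 / sg) ^ B := ⟨_, rfl⟩
  have hC20 : 0 < C2 := by rw [hC2]; positivity
  have hlM1 : 0 < Real.log M1 := Real.log_pos (by
    have : (8 : ℝ) ≤ M1 := by exact_mod_cast hM18
    linarith)
  obtain ⟨C, hC⟩ : ∃ C : ℝ, C = (1 + K) * Real.log M1 ^ B + 3 ^ B * C1 + K * C2 := ⟨_, rfl⟩
  have hC0 : 0 < C := by rw [hC]; positivity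
  refine ⟨C, hC0, ?_⟩
  intro s hs X hX w p hp hT y hy
  have hXpos : (0 : ℝ) < X := by exact_mod_cast hX
  have hX1R : (1 : ℝ) ≤ X := by exact_mod_cast hX
  have hp0 : 0 < p := lt_of_lt_of_le (by positivity) hp
  have hly : 0 < Real.log y := Real.log_pos (by linarith)
  have hlyB : 0 < Real.log y ^ B := by positivity
  have hpX : (X : ℝ) ^ (1 - a) ≤ p * X := by
    calc (X : ℝ) ^ (1 - a) = (X : ℝ) ^ (-a) * X := by rw [sub_eq_neg_add, Real.rpow_add hXpos, Real.rpow_one]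
      _ ≤ p * X := mul_le_mul_of_nonneg_right hp hXpos.le
  have hpX2 : (X : ℝ) ^ (1 - 2 * a) ≤ (X : ℝ) ^ (-a) * (p * X) := by
    calc (X : ℝ) ^ (1 - 2 * a) = (X : ℝ) ^ (-a) * (X : ℝ) ^ (1 - a) := by
          rw [← Real.rpow_add hXpos]; congr 1; ring
      _ ≤ _ := mul_le_mul_of_nonneg_left hpX (by positivity)
  have hXa1 : (X : ℝ) ^ (-a) ≤ 1 := Real.rpow_le_one_of_one_le_of_nonpos hX1R (by linarith)
  rcases le_or_gt (X : ℝ) y with hyX | hyX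
  · have h0 : ∑ n ∈ Icc 1 X, w n * ind (Av (Tm d m r) y) (s * (n : ℤ)) = 0 := by
      apply sum_eq_zero
      intro n hn
      rw [mem_Icc] at hn
      unfold ind
      rw [if_neg, mul_zero]
      intro hmem
      have h1 := hmem 0
      rw [Function.iterate_zero, id] at h1
      have h2 : |((s * (n : ℤ) : ℤ) : ℝ)| ≤ X := by
        push_cast
        rw [abs_mul, Nat.abs_cast]
        have h5 : (n : ℝ) ≤ X := by exact_mod_cast hn.2
        rcases hs with rfl | rfl <;> simpa using h5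
      linarith
    rw [h0]
    positivity
  have hlogyX : Real.log y ≤ Real.log X := Real.log_le_log (by linarith) hyX.le
  have hsumX : ∑ n ∈ Icc 1 X, w n * ind (Av (Tm d m r) y) (s * (n : ℤ)) ≤ (1 + K) * (p * X) := by
    have h1 : ∑ n ∈ Icc 1 X, w n * ind (Av (Tm d m r) y) (s * (n : ℤ)) ≤ ∑ n ∈ Icc 1 X, w n * 1 :=
      sum_le_sum fun n _ => mul_le_mul_of_nonneg_left (abs_le.1 (ind_abs _ _)).2 (hT.1 n)
    have h2 := (abs_le.1 (hT.2 _ (syncM_of (const_sync _ X)))).2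
    have h3 : ∑ n ∈ Icc 1 X, (1 : ℝ) = X := by simp
    rw [h3] at h2
    have h4 : K * (X : ℝ) ^ (1 - 2 * a) ≤ K * (p * X) := by
      apply mul_le_mul_of_nonneg_left _ hK
      refine hpX2.trans ?_
      exact mul_le_of_le_one_left (by positivity) hXa1
    linarith
  have hpX0 : 0 < p * X := by positivity
  rcases lt_or_ge X M1 with hlt | hge
  · rw [le_div_iff₀ hlyB]
    have h1 : Real.log y ^ B ≤ Real.log M1 ^ B := by
      apply pow_le_pow_left₀ hly.le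
      refine hlogyX.trans (Real.log_le_log hXpos ?_)
      exact_mod_cast hlt.le
    have h3 : (∑ n ∈ Icc 1 X, w n * ind (Av (Tm d m r) y) (s * (n : ℤ))) * Real.log y ^ B ≤
        ((1 + K) * (p * X)) * Real.log M1 ^ B :=
      mul_le_mul hsumX h1 hlyB.le (by positivity)
    refine h3.trans ?_
    rw [hC]
    have h4 : 0 ≤ (3 ^ B * C1 + K * C2) * (p * X) := by positivity
    nlinarith
  have hX8 : (8 : ℝ) ≤ X := by exact_mod_cast hM18.trans hge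
  obtain ⟨y', hy'⟩ : ∃ y' : ℝ, y' = min y ((X : ℝ) ^ (1 / 3 : ℝ)) := ⟨_, rfl⟩
  have hX3 : (2 : ℝ) ≤ (X : ℝ) ^ (1 / 3 : ℝ) := by
    have h1 : (8 : ℝ) ^ (1 / 3 : ℝ) ≤ (X : ℝ) ^ (1 / 3 : ℝ) := Real.rpow_le_rpow (by norm_num) hX8 (by norm_num)
    have h2 : (8 : ℝ) ^ (1 / 3 : ℝ) = 2 := by
      have h8 : (8 : ℝ) = 2 ^ (3 : ℝ) := by norm_num
      rw [h8, ← Real.rpow_mul (by norm_num)]
      norm_num
    linarith
  have hy'y : y' ≤ y := by rw [hy']; exact min_le_left _ _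
  have hy'X : y' ≤ (X : ℝ) ^ (1 / 3 : ℝ) := by rw [hy']; exact min_le_right _ _
  have hy'2 : 2 ≤ y' := by rw [hy']; exact le_min hy hX3
  have hly' : 0 < Real.log y' := Real.log_pos (by linarith)
  have hlog3 : Real.log y / 3 ≤ Real.log y' := by
    rw [hy']
    rcases min_cases y ((X : ℝ) ^ (1 / 3 : ℝ)) with ⟨e, -⟩ | ⟨e, -⟩
    · rw [e]; linarith
    · rw [e, Real.log_rpow hXpos]; linarith
  have h1 := (abs_le.1 (hT.2 _ (syncM_of (hM0 X (hM10.trans hge) y' hy'X)))).2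
  have h2 : ∑ n ∈ Icc 1 X, ind (Av (Tm d m r) y') (s * (n : ℤ)) ≤ C1 * X / Real.log y' ^ B :=
    (sum_ind_le hs _ X).trans (hm (X : ℝ) y' hX1R hy'2)
  have h0 : ∑ n ∈ Icc 1 X, w n * ind (Av (Tm d m r) y) (s * (n : ℤ)) ≤
      ∑ n ∈ Icc 1 X, w n * ind (Av (Tm d m r) y') (s * (n : ℤ)) :=
    sum_le_sum fun n _ => mul_le_mul_of_nonneg_left (ind_mono (av_mono hy'y) _) (hT.1 n)
  have h6 : p * (C1 * X / Real.log y' ^ B) ≤ 3 ^ B * C1 * (p * X) / Real.log y ^ B := by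
    have h7 : (Real.log y) ^ B ≤ 3 ^ B * Real.log y' ^ B := by
      rw [← mul_pow]
      exact pow_le_pow_left₀ hly.le (by linarith) B
    rw [mul_div_assoc', div_le_div_iff₀ (by positivity) hlyB]
    have h9 : 0 ≤ p * (C1 * X) := by positivity
    calc p * (C1 * X) * Real.log y ^ B ≤ p * (C1 * X) * (3 ^ B * Real.log y' ^ B) :=
          mul_le_mul_of_nonneg_left h7 h9
      _ = _ := by ring
  have h8 : Real.log y ^ B ≤ C2 * (X : ℝ) ^ a := by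
    have h10 : Real.log X ≤ 1 / sg * (X : ℝ) ^ sg := log_le hsg0 hX
    calc Real.log y ^ B ≤ (1 / sg * (X : ℝ) ^ sg) ^ B := pow_le_pow_left₀ hly.le (hlogyX.trans h10) B
      _ = C2 * ((X : ℝ) ^ sg) ^ B := by rw [mul_pow, hC2]
      _ ≤ C2 * (X : ℝ) ^ a := by
          apply mul_le_mul_of_nonneg_left _ hC20.le
          rw [← Real.rpow_natCast, ← Real.rpow_mul hXpos.le]
          apply Real.rpow_le_rpow_of_exponent_le hX1R
          rw [hsg, div_mul_eq_mul_div, div_le_iff₀ (by positivity)]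
          nlinarith
  have h12 : K * (X : ℝ) ^ (1 - 2 * a) ≤ K * C2 * (p * X) / Real.log y ^ B := by
    rw [le_div_iff₀ hlyB]
    have e3 : (X : ℝ) ^ (-a) * (X : ℝ) ^ a = 1 := by
      rw [← Real.rpow_add hXpos]; simp
    calc K * (X : ℝ) ^ (1 - 2 * a) * Real.log y ^ B ≤ K * ((X : ℝ) ^ (-a) * (p * X)) * (C2 * (X : ℝ) ^ a) := by
          gcongr
      _ = K * C2 * (p * X) * ((X : ℝ) ^ (-a) * (X : ℝ) ^ a) := by ring
      _ = _ := by rw [e3, mul_one]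
  have h13 : p * ∑ n ∈ Icc 1 X, ind (Av (Tm d m r) y') (s * (n : ℤ)) ≤ p * (C1 * X / Real.log y' ^ B) :=
    mul_le_mul_of_nonneg_left h2 hp0.le
  have h14 : 0 ≤ (1 + K) * Real.log M1 ^ B * (p * X) / Real.log y ^ B := by positivity
  have h15 : C * (p * X) / Real.log y ^ B = (1 + K) * Real.log M1 ^ B * (p * X) / Real.log y ^ B +
      3 ^ B * C1 * (p * X) / Real.log y ^ B + K * C2 * (p * X) / Real.log y ^ B := by
    rw [hC]; ring
  rw [h15]
  linarith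

/-- the densities with respect to sparse weights -/
theorem unif_sparse {s : ℤ} (hnat : ∀ ε : ℝ, 0 < ε → ∃ N0 : ℕ, ∀ N : ℕ, N0 ≤ N → ∀ S : Set ℤ,
      InvT (Tm d m r) S → ∀ δ : ℝ, DSs s S δ → |(∑ x ∈ Icc 1 N, ind S (s * (x : ℤ))) / N - δ| ≤ ε)
    {a : ℝ} (ha0 : 0 < a) (K : ℝ) {ε : ℝ} (hε : 0 < ε) :
    ∃ X0 : ℕ, ∀ X : ℕ, X0 ≤ X → ∀ (w : ℕ → ℝ) (p : ℝ), (X : ℝ) ^ (-a) ≤ p →
      Tr d m r s X w p (K * (X : ℝ) ^ (1 - 2 * a)) → ∀ S : Set ℤ, InvT (Tm d m r) S → ∀ δ : ℝ, DSs s S δ →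
      |∑ n ∈ Icc 1 X, w n * ind S (s * (n : ℤ)) - δ * (p * X)| ≤ ε * (p * X) := by
  obtain ⟨N0, hN0⟩ := hnat (ε / 2) (by positivity)
  have hlim : Tendsto (fun X : ℕ => K * (X : ℝ) ^ (-a)) atTop (𝓝 0) := by
    have h1 := (tendsto_rpow_neg_atTop ha0).comp tendsto_natCast_atTop_atTop
    have h2 := h1.const_mul K
    rw [mul_zero] at h2
    exact h2
  obtain ⟨X1, hX1⟩ := (hlim.eventually (gt_mem_nhds (show (0 : ℝ) < ε / 2 by positivity))).exists_forall_of_atTop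
  refine ⟨N0 + X1 + 1, fun X hX w p hp hT S hS δ hδ => ?_⟩
  have hX1R : (1 : ℝ) ≤ X := by exact_mod_cast (by omega : 1 ≤ X)
  have hXpos : (0 : ℝ) < X := by linarith
  have hp0 : 0 < p := lt_of_lt_of_le (by positivity) hp
  have hpX : (X : ℝ) ^ (1 - a) ≤ p * X := by
    calc (X : ℝ) ^ (1 - a) = (X : ℝ) ^ (-a) * X := by rw [sub_eq_neg_add, Real.rpow_add hXpos, Real.rpow_one]
      _ ≤ p * X := mul_le_mul_of_nonneg_right hp hXpos.le
  have h1 := hT.2 _ (syncM_of (ind_sync hS X))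
  have h2 := hN0 X (by omega) S hS δ hδ
  have h3 : |p * ∑ n ∈ Icc 1 X, ind S (s * (n : ℤ)) - δ * (p * X)| ≤ ε / 2 * (p * X) := by
    have e1 : p * ∑ n ∈ Icc 1 X, ind S (s * (n : ℤ)) - δ * (p * X) =
        (p * X) * ((∑ x ∈ Icc 1 X, ind S (s * (x : ℤ))) / X - δ) := by
      field_simp
    rw [e1, abs_mul, abs_of_pos (by positivity), mul_comm]
    exact mul_le_mul_of_nonneg_right h2 (by positivity)
  have h4 : K * (X : ℝ) ^ (1 - 2 * a) ≤ ε / 2 * (p * X) := by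
    have e1 : (X : ℝ) ^ (1 - 2 * a) = (X : ℝ) ^ (-a) * (X : ℝ) ^ (1 - a) := by
      rw [← Real.rpow_add hXpos]; congr 1; ring
    rw [e1, ← mul_assoc]
    exact mul_le_mul (hX1 X (by omega)).le hpX (by positivity) (by positivity)
  have h5 := abs_sub_le (∑ n ∈ Icc 1 X, w n * ind S (s * (n : ℤ))) (p * ∑ n ∈ Icc 1 X, ind S (s * (n : ℤ))) (δ * (p * X))
  linarith

end Pool.Agent.K3h65.LP
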