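import Pool.Agent.K3h65.LP.Weyl
import Pool.Agent.K3h65.LP.Sparse

/-!
# The criterion for all `N`, and the discrepancy of a sequence relative to the coalescence classes
-/

set_option autoImplicit false

namespace Pool.Agent.K3h65.LP

open Finset Pool.Agent.H319R3.GC Pool.Agent.Y965.PS Pool.Agent.Y965.GP
open Pool.Agent.Y55.DS (e_eq_ee fract_ind)
open Pool.Agent.Helper602.MK (ee)
open Pool.Agent.Helper602.MK.N_J5b (ee_add ee_zero ee_conj norm_ee)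

variable {d : ℕ} {m r : ℕ → ℤ}

/-- small correlations along progressions modulo small powers of `d` -/
def Cor (d : ℕ) (θ : ℝ) (N : ℕ) (z : ℕ → ℂ) : Prop :=
  (∀ n, ‖z n‖ ≤ 1) ∧ ∀ k u n0 J : ℕ, (d : ℝ) ^ k ≤ (N : ℝ) ^ θ → 1 ≤ u → (u : ℝ) ≤ 2 * (N : ℝ) ^ (2 * θ) →
    (∀ j < J, n0 + d ^ k * j + u ≤ N) →
    ‖∑ j ∈ range J, z (n0 + d ^ k * j) * (starRingEnd ℂ) (z (n0 + d ^ k * j + u))‖ ≤ (N : ℝ) ^ (1 - 4 * θ)

theorem orth_all (h : Adm d m r) {θ : ℝ} (hθ : 0 < θ) (hθ1 : θ ≤ 1 / 16) (N0 : ℕ) : ∃ C c : ℝ, 1 ≤ C ∧ 0 < c ∧ c < 1 ∧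
    ∀ s : ℤ, (s = 1 ∨ s = -1) → ∀ N : ℕ, 1 ≤ N → ∀ F : ℤ → ℝ, SyncM d m r N F → ∀ z : ℕ → ℂ, (∀ n, ‖z n‖ ≤ 1) →
    (N0 ≤ N → Cor d θ N z) → ‖∑ n ∈ Icc 1 N, (F (s * (n : ℤ)) : ℂ) * z n‖ ≤ C * (N : ℝ) ^ (1 - c) := by
  obtain ⟨C, c, hC, hc0, hc1, H⟩ := orth h hθ hθ1
  refine ⟨C + N0, c, by have : (0 : ℝ) ≤ N0 := Nat.cast_nonneg _
                        linarith, hc0, hc1, ?_⟩
  intro s hs N hN F hF z hz1 hz
  have hNR : (1 : ℝ) ≤ N := by exact_mod_cast hN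
  have hp1 : 1 ≤ (N : ℝ) ^ (1 - c) := Real.one_le_rpow hNR (by linarith)
  have hN0 : (0 : ℝ) ≤ N0 := Nat.cast_nonneg _
  rcases lt_or_ge N N0 with hlt | hge
  · refine (norm_term_le hF.1 s hz1 N).trans ?_
    have : (N : ℝ) ≤ N0 := by exact_mod_cast hlt.le
    nlinarith
  · have h1 := H s hs N hN F hF z hz1 (hz hge).2
    refine h1.trans ?_
    exact mul_le_mul_of_nonneg_right (by linarith) (by positivity)

/-- the exponential sums of a real sequence with the synchronous functions -/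
def Ex (d : ℕ) (m r : ℕ → ℤ) (s : ℤ) (N : ℕ) (g : ℕ → ℝ) (η C1 c1 : ℝ) : Prop :=
  ∀ F : ℤ → ℝ, SyncM d m r N F → ∀ j : ℕ, 1 ≤ j → (j : ℝ) ≤ 2 * (N : ℝ) ^ η →
    ‖∑ n ∈ Icc 1 N, (F (s * (n : ℤ)) : ℂ) * ee (j * g n)‖ ≤ C1 * (N : ℝ) ^ (1 - c1)

theorem Ex.sub {s : ℤ} {N : ℕ} {g : ℕ → ℝ} {η C1 c1 : ℝ} (h : Ex d m r s N g η C1 c1) (w : ℝ) :
    Ex d m r s N (fun n => g n - w) η C1 c1 := by
  intro F hF j hj1 hj2
  have h1 := h F hF j hj1 hj2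
  have e : ∑ n ∈ Icc 1 N, (F (s * (n : ℤ)) : ℂ) * ee (j * (g n - w)) =
      ee (-(j * w)) * ∑ n ∈ Icc 1 N, (F (s * (n : ℤ)) : ℂ) * ee (j * g n) := by
    rw [mul_sum]
    apply sum_congr rfl
    intro n _
    have e1 : (j : ℝ) * (g n - w) = -(j * w) + j * g n := by ring
    rw [e1, ee_add]
    ring
  simp only at e ⊢
  rw [e, norm_mul, norm_ee, one_mul]
  exact h1

theorem psi_abs (x : ℝ) : |psi x| ≤ 1 := by
  unfold psi
  have h1 := Int.fract_nonneg x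
  have h2 := (Int.fract_lt_one x).le
  rw [abs_le]; constructor <;> linarith

theorem psi_Ex {η : ℝ} (hη0 : 0 < η) (hη1 : η < 1) {C1 c1 : ℝ} (hC1 : 0 ≤ C1) (hc1 : 0 < c1) :
    ∃ C c : ℝ, 0 ≤ C ∧ 0 < c ∧ c < 1 ∧ ∀ (s : ℤ) (N : ℕ), 1 ≤ N → ∀ g : ℕ → ℝ, Ex d m r s N g η C1 c1 →
      ∀ F : ℤ → ℝ, SyncM d m r N F → (∀ x, 0 ≤ F x) →
      |∑ n ∈ Icc 1 N, F (s * (n : ℤ)) * psi (g n)| ≤ C * (N : ℝ) ^ (1 - c) := by
  obtain ⟨c, hc0, hcη, hcc⟩ : ∃ c : ℝ, 0 < c ∧ c ≤ η / 2 ∧ c ≤ c1 / 2 :=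
    ⟨min (η / 2) (c1 / 2), lt_min (by positivity) (by positivity), min_le_left _ _, min_le_right _ _⟩
  refine ⟨5 + (2 + 2 / c1) * C1, c, by positivity, hc0, by linarith, ?_⟩
  intro s N hN g hg F hF hF0
  have hNR : (1 : ℝ) ≤ N := by exact_mod_cast hN
  have hN00 : (0 : ℝ) < N := by linarith
  set K := ⌈(N : ℝ) ^ η⌉₊ with hK
  have hNη : 1 ≤ (N : ℝ) ^ η := Real.one_le_rpow hNR hη0.le
  have hK1 : (N : ℝ) ^ η ≤ K := Nat.le_ceil _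
  have hK2 : (K : ℝ) ≤ 2 * (N : ℝ) ^ η := by
    have := Nat.ceil_lt_add_one (by positivity : 0 ≤ (N : ℝ) ^ η)
    linarith
  have hK3 : (1 : ℝ) ≤ K := hNη.trans hK1
  have hK4 : 1 ≤ K := by exact_mod_cast hK3
  set η' : ℝ := (N : ℝ) ^ (-(η / 2)) / 2 with hη'
  have hη'0 : 0 < η' := by positivity
  have hη'1 : η' < 1 := by
    have : (N : ℝ) ^ (-(η / 2)) ≤ 1 := Real.rpow_le_one_of_one_le_of_nonpos hNR (by linarith)
    rw [hη']; linarith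
  have key := psi_sum (Icc 1 N) (F := fun n : ℕ => F (s * (n : ℤ))) (fun n => hF0 _) (fun n => (abs_le.1 (hF.1 _)).2)
    (fun n : ℕ => g n) hK4 hη'0 hη'1
  have hcard : ((Icc 1 N).card : ℝ) = N := by rw [Nat.card_Icc, Nat.add_sub_cancel]
  rw [hcard] at key
  refine key.trans ?_
  -- the exponential sums
  have hsums : ∀ j ∈ Icc 1 K, ‖∑ n ∈ Icc 1 N, (F (s * ((n : ℕ) : ℤ)) : ℂ) * Pool.Agent.H469R2.NK.e (j * g n)‖
      ≤ C1 * (N : ℝ) ^ (1 - c1) := by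
    intro j hj
    rw [mem_Icc] at hj
    have h2 := hg F hF j hj.1 ((by exact_mod_cast hj.2 : (j : ℝ) ≤ K).trans hK2)
    simp only [e_eq_ee]
    exact h2
  have hharm : ∑ j ∈ Icc 1 K, 1 / (j : ℝ) ≤ (2 + 2 / c1) * (N : ℝ) ^ (c1 / 2) := by
    have h1 : ∑ j ∈ Icc 1 K, 1 / (j : ℝ) ≤ 1 + Real.log K := by
      have := harmonic_le_one_add_log K
      rw [harmonic_eq_sum_Icc] at this
      push_cast at this
      simpa [one_div] using this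
    have h2 : Real.log K ≤ Real.log 2 + η * Real.log N := by
      have e1 : Real.log K ≤ Real.log (2 * (N : ℝ) ^ η) := Real.log_le_log (by linarith) hK2
      rwa [Real.log_mul (by norm_num) (by positivity), Real.log_rpow hN00] at e1
    have h3 : Real.log N ≤ (N : ℝ) ^ (c1 / 2) / (c1 / 2) := Real.log_le_rpow_div hN00.le (by positivity)
    have h4 : (1 : ℝ) ≤ (N : ℝ) ^ (c1 / 2) := Real.one_le_rpow hNR (by positivity)
    have h5 : Real.log 2 ≤ 1 := by have := Real.log_two_lt_d9; linarith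
    have h6 : 0 ≤ Real.log N := Real.log_nonneg hNR
    have h7 : η * Real.log N ≤ Real.log N := mul_le_of_le_one_left h6 hη1.le
    have h8 : (N : ℝ) ^ (c1 / 2) / (c1 / 2) = 2 / c1 * (N : ℝ) ^ (c1 / 2) := by field_simp
    calc _ ≤ 1 + Real.log K := h1
      _ ≤ 2 + 2 / c1 * (N : ℝ) ^ (c1 / 2) := by linarith
      _ ≤ _ := by linarith
  have t1 : η' * (N : ℝ) ≤ (N : ℝ) ^ (1 - c) := by
    have e1 : (N : ℝ) ^ (-(η / 2)) * N = (N : ℝ) ^ (1 - η / 2) := by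
      rw [sub_eq_neg_add, Real.rpow_add hN00, Real.rpow_one]
    have e2 : (N : ℝ) ^ (1 - η / 2) ≤ (N : ℝ) ^ (1 - c) := Real.rpow_le_rpow_of_exponent_le hNR (by linarith)
    have e3 : η' * (N : ℝ) = (N : ℝ) ^ (1 - η / 2) / 2 := by rw [hη', ← e1]; ring
    have e4 : (0 : ℝ) ≤ (N : ℝ) ^ (1 - η / 2) := by positivity
    rw [e3]; linarith
  have t2 : 2 * (N : ℝ) / (η' * K) ≤ 4 * (N : ℝ) ^ (1 - c) := by
    rw [div_le_iff₀ (by positivity)]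
    have e1 : (N : ℝ) ^ (1 - η / 2) ≤ (N : ℝ) ^ (1 - c) := Real.rpow_le_rpow_of_exponent_le hNR (by linarith)
    have e2 : (N : ℝ) ^ (1 - η / 2) * ((N : ℝ) ^ (-(η / 2)) * (N : ℝ) ^ η) = N := by
      rw [← Real.rpow_add hN00, ← Real.rpow_add hN00]
      have : 1 - η / 2 + (-(η / 2) + η) = 1 := by ring
      rw [this, Real.rpow_one]
    calc 2 * (N : ℝ) = 4 * (N : ℝ) ^ (1 - η / 2) * (((N : ℝ) ^ (-(η / 2)) / 2) * (N : ℝ) ^ η) := by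
          rw [show 4 * (N : ℝ) ^ (1 - η / 2) * (((N : ℝ) ^ (-(η / 2)) / 2) * (N : ℝ) ^ η)
            = 2 * ((N : ℝ) ^ (1 - η / 2) * ((N : ℝ) ^ (-(η / 2)) * (N : ℝ) ^ η)) by ring, e2]
      _ ≤ 4 * (N : ℝ) ^ (1 - c) * (η' * K) := by
          rw [← hη']
          gcongr
  have t3 : ∑ j ∈ Icc 1 K, 1 / (j : ℝ) * ‖∑ n ∈ Icc 1 N, (F (s * ((n : ℕ) : ℤ)) : ℂ) * Pool.Agent.H469R2.NK.e (j * g n)‖
      ≤ (2 + 2 / c1) * C1 * (N : ℝ) ^ (1 - c) := by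
    calc _ ≤ ∑ j ∈ Icc 1 K, 1 / (j : ℝ) * (C1 * (N : ℝ) ^ (1 - c1)) :=
          sum_le_sum fun j hj => mul_le_mul_of_nonneg_left (hsums j hj) (by positivity)
      _ = (∑ j ∈ Icc 1 K, 1 / (j : ℝ)) * (C1 * (N : ℝ) ^ (1 - c1)) := by rw [sum_mul]
      _ ≤ ((2 + 2 / c1) * (N : ℝ) ^ (c1 / 2)) * (C1 * (N : ℝ) ^ (1 - c1)) := by gcongr
      _ = (2 + 2 / c1) * C1 * (N : ℝ) ^ (1 - c1 / 2) := by
          have : (N : ℝ) ^ (1 - c1 / 2) = (N : ℝ) ^ (c1 / 2) * (N : ℝ) ^ (1 - c1) := by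
            rw [← Real.rpow_add hN00]; congr 1; ring
          rw [this]; ring
      _ ≤ _ := by
          apply mul_le_mul_of_nonneg_left _ (by positivity)
          exact Real.rpow_le_rpow_of_exponent_le hNR (by linarith)
  have hfin : (N : ℝ) ^ (1 - c) + 4 * (N : ℝ) ^ (1 - c) + (2 + 2 / c1) * C1 * (N : ℝ) ^ (1 - c)
      = (5 + (2 + 2 / c1) * C1) * (N : ℝ) ^ (1 - c) := by
    ring
  exact (add_le_add (add_le_add t1 t2) t3).trans hfin.le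

/-- THE DISCREPANCY, weighted by `F` -/
theorem disc_Ex {η : ℝ} (hη0 : 0 < η) (hη1 : η < 1) {C1 c1 : ℝ} (hC1 : 0 ≤ C1) (hc1 : 0 < c1) :
    ∃ C c : ℝ, 0 ≤ C ∧ 0 < c ∧ c < 1 ∧ ∀ (s : ℤ) (N : ℕ), 1 ≤ N → ∀ g : ℕ → ℝ, Ex d m r s N g η C1 c1 →
      ∀ F : ℤ → ℝ, SyncM d m r N F → ∀ u v : ℝ, 0 ≤ u → u ≤ v → v ≤ 1 →
      |∑ n ∈ Icc 1 N, (if u ≤ Int.fract (g n) ∧ Int.fract (g n) < v then (1 : ℝ) else 0) * F (s * (n : ℤ))
        - (v - u) * ∑ n ∈ Icc 1 N, F (s * (n : ℤ))| ≤ C * (N : ℝ) ^ (1 - c) := by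
  obtain ⟨C, c, hC, hc, hcl, H⟩ := psi_Ex (d := d) (m := m) (r := r) hη0 hη1 hC1 hc1
  refine ⟨2 * (3 * C), c, by positivity, hc, hcl, fun s N hN g hg F hF u v hu huv hv => ?_⟩
  -- without the sign condition
  have H' : ∀ w : ℝ, |∑ n ∈ Icc 1 N, F (s * (n : ℤ)) * psi (g n - w)| ≤ 3 * C * (N : ℝ) ^ (1 - c) := by
    intro w
    have hF' : SyncM d m r N (fun x => (1 + F x) / 2) := by
      refine ⟨fun x => ?_, fun j x y h1 h2 h3 h4 h5 => ?_⟩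
      · have := abs_le.1 (hF.1 x)
        rw [abs_le]; constructor <;> linarith [this.1, this.2]
      · simp only; rw [hF.2 j x y h1 h2 h3 h4 h5]
    have h1 := H s N hN _ (hg.sub w) _ hF' (fun x => by have := (abs_le.1 (hF.1 x)).1; show 0 ≤ (1 + F x) / 2; linarith)
    have h2 := H s N hN _ (hg.sub w) (fun _ => 1) ⟨fun x => by simp, fun _ _ _ _ _ _ _ _ => rfl⟩ (fun x => by norm_num)
    have e2 : ∑ n ∈ Icc 1 N, F (s * (n : ℤ)) * psi (g n - w) =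
        2 * ∑ n ∈ Icc 1 N, (1 + F (s * (n : ℤ))) / 2 * psi (g n - w)
        - ∑ n ∈ Icc 1 N, 1 * psi (g n - w) := by
      rw [mul_sum, ← sum_sub_distrib]
      apply sum_congr rfl
      intro n _; ring
    rw [e2]
    refine (abs_sub _ _).trans ?_
    rw [abs_mul, abs_two]
    linarith
  have e1 : ∑ n ∈ Icc 1 N, (if u ≤ Int.fract (g n) ∧ Int.fract (g n) < v then (1 : ℝ) else 0) * F (s * (n : ℤ))
        - (v - u) * ∑ n ∈ Icc 1 N, F (s * (n : ℤ))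
      = ∑ n ∈ Icc 1 N, F (s * (n : ℤ)) * psi (g n - v) -
        ∑ n ∈ Icc 1 N, F (s * (n : ℤ)) * psi (g n - u) := by
    rw [mul_sum, ← sum_sub_distrib, ← sum_sub_distrib]
    apply sum_congr rfl
    intro n _
    have h1 := fract_ind hu huv hv (g n)
    rw [h1]; ring
  rw [e1]
  refine (abs_sub _ _).trans ?_
  have h1 := H' v
  have h2 := H' u
  linarith

/-- thin sets given by the fractional parts of a sequence -/
theorem tr_Ex {η : ℝ} (hη0 : 0 < η) (hη1 : η < 1) {C1 c1 : ℝ} (hC1 : 0 ≤ C1) (hc1 : 0 < c1) :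
    ∃ K a : ℝ, 0 ≤ K ∧ 0 < a ∧ a < 1 ∧ ∀ (s : ℤ) (N : ℕ), 1 ≤ N → ∀ g : ℕ → ℝ, Ex d m r s N g η C1 c1 →
      ∀ p : ℝ, 0 ≤ p → p ≤ 1 → Tr d m r s N (fun n : ℕ => if Int.fract (g n) < p then 1 else 0) p
        (K * (N : ℝ) ^ (1 - 2 * a)) := by
  obtain ⟨C, c, hC, hc0, hc1', H⟩ := disc_Ex (d := d) (m := m) (r := r) hη0 hη1 hC1 hc1
  refine ⟨C, c / 2, hC, by positivity, by linarith, fun s N hN g hg p hp0 hp1 => ⟨fun n => ?_, fun F hF => ?_⟩⟩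
  · dsimp only; split_ifs <;> norm_num
  · have h1 := H s N hN g hg F hF 0 p le_rfl hp0 hp1
    rw [sub_zero] at h1
    simp only [Int.fract_nonneg, true_and] at h1
    have e2 : 1 - 2 * (c / 2) = 1 - c := by ring
    rw [e2]
    exact h1

end Pool.Agent.K3h65.LP
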