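import Pool.Agent.K3h65.LP.Pow
import Mathlib.NumberTheory.JacobiSum.Basic

/-!
# Characters modulo primes and functions that are constant on coalescing trajectories
-/

set_option autoImplicit false

namespace Pool.Agent.K3h65.LP

open Finset Pool.Agent.H319R3.GC Pool.Agent.Y965.PS Pool.Agent.Y965.GP

theorem per_sum {g : ℕ → ℂ} {p : ℕ} (hper : ∀ j, g (p + j) = g j) (hb : ∀ j, ‖g j‖ ≤ 1)
    (hs : ‖∑ j ∈ range p, g j‖ ≤ 1) (a b : ℕ) : ‖∑ j ∈ range (p * a + b), g j‖ ≤ a + b := by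
  induction a with
  | zero =>
    rw [mul_zero, zero_add, Nat.cast_zero, zero_add]
    refine (norm_sum_le _ _).trans ((sum_le_sum fun j _ => hb j).trans ?_)
    simp
  | succ a ih =>
    rw [show p * (a + 1) + b = p + (p * a + b) by ring, sum_range_add]
    refine (norm_add_le _ _).trans ?_
    simp only [hper]
    push_cast
    linarith

section

variable {p : ℕ} [hp : Fact p.Prime]

theorem sum_range_zmod (f : ZMod p → ℂ) : ∑ j ∈ range p, f (j : ZMod p) = ∑ x : ZMod p, f x := by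
  have : NeZero p := ⟨hp.out.ne_zero⟩
  refine sum_bij' (fun j _ => (j : ZMod p)) (fun x _ => x.val) ?_ ?_ ?_ ?_ ?_
  · intro j _; exact mem_univ _
  · intro x _; exact mem_range.2 x.val_lt
  · intro j hj; exact ZMod.val_cast_of_lt (mem_range.1 hj)
  · intro x _; exact ZMod.natCast_zmod_val x
  · intro j _; rfl

theorem corr_complete {χ : MulChar (ZMod p) ℂ} (hχ : χ ≠ 1) {u : ZMod p} (hu : u ≠ 0) :
    ∑ y : ZMod p, χ y * χ⁻¹ (y + u) = -1 := by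
  have h1 : ∑ y : ZMod p, χ y * χ⁻¹ (y + u) = ∑ x : ZMod p, χ (-u * x) * χ⁻¹ (-u * x + u) :=
    (Equiv.sum_comp (Equiv.mulLeft₀ (-u) (neg_ne_zero.2 hu)) (fun y => χ y * χ⁻¹ (y + u))).symm
  have h2 : ∀ x : ZMod p, χ (-u * x) * χ⁻¹ (-u * x + u) = (χ (-u) * χ⁻¹ u) * (χ x * χ⁻¹ (1 - x)) := by
    intro x
    have e : -u * x + u = u * (1 - x) := by ring
    rw [e, map_mul, map_mul]
    ring
  rw [h1, sum_congr rfl fun x _ => h2 x, ← mul_sum]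
  have h3 : ∑ x : ZMod p, χ x * χ⁻¹ (1 - x) = -χ (-1) := jacobiSum_nontrivial_inv hχ
  rw [h3]
  have h4 : χ (-u) * χ (-1) = χ u := by rw [← map_mul]; congr 1; ring
  have h5 : χ u * χ⁻¹ u = 1 := by
    rw [← MulChar.mul_apply, mul_inv_cancel]
    exact MulChar.one_apply (isUnit_iff_ne_zero.2 hu)
  calc χ (-u) * χ⁻¹ u * -χ (-1) = -((χ (-u) * χ (-1)) * χ⁻¹ u) := by ring
    _ = -1 := by rw [h4, h5]

theorem chr_corr {χ : MulChar (ZMod p) ℂ} (hχ : χ ≠ 1) {D u : ℕ} (hD : ¬ p ∣ D) (hu : ¬ p ∣ u) (n0 J : ℕ) :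
    ‖∑ j ∈ range J, χ ((n0 + D * j : ℕ) : ZMod p) * (starRingEnd ℂ) (χ ((n0 + D * j + u : ℕ) : ZMod p))‖ ≤ J / p + p := by
  have hD0 : (D : ZMod p) ≠ 0 := fun e => hD ((ZMod.natCast_eq_zero_iff _ _).1 e)
  have hu0 : (u : ZMod p) ≠ 0 := fun e => hu ((ZMod.natCast_eq_zero_iff _ _).1 e)
  have hp0 : (0 : ℝ) < p := by exact_mod_cast hp.out.pos
  set G : ZMod p → ℂ := fun y => χ y * χ⁻¹ (y + u) with hG
  have hg : ∀ j : ℕ, χ ((n0 + D * j : ℕ) : ZMod p) * (starRingEnd ℂ) (χ ((n0 + D * j + u : ℕ) : ZMod p)) =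
      G (n0 + D * (j : ZMod p)) := by
    intro j
    have e1 : (starRingEnd ℂ) (χ ((n0 + D * j + u : ℕ) : ZMod p)) = χ⁻¹ ((n0 + D * j + u : ℕ) : ZMod p) :=
      MulChar.star_apply' χ _
    rw [e1, hG]
    push_cast
    rfl
  rw [sum_congr rfl fun j _ => hg j]
  have hsum : ∑ j ∈ range p, G (n0 + D * (j : ZMod p)) = -1 := by
    rw [sum_range_zmod (p := p) (fun x : ZMod p => G ((n0 : ZMod p) + (D : ZMod p) * x))]
    have e9 := Equiv.sum_comp ((Equiv.mulLeft₀ (D : ZMod p) hD0).trans (Equiv.addLeft (n0 : ZMod p))) G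
    refine Eq.trans ?_ (e9.trans (corr_complete hχ hu0))
    rfl
  have key := per_sum (g := fun j : ℕ => G (n0 + D * (j : ZMod p))) (p := p) (fun j => by
      simp) (fun j => by
      rw [hG]
      simp only
      rw [norm_mul]
      have h1 := DirichletCharacter.norm_le_one χ ((n0 : ZMod p) + D * (j : ZMod p))
      have h2 := DirichletCharacter.norm_le_one χ⁻¹ ((n0 : ZMod p) + D * (j : ZMod p) + u)
      calc _ ≤ (1 : ℝ) * 1 := mul_le_mul h1 h2 (norm_nonneg _) zero_le_one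
        _ = 1 := one_mul 1) (by rw [hsum]; simp) (J / p) (J % p)
  rw [Nat.div_add_mod] at key
  refine key.trans (add_le_add ?_ ?_)
  · exact Nat.cast_div_le
  · exact_mod_cast (Nat.mod_lt J hp.out.pos).le

end

/-- the correlations of the characters modulo primes -/
theorem chr_cor {d : ℕ} (hd : 2 ≤ d) {δ : ℝ} (hδ : 0 < δ) (hδ1 : δ ≤ 1 / 2) : ∃ θ : ℝ, 0 < θ ∧ θ ≤ 1 / 16 ∧ ∃ N0 : ℕ,
    ∀ N : ℕ, N0 ≤ N → ∀ (p : ℕ) [Fact p.Prime], (N : ℝ) ^ δ ≤ p → (p : ℝ) ≤ (N : ℝ) ^ (1 - δ) →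
      ∀ χ : MulChar (ZMod p) ℂ, χ ≠ 1 → Cor d θ N (fun n => χ (n : ZMod p)) := by
  obtain ⟨N1, hN1⟩ := ev_small (d + 1) hδ
  obtain ⟨N2, hN2⟩ := ev_small 3 (show 0 < δ / 4 by positivity)
  refine ⟨δ / 8, by positivity, by linarith, N1 + N2 + 1, ?_⟩
  intro N hN p hp hp1 hp2 χ hχ
  have hNR : (1 : ℝ) ≤ N := by exact_mod_cast (by omega : 1 ≤ N)
  have hN0 : (0 : ℝ) < N := by linarith
  have t1 := hN1 N (by omega)
  have t2 := hN2 N (by omega)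
  have hpp : (0 : ℝ) < p := by exact_mod_cast hp.out.pos
  have hdp : d < p := by
    have : (d : ℝ) + 1 ≤ p := t1.trans hp1
    exact_mod_cast (by linarith : (d : ℝ) < p)
  refine ⟨fun n => DirichletCharacter.norm_le_one χ _, fun k u n0 J hq hu1 hu2 hJ => ?_⟩
  have hD : ¬ p ∣ d ^ k := by
    intro h
    have := Nat.le_of_dvd (by omega) (hp.out.dvd_of_dvd_pow h)
    omega
  have e4 : (N : ℝ) ^ δ = (N : ℝ) ^ (δ / 4) * (N : ℝ) ^ (δ / 4) * ((N : ℝ) ^ (δ / 4) * (N : ℝ) ^ (δ / 4)) := by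
    rw [← Real.rpow_add hN0, ← Real.rpow_add hN0]; congr 1; ring
  have hup : (u : ℝ) < p := by
    have e1 : (N : ℝ) ^ (2 * (δ / 8)) = (N : ℝ) ^ (δ / 4) := by congr 1; ring
    rw [e1] at hu2
    refine lt_of_lt_of_le ?_ hp1
    rw [e4]
    have h9 : (9 : ℝ) ≤ (N : ℝ) ^ (δ / 4) * (N : ℝ) ^ (δ / 4) := by nlinarith
    nlinarith
  have hu : ¬ p ∣ u := by
    intro h
    have h1 := Nat.le_of_dvd (by omega) h
    have h2 : (p : ℝ) ≤ u := by exact_mod_cast h1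
    linarith
  refine (chr_corr hχ hD hu n0 J).trans ?_
  have hD1 : 1 ≤ d ^ k := Nat.one_le_pow _ _ (by omega)
  have hJ1 := J_le hD1 hJ
  have hDR : (1 : ℝ) ≤ ((d ^ k : ℕ) : ℝ) := by exact_mod_cast hD1
  have hJ2 : (J : ℝ) ≤ 2 * N := by
    have : (N : ℝ) / ((d ^ k : ℕ) : ℝ) ≤ N := div_le_self hN0.le hDR
    linarith
  have h1 : (J : ℝ) / p ≤ 2 * (N : ℝ) ^ (1 - δ) := by
    rw [div_le_iff₀ hpp]
    have e1 : (N : ℝ) ^ (1 - δ) * (N : ℝ) ^ δ = N := by rw [← Real.rpow_add hN0]; simp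
    calc (J : ℝ) ≤ 2 * N := hJ2
      _ = 2 * (N : ℝ) ^ (1 - δ) * (N : ℝ) ^ δ := by rw [mul_assoc, e1]
      _ ≤ 2 * (N : ℝ) ^ (1 - δ) * p := mul_le_mul_of_nonneg_left hp1 (by positivity)
  have h2 : 3 * (N : ℝ) ^ (1 - δ) ≤ (N : ℝ) ^ (1 - 4 * (δ / 8)) := by
    have e1 : (N : ℝ) ^ (1 - 4 * (δ / 8)) = (N : ℝ) ^ (δ / 4) * (N : ℝ) ^ (δ / 4) * (N : ℝ) ^ (1 - δ) := by
      rw [← Real.rpow_add hN0, ← Real.rpow_add hN0]; congr 1; ring
    rw [e1]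
    apply mul_le_mul_of_nonneg_right _ (by positivity)
    nlinarith
  linarith

variable {d : ℕ} {m r : ℕ → ℤ}

/-- sums with characters modulo primes -/
theorem chr_sum (h : Adm d m r) {δ : ℝ} (hδ : 0 < δ) (hδ1 : δ ≤ 1 / 2) : ∃ C c : ℝ, 1 ≤ C ∧ 0 < c ∧ c < 1 ∧
    ∀ s : ℤ, (s = 1 ∨ s = -1) → ∀ N : ℕ, 1 ≤ N → ∀ F : ℤ → ℝ, SyncM d m r N F → ∀ (p : ℕ) [Fact p.Prime],
      (N : ℝ) ^ δ ≤ p → (p : ℝ) ≤ (N : ℝ) ^ (1 - δ) → ∀ χ : MulChar (ZMod p) ℂ, χ ≠ 1 →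
      ‖∑ n ∈ Icc 1 N, (F (s * (n : ℤ)) : ℂ) * χ (n : ZMod p)‖ ≤ C * (N : ℝ) ^ (1 - c) := by
  obtain ⟨θ, hθ0, hθ1, N0, hcor⟩ := chr_cor h.two_le hδ hδ1
  obtain ⟨C, c, hC, hc0, hc1, H⟩ := orth_all h hθ0 hθ1 N0
  refine ⟨C, c, hC, hc0, hc1, ?_⟩
  intro s hs N hN F hF p hp hp1 hp2 χ hχ
  exact H s hs N hN F hF (fun n => χ (n : ZMod p)) (fun n => DirichletCharacter.norm_le_one χ _)
    (fun hNN => hcor N hNN p hp1 hp2 χ hχ)

/-- the indicator function of a value of a character -/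
theorem chr_ind {p : ℕ} [hp : Fact p.Prime] {χ : MulChar (ZMod p) ℂ} {ζ : ℂ} (hζ : ζ ^ orderOf χ = 1) (a : ZMod p) :
    ((orderOf χ : ℂ)) * (if χ a = ζ then 1 else 0) =
      1 + ∑ j ∈ Ico 1 (orderOf χ), ζ⁻¹ ^ j * (χ ^ j) a - (if a = 0 then 1 else 0) := by
  have hk : 0 < orderOf χ := MulChar.orderOf_pos χ
  have hζ0 : ζ ≠ 0 := by
    rintro rfl
    rw [zero_pow hk.ne'] at hζ
    exact zero_ne_one hζ
  have h1 : ∀ j ∈ Ico 1 (orderOf χ), ζ⁻¹ ^ j * (χ ^ j) a = (χ a * ζ⁻¹) ^ j := by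
    intro j hj
    rw [mem_Ico] at hj
    rw [MulChar.pow_apply' χ (by omega) a, mul_pow, mul_comm]
  rw [sum_congr rfl h1]
  by_cases ha : a = 0
  · subst ha
    have h2 : χ (0 : ZMod p) = 0 := MulChar.map_zero χ
    rw [h2, if_neg (fun h => hζ0 h.symm), if_pos rfl, mul_zero]
    have h3 : ∑ j ∈ Ico 1 (orderOf χ), ((0 : ℂ) * ζ⁻¹) ^ j = 0 := by
      apply sum_eq_zero
      intro j hj
      rw [mem_Ico] at hj
      rw [zero_mul, zero_pow (by omega)]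
    rw [h3]; ring
  · rw [if_neg ha, sub_zero]
    have hχk : χ a ^ orderOf χ = 1 := by
      rw [← MulChar.pow_apply' χ hk.ne' a, pow_orderOf_eq_one]
      exact MulChar.one_apply (isUnit_iff_ne_zero.2 ha)
    have hw : (χ a * ζ⁻¹) ^ orderOf χ = 1 := by
      rw [mul_pow, hχk, inv_pow, hζ]; simp
    have hsplit : 1 + ∑ j ∈ Ico 1 (orderOf χ), (χ a * ζ⁻¹) ^ j = ∑ j ∈ range (orderOf χ), (χ a * ζ⁻¹) ^ j := by
      rw [range_eq_Ico, Finset.sum_eq_sum_Ico_succ_bot hk]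
      simp
    rw [hsplit]
    by_cases hz : χ a = ζ
    · rw [if_pos hz, hz, mul_inv_cancel₀ hζ0]
      simp
    · rw [if_neg hz, mul_zero]
      have hne : χ a * ζ⁻¹ ≠ 1 := by
        intro h4
        apply hz
        have := congrArg (· * ζ) h4
        simp only [mul_assoc, inv_mul_cancel₀ hζ0, mul_one, one_mul] at this
        exact this
      rw [geom_sum_eq hne, hw, sub_self, zero_div]

/-- the integers with a given value of a character -/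
theorem chr_Tr (h : Adm d m r) {δ : ℝ} (hδ : 0 < δ) (hδ1 : δ ≤ 1 / 2) : ∃ K c : ℝ, 0 ≤ K ∧ 0 < c ∧ c < 1 ∧
    ∀ s : ℤ, (s = 1 ∨ s = -1) → ∀ N : ℕ, 1 ≤ N → ∀ (p : ℕ) [Fact p.Prime],
      (N : ℝ) ^ δ ≤ p → (p : ℝ) ≤ (N : ℝ) ^ (1 - δ) → ∀ (χ : MulChar (ZMod p) ℂ) (ζ : ℂ), ζ ^ orderOf χ = 1 →
      ∀ F : ℤ → ℝ, SyncM d m r N F →
      |∑ n ∈ Icc 1 N, (if χ (n : ZMod p) = ζ then (1 : ℝ) else 0) * F (s * (n : ℤ)) -
        1 / (orderOf χ : ℝ) * ∑ n ∈ Icc 1 N, F (s * (n : ℤ))| ≤ K * (N : ℝ) ^ (1 - c) := by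
  classical
  obtain ⟨C, c, hC, hc0, hc1, H⟩ := chr_sum h hδ hδ1
  refine ⟨C + 1, min c δ, by linarith, lt_min hc0 hδ, lt_of_le_of_lt (min_le_left _ _) hc1, ?_⟩
  intro s hs N hN p hp hp1 hp2 χ ζ hζ F hF
  have hNR : (1 : ℝ) ≤ N := by exact_mod_cast hN
  have hN0 : (0 : ℝ) < N := by linarith
  have hpp : (0 : ℝ) < p := by exact_mod_cast hp.out.pos
  have hk : 0 < orderOf χ := MulChar.orderOf_pos χ
  obtain ⟨k, hkd⟩ : ∃ k : ℕ, k = orderOf χ := ⟨_, rfl⟩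
  have hk0 : (0 : ℝ) < k := by rw [hkd]; exact_mod_cast hk
  have hζn : ‖ζ‖ = 1 := by
    have h1 : ‖ζ‖ ^ orderOf χ = 1 := by rw [← norm_pow, hζ, norm_one]
    exact (pow_eq_one_iff_of_nonneg (norm_nonneg _) hk.ne').1 h1
  -- the identity
  set W := ∑ n ∈ Icc 1 N, (if χ (n : ZMod p) = ζ then (1 : ℝ) else 0) * F (s * (n : ℤ)) with hW
  set V := ∑ n ∈ Icc 1 N, F (s * (n : ℤ)) with hV
  set U := ∑ n ∈ Icc 1 N, (if ((n : ℕ) : ZMod p) = 0 then (1 : ℝ) else 0) * F (s * (n : ℤ)) with hU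
  have hid : ((k * W - V : ℝ) : ℂ) = ∑ j ∈ Ico 1 k, ζ⁻¹ ^ j * ∑ n ∈ Icc 1 N, (F (s * (n : ℤ)) : ℂ) * (χ ^ j) (n : ZMod p)
      - (U : ℂ) := by
    have e1 : ((k * W : ℝ) : ℂ) = ∑ n ∈ Icc 1 N, (F (s * (n : ℤ)) : ℂ) *
        ((orderOf χ : ℂ) * (if χ (n : ZMod p) = ζ then 1 else 0)) := by
      rw [hW, mul_sum, hkd]
      push_cast
      apply sum_congr rfl
      intro n _
      split_ifs <;> push_cast <;> ring
    have e2 : ∑ n ∈ Icc 1 N, (F (s * (n : ℤ)) : ℂ) * ((orderOf χ : ℂ) * (if χ (n : ZMod p) = ζ then 1 else 0)) =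
        ∑ n ∈ Icc 1 N, ((F (s * (n : ℤ)) : ℂ) + ∑ j ∈ Ico 1 (orderOf χ), ζ⁻¹ ^ j * ((F (s * (n : ℤ)) : ℂ) * (χ ^ j) (n : ZMod p))
          - (if ((n : ℕ) : ZMod p) = 0 then (1 : ℂ) else 0) * (F (s * (n : ℤ)) : ℂ)) := by
      apply sum_congr rfl
      intro n _
      rw [chr_ind hζ, mul_sub, mul_add, mul_one, mul_sum]
      congr 1
      · congr 1
        apply sum_congr rfl
        intro j _; ring
      · ring
    have e3 : ((k * W - V : ℝ) : ℂ) = ((k * W : ℝ) : ℂ) - (V : ℂ) := by push_cast; ring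
    rw [e3, e1, e2, sum_sub_distrib, sum_add_distrib, sum_comm, hkd]
    have e4 : (V : ℂ) = ∑ n ∈ Icc 1 N, (F (s * (n : ℤ)) : ℂ) := by rw [hV]; push_cast; rfl
    have e5 : (U : ℂ) = ∑ n ∈ Icc 1 N, (if ((n : ℕ) : ZMod p) = 0 then (1 : ℂ) else 0) * (F (s * (n : ℤ)) : ℂ) := by
      rw [hU]; push_cast
      apply sum_congr rfl
      intro n _
      split_ifs <;> simp
    rw [← e4, ← e5]
    simp only [mul_sum]
    ring
  have hUb : |U| ≤ (N : ℝ) ^ (1 - δ) := by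
    have h1 : |U| ≤ ∑ n ∈ Icc 1 N, (if ((n : ℕ) : ZMod p) = 0 then (1 : ℝ) else 0) := by
      rw [hU]
      refine (abs_sum_le_sum_abs _ _).trans (sum_le_sum fun n _ => ?_)
      split_ifs
      · rw [one_mul]; exact hF.1 _
      · simp
    have h2 : ∑ n ∈ Icc 1 N, (if ((n : ℕ) : ZMod p) = 0 then (1 : ℝ) else 0) = ((N / p : ℕ) : ℝ) := by
      rw [sum_boole]
      congr 1
      rw [← Nat.Ioc_filter_dvd_card_eq_div N p]
      congr 1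
      ext n
      rw [mem_filter, mem_filter, mem_Icc, mem_Ioc, ZMod.natCast_eq_zero_iff]
      constructor
      · rintro ⟨⟨a1, a2⟩, a3⟩; exact ⟨⟨by omega, a2⟩, a3⟩
      · rintro ⟨⟨a1, a2⟩, a3⟩; exact ⟨⟨by omega, a2⟩, a3⟩
    rw [h2] at h1
    refine h1.trans (Nat.cast_div_le.trans ?_)
    rw [div_le_iff₀ hpp]
    have e1 : (N : ℝ) ^ (1 - δ) * (N : ℝ) ^ δ = N := by rw [← Real.rpow_add hN0]; simp
    calc (N : ℝ) = (N : ℝ) ^ (1 - δ) * (N : ℝ) ^ δ := e1.symm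
      _ ≤ _ := mul_le_mul_of_nonneg_left hp1 (by positivity)
  have hmain : |k * W - V| ≤ k * (C * (N : ℝ) ^ (1 - c)) + (N : ℝ) ^ (1 - δ) := by
    have h1 : |k * W - V| = ‖((k * W - V : ℝ) : ℂ)‖ := by rw [Complex.norm_real, Real.norm_eq_abs]
    rw [h1, hid]
    refine (norm_sub_le _ _).trans (add_le_add ?_ (by rw [Complex.norm_real, Real.norm_eq_abs]; exact hUb))
    have h2 : ∀ j ∈ Ico 1 k, ‖ζ⁻¹ ^ j * ∑ n ∈ Icc 1 N, (F (s * (n : ℤ)) : ℂ) * (χ ^ j) (n : ZMod p)‖ ≤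
        C * (N : ℝ) ^ (1 - c) := by
      intro j hj
      rw [mem_Ico] at hj
      rw [norm_mul, norm_pow, norm_inv, hζn, inv_one, one_pow, one_mul]
      refine H s hs N hN F hF p hp1 hp2 (χ ^ j) ?_
      exact pow_ne_one_of_lt_orderOf (by omega) (by rw [← hkd]; exact hj.2)
    refine (norm_sum_le _ _).trans ((sum_le_sum h2).trans ?_)
    rw [sum_const, Nat.card_Ico, nsmul_eq_mul]
    apply mul_le_mul_of_nonneg_right _ (by positivity)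
    exact_mod_cast Nat.sub_le _ _
  have h3 : |W - 1 / (k : ℝ) * V| ≤ C * (N : ℝ) ^ (1 - c) + (N : ℝ) ^ (1 - δ) := by
    have e1 : W - 1 / (k : ℝ) * V = (k * W - V) / k := by field_simp
    rw [e1, abs_div, abs_of_pos hk0, div_le_iff₀ hk0]
    have hk1 : (1 : ℝ) ≤ k := by
      have : 1 ≤ k := by omega
      exact_mod_cast this
    have h4 : (0 : ℝ) ≤ (N : ℝ) ^ (1 - δ) := by positivity
    nlinarith
  rw [← hkd]
  refine h3.trans ?_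
  have h5 : (N : ℝ) ^ (1 - c) ≤ (N : ℝ) ^ (1 - min c δ) :=
    Real.rpow_le_rpow_of_exponent_le hNR (by have := min_le_left c δ; linarith)
  have h6 : (N : ℝ) ^ (1 - δ) ≤ (N : ℝ) ^ (1 - min c δ) :=
    Real.rpow_le_rpow_of_exponent_le hNR (by have := min_le_right c δ; linarith)
  calc C * (N : ℝ) ^ (1 - c) + (N : ℝ) ^ (1 - δ) ≤ C * (N : ℝ) ^ (1 - min c δ) + (N : ℝ) ^ (1 - min c δ) :=
        add_le_add (mul_le_mul_of_nonneg_left h5 (by linarith)) h6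
    _ = _ := by ring

end Pool.Agent.K3h65.LP
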