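import Pool.Agent.K3h65.LP.Weyl

/-!
# Discrepancy of polynomials on unions of coalescence classes, for generalised Collatz maps
-/

set_option autoImplicit false

namespace Pool.Agent.K3h65.LP

open Finset Pool.Agent.H319R3.GC Pool.Agent.Y965.PS Pool.Agent.Y965.GP Pool.Agent.H373R2.NB Polynomial
open Pool.Agent.Y55.DS (Dioph dioph_minor e_eq_ee Ph_real Ph_mul fract_ind)
open Pool.Agent.Helper602.MK (ee)
open Pool.Agent.Helper602.MK.N_J5b (ee_add ee_zero ee_conj norm_ee)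

variable {d : ℕ} {m r : ℕ → ℤ}

/-- sums with the sawtooth function of a polynomial -/
theorem psi_poly (h : Adm d m r) {k : ℕ} (hk : 1 ≤ k) {α : ℝ} (hα : Dioph α) : ∃ C c : ℝ, 0 ≤ C ∧ 0 < c ∧ c < 1 ∧
    ∀ s : ℤ, (s = 1 ∨ s = -1) → ∀ N : ℕ, 1 ≤ N → ∀ F : ℤ → ℝ, SyncM d m r N F → (∀ x, 0 ≤ F x) →
    ∀ P : ℝ[X], P.natDegree ≤ k + 1 → P.coeff (k + 1) = α →
      |∑ n ∈ Icc 1 N, F (s * (n : ℤ)) * psi (P.eval (n : ℝ))| ≤ C * (N : ℝ) ^ (1 - c) := by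
  obtain ⟨η, hη0, hη1, N0, hN0, hmin⟩ := dioph_minor hk hα
  obtain ⟨C1, c1, hC1, hc1, -, hW⟩ := weyl_ph h hk hη0
  set c : ℝ := min (η / 2) (c1 / 2) with hc
  have hc0 : 0 < c := lt_min (by positivity) (by positivity)
  have hcη : c ≤ η / 2 := min_le_left _ _
  have hcc : c ≤ c1 / 2 := min_le_right _ _
  refine ⟨N0 + 5 + (2 + 2 / c1) * C1, c, by positivity, hc0, by linarith, ?_⟩
  intro s hs N hN F hF hF0 P hP hPc
  have hNR : (1 : ℝ) ≤ N := by exact_mod_cast hN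
  have hN00 : (0 : ℝ) < N := by linarith
  have hp1 : (1 : ℝ) ≤ (N : ℝ) ^ (1 - c) := Real.one_le_rpow hNR (by linarith)
  have hpsi : ∀ x : ℝ, |psi x| ≤ 1 := by
    intro x
    unfold psi
    have h1 := Int.fract_nonneg x
    have h2 := (Int.fract_lt_one x).le
    rw [abs_le]; constructor <;> linarith
  rcases lt_or_ge N N0 with hsm | hbig
  · -- small `N`
    have h1 : |∑ n ∈ Icc 1 N, F (s * (n : ℤ)) * psi (P.eval (n : ℝ))| ≤ N := by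
      refine (abs_sum_le_sum_abs _ _).trans ?_
      have h2 : ∀ n ∈ Icc 1 N, |F (s * (n : ℤ)) * psi (P.eval ((n : ℕ) : ℝ))| ≤ 1 := by
        intro n _
        rw [abs_mul]
        have a1 := hF.1 (s * (n : ℤ))
        have a2 := hpsi (P.eval (n : ℝ))
        calc |F (s * (n : ℤ))| * |psi (P.eval ((n : ℕ) : ℝ))| ≤ 1 * 1 := mul_le_mul a1 a2 (abs_nonneg _) zero_le_one
          _ = 1 := one_mul 1
      refine (sum_le_sum h2).trans ?_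
      simp
    have h2 : (N : ℝ) ≤ N0 := by exact_mod_cast hsm.le
    have h3 : (0 : ℝ) ≤ 5 + (2 + 2 / c1) * C1 := by positivity
    calc _ ≤ (N : ℝ) := h1
      _ ≤ N0 + 5 + (2 + 2 / c1) * C1 := by linarith
      _ ≤ _ := le_mul_of_one_le_right (by positivity) hp1
  set K := ⌈(N : ℝ) ^ η⌉₊ with hK
  have hNη : 1 ≤ (N : ℝ) ^ η := Real.one_le_rpow hNR hη0.le
  have hK1 : (N : ℝ) ^ η ≤ K := Nat.le_ceil _
  have hK2 : (K : ℝ) ≤ 2 * (N : ℝ) ^ η := by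
    have := Nat.ceil_lt_add_one (by positivity : 0 ≤ (N : ℝ) ^ η)
    linarith
  have hK3 : (1 : ℝ) ≤ K := hNη.trans hK1
  have hK4 : 1 ≤ K := by exact_mod_cast hK3
  set η' : ℝ := (N : ℝ) ^ (-(η / 2)) / 2 with hη'
  have hη'0 : 0 < η' := by positivity
  have hη'1 : η' < 1 := by
    have : (N : ℝ) ^ (-(η / 2)) ≤ 1 := Real.rpow_le_one_of_one_le_of_nonpos hNR (by linarith)
    rw [hη']; linarith
  have key := psi_sum (Icc 1 N) (F := fun n : ℕ => F (s * (n : ℤ))) (fun n => hF0 _) (fun n => (abs_le.1 (hF.1 _)).2)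
    (fun n : ℕ => P.eval (n : ℝ)) hK4 hη'0 hη'1
  have hcard : ((Icc 1 N).card : ℝ) = N := by rw [Nat.card_Icc, Nat.add_sub_cancel]
  rw [hcard] at key
  refine key.trans ?_
  have hP1 := Ph_real (k + 1) P hP
  rw [hPc] at hP1
  -- the exponential sums
  have hsums : ∀ j ∈ Icc 1 K, ‖∑ n ∈ Icc 1 N, (F (s * ((n : ℕ) : ℤ)) : ℂ) * Pool.Agent.H469R2.NK.e (j * P.eval ((n : ℕ) : ℝ))‖
      ≤ C1 * (N : ℝ) ^ (1 - c1) := by
    intro j hj
    rw [mem_Icc] at hj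
    have h1 := Ph_mul (k + 1) (j : ℝ) _ _ hP1
    have h2 := hW s hs N hN F hF _ _ h1 (hmin N hbig j hj.1 ((by exact_mod_cast hj.2 : (j : ℝ) ≤ K).trans hK2))
    simp only [e_eq_ee]
    exact h2
  have hharm : ∑ j ∈ Icc 1 K, 1 / (j : ℝ) ≤ (2 + 2 / c1) * (N : ℝ) ^ (c1 / 2) := by
    have h1 : ∑ j ∈ Icc 1 K, 1 / (j : ℝ) ≤ 1 + Real.log K := by
      have := harmonic_le_one_add_log K
      rw [harmonic_eq_sum_Icc] at this
      push_cast at this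
      simpa [one_div] using this
    have h2 : Real.log K ≤ Real.log 2 + η * Real.log N := by
      have e1 : Real.log K ≤ Real.log (2 * (N : ℝ) ^ η) := Real.log_le_log (by linarith) hK2
      rwa [Real.log_mul (by norm_num) (by positivity), Real.log_rpow hN00] at e1
    have h3 : Real.log N ≤ (N : ℝ) ^ (c1 / 2) / (c1 / 2) := Real.log_le_rpow_div hN00.le (by positivity)
    have h4 : (1 : ℝ) ≤ (N : ℝ) ^ (c1 / 2) := Real.one_le_rpow hNR (by positivity)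
    have h5 : Real.log 2 ≤ 1 := by have := Real.log_two_lt_d9; linarith
    have h6 : 0 ≤ Real.log N := Real.log_nonneg hNR
    have h7 : η * Real.log N ≤ Real.log N := mul_le_of_le_one_left h6 hη1.le
    have h8 : (N : ℝ) ^ (c1 / 2) / (c1 / 2) = 2 / c1 * (N : ℝ) ^ (c1 / 2) := by field_simp
    calc _ ≤ 1 + Real.log K := h1
      _ ≤ 2 + 2 / c1 * (N : ℝ) ^ (c1 / 2) := by linarith
      _ ≤ _ := by linarith
  have t1 : η' * (N : ℝ) ≤ (N : ℝ) ^ (1 - c) := by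
    have e1 : (N : ℝ) ^ (-(η / 2)) * N = (N : ℝ) ^ (1 - η / 2) := by
      rw [sub_eq_neg_add, Real.rpow_add hN00, Real.rpow_one]
    have e2 : (N : ℝ) ^ (1 - η / 2) ≤ (N : ℝ) ^ (1 - c) := Real.rpow_le_rpow_of_exponent_le hNR (by linarith)
    have e3 : η' * (N : ℝ) = (N : ℝ) ^ (1 - η / 2) / 2 := by rw [hη', ← e1]; ring
    have e4 : (0 : ℝ) ≤ (N : ℝ) ^ (1 - η / 2) := by positivity
    rw [e3]; linarith
  have t2 : 2 * (N : ℝ) / (η' * K) ≤ 4 * (N : ℝ) ^ (1 - c) := by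
    rw [div_le_iff₀ (by positivity)]
    have e1 : (N : ℝ) ^ (1 - η / 2) ≤ (N : ℝ) ^ (1 - c) := Real.rpow_le_rpow_of_exponent_le hNR (by linarith)
    have e2 : (N : ℝ) ^ (1 - η / 2) * ((N : ℝ) ^ (-(η / 2)) * (N : ℝ) ^ η) = N := by
      rw [← Real.rpow_add hN00, ← Real.rpow_add hN00]
      have : 1 - η / 2 + (-(η / 2) + η) = 1 := by ring
      rw [this, Real.rpow_one]
    calc 2 * (N : ℝ) = 4 * (N : ℝ) ^ (1 - η / 2) * (((N : ℝ) ^ (-(η / 2)) / 2) * (N : ℝ) ^ η) := by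
          rw [show 4 * (N : ℝ) ^ (1 - η / 2) * (((N : ℝ) ^ (-(η / 2)) / 2) * (N : ℝ) ^ η)
            = 2 * ((N : ℝ) ^ (1 - η / 2) * ((N : ℝ) ^ (-(η / 2)) * (N : ℝ) ^ η)) by ring, e2]
      _ ≤ 4 * (N : ℝ) ^ (1 - c) * (η' * K) := by
          rw [← hη']
          gcongr
  have t3 : ∑ j ∈ Icc 1 K, 1 / (j : ℝ) * ‖∑ n ∈ Icc 1 N, (F (s * ((n : ℕ) : ℤ)) : ℂ) * Pool.Agent.H469R2.NK.e (j * P.eval ((n : ℕ) : ℝ))‖
      ≤ (2 + 2 / c1) * C1 * (N : ℝ) ^ (1 - c) := by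
    calc _ ≤ ∑ j ∈ Icc 1 K, 1 / (j : ℝ) * (C1 * (N : ℝ) ^ (1 - c1)) :=
          sum_le_sum fun j hj => mul_le_mul_of_nonneg_left (hsums j hj) (by positivity)
      _ = (∑ j ∈ Icc 1 K, 1 / (j : ℝ)) * (C1 * (N : ℝ) ^ (1 - c1)) := by rw [sum_mul]
      _ ≤ ((2 + 2 / c1) * (N : ℝ) ^ (c1 / 2)) * (C1 * (N : ℝ) ^ (1 - c1)) := by gcongr
      _ = (2 + 2 / c1) * C1 * (N : ℝ) ^ (1 - c1 / 2) := by
          have : (N : ℝ) ^ (1 - c1 / 2) = (N : ℝ) ^ (c1 / 2) * (N : ℝ) ^ (1 - c1) := by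
            rw [← Real.rpow_add hN00]; congr 1; ring
          rw [this]; ring
      _ ≤ _ := by
          apply mul_le_mul_of_nonneg_left _ (by positivity)
          exact Real.rpow_le_rpow_of_exponent_le hNR (by linarith)
  have hN0R : (0 : ℝ) ≤ N0 := Nat.cast_nonneg _
  have hfin : (N : ℝ) ^ (1 - c) + 4 * (N : ℝ) ^ (1 - c) + (2 + 2 / c1) * C1 * (N : ℝ) ^ (1 - c)
      ≤ (N0 + 5 + (2 + 2 / c1) * C1) * (N : ℝ) ^ (1 - c) := by
    have : 0 ≤ N0 * (N : ℝ) ^ (1 - c) := by positivity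
    linarith
  exact (add_le_add (add_le_add t1 t2) t3).trans hfin

theorem psi_poly' (h : Adm d m r) {k : ℕ} (hk : 1 ≤ k) {α : ℝ} (hα : Dioph α) : ∃ C c : ℝ, 0 ≤ C ∧ 0 < c ∧ c < 1 ∧
    ∀ s : ℤ, (s = 1 ∨ s = -1) → ∀ N : ℕ, 1 ≤ N → ∀ F : ℤ → ℝ, SyncM d m r N F →
    ∀ P : ℝ[X], P.natDegree ≤ k + 1 → P.coeff (k + 1) = α →
      |∑ n ∈ Icc 1 N, F (s * (n : ℤ)) * psi (P.eval (n : ℝ))| ≤ C * (N : ℝ) ^ (1 - c) := by
  obtain ⟨C, c, hC, hc, hc1, H⟩ := psi_poly h hk hα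
  refine ⟨3 * C, c, by positivity, hc, hc1, fun s hs N hN F hF P hP hPc => ?_⟩
  have hF' : SyncM d m r N (fun x => (1 + F x) / 2) := by
    refine ⟨fun x => ?_, fun j x y h1 h2 h3 h4 h5 => ?_⟩
    · have := abs_le.1 (hF.1 x)
      rw [abs_le]; constructor <;> linarith [this.1, this.2]
    · simp only; rw [hF.2 j x y h1 h2 h3 h4 h5]
  have h1 := H s hs N hN _ hF' (fun x => by have := (abs_le.1 (hF.1 x)).1; show 0 ≤ (1 + F x) / 2; linarith) P hP hPc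
  have h2 := H s hs N hN (fun _ => 1) ⟨fun x => by simp, fun _ _ _ _ _ _ _ _ => rfl⟩ (fun x => by norm_num) P hP hPc
  have e2 : ∑ n ∈ Icc 1 N, F (s * (n : ℤ)) * psi (P.eval (n : ℝ)) =
      2 * ∑ n ∈ Icc 1 N, (1 + F (s * (n : ℤ))) / 2 * psi (P.eval (n : ℝ))
      - ∑ n ∈ Icc 1 N, 1 * psi (P.eval (n : ℝ)) := by
    rw [mul_sum, ← sum_sub_distrib]
    apply sum_congr rfl
    intro n _; ring
  rw [e2]
  refine (abs_sub _ _).trans ?_
  rw [abs_mul, abs_two]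
  linarith

open Classical in
/-- DISCREPANCY of polynomials, weighted by `F` -/
theorem disc (h : Adm d m r) {k : ℕ} (hk : 1 ≤ k) {α : ℝ} (hα : Dioph α) : ∃ C c : ℝ, 0 ≤ C ∧ 0 < c ∧ c < 1 ∧
    ∀ s : ℤ, (s = 1 ∨ s = -1) → ∀ N : ℕ, 1 ≤ N → ∀ F : ℤ → ℝ, SyncM d m r N F →
    ∀ P : ℝ[X], P.natDegree ≤ k + 1 → P.coeff (k + 1) = α → ∀ u v : ℝ, 0 ≤ u → u ≤ v → v ≤ 1 →
      |∑ n ∈ (Icc 1 N).filter (fun n : ℕ => u ≤ Int.fract (P.eval (n : ℝ)) ∧ Int.fract (P.eval (n : ℝ)) < v),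
          F (s * (n : ℤ)) - (v - u) * ∑ n ∈ Icc 1 N, F (s * (n : ℤ))| ≤ C * (N : ℝ) ^ (1 - c) := by
  obtain ⟨C, c, hC, hc, hc1, H⟩ := psi_poly' h hk hα
  refine ⟨2 * C, c, by positivity, hc, hc1, fun s hs N hN F hF P hP hPc u v hu huv hv => ?_⟩
  have hsub : ∀ w : ℝ, |∑ n ∈ Icc 1 N, F (s * (n : ℤ)) * psi (P.eval (n : ℝ) - w)| ≤ C * (N : ℝ) ^ (1 - c) := by
    intro w
    have h1 : (P - Polynomial.C w).natDegree ≤ k + 1 := by
      refine (natDegree_sub_le _ _).trans ?_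
      rw [natDegree_C]
      omega
    have h2 : (P - Polynomial.C w).coeff (k + 1) = α := by
      rw [coeff_sub, coeff_C, if_neg (by omega), sub_zero]; exact hPc
    have h3 := H s hs N hN F hF _ h1 h2
    simpa using h3
  have e1 : ∑ n ∈ (Icc 1 N).filter (fun n : ℕ => u ≤ Int.fract (P.eval (n : ℝ)) ∧ Int.fract (P.eval (n : ℝ)) < v),
        F (s * (n : ℤ)) - (v - u) * ∑ n ∈ Icc 1 N, F (s * (n : ℤ))
      = ∑ n ∈ Icc 1 N, F (s * (n : ℤ)) * psi (P.eval (n : ℝ) - v) -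
        ∑ n ∈ Icc 1 N, F (s * (n : ℤ)) * psi (P.eval (n : ℝ) - u) := by
    rw [sum_filter, mul_sum, ← sum_sub_distrib, ← sum_sub_distrib]
    apply sum_congr rfl
    intro n _
    have h1 := fract_ind hu huv hv (P.eval (n : ℝ))
    have h2 : (if u ≤ Int.fract (P.eval (n : ℝ)) ∧ Int.fract (P.eval (n : ℝ)) < v then F (s * (n : ℤ)) else 0)
        = F (s * (n : ℤ)) * (if u ≤ Int.fract (P.eval (n : ℝ)) ∧ Int.fract (P.eval (n : ℝ)) < v then (1 : ℝ) else 0) := by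
      rw [mul_ite, mul_one, mul_zero]
    rw [h2, h1]; ring
  rw [e1]
  refine (abs_sub _ _).trans ?_
  have h1 := hsub v
  have h2 := hsub u
  linarith

end Pool.Agent.K3h65.LP
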