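import Pool.Agent.K3h65.LP.HgtEx

/-!
# Heights of odd integers and the sequences `β n ^ c` modulo one

For odd `n` the height of `n` and the fractional part of `β n ^ c`, `c > 1` not an integer, are independent, with a
power saving that is uniform over all functions of the height and over `β`. So the law of the heights and the
truncated average order of the height hold in the sparse sets of the odd `n ≤ X` for which the fractional part
of `β n ^ c` is less than `X ^ (-ν)`.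

Method: a dispersion argument along the fibres of `n ↦ (T^t(n), number of odd terms of the trajectory before
`T^t(n)`)`, which determines the height; van der Corput's inequality for the sums with `e(β n ^ c)` over the fibres.
-/

set_option autoImplicit false

namespace Pool.Agent.K3h65.LP.HeightsAndFractionalPowers

open Finset Filter Topology

/-- `C(m) = (3m+1)/2^e(m)`, `2^e(m)` the largest power of `2` dividing `3m+1` -/
def C (m : ℕ) : ℕ := (3 * m + 1) / 2 ^ padicValNat 2 (3 * m + 1)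

/-- the height `h(m)`, the least `k ≥ 1` with `C^k(m) = 1`, and `⊤ = ∞` if there is none -/
noncomputable def height (m : ℕ) : ℕ∞ := sInf {k : ℕ∞ | ∃ j : ℕ, 1 ≤ j ∧ C^[j] m = 1 ∧ k = j}

/-- `min(h(m), L)`, a natural number -/
noncomputable def truncHeight (m L : ℕ) : ℕ := (min (height m) (L : ℕ∞)).toNat

/-- among the odd positive integers, those with the property `P` have the natural density `δ` -/
def HasOddDensity (P : ℕ → Prop) (δ : ℝ) : Prop :=
  Tendsto (fun N : ℕ => 2 / (N : ℝ) * ({m : ℕ | m ≤ N ∧ Odd m ∧ P m}.ncard : ℝ)) atTop (𝓝 δ)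

/-- `2 / log (16/9) * log X + x * log 2 * √(2 log X / (log (4/3))^3)` -/
noncomputable def bound (x : ℝ) (X : ℕ) : ℝ :=
  2 / Real.log (16 / 9) * Real.log X
    + x * (Real.log 2 * Real.sqrt (2 * Real.log X / Real.log (4 / 3) ^ 3))

/-- The distribution function of the standard normal law. -/
noncomputable def Phi (x : ℝ) : ℝ :=
  ProbabilityTheory.cdf (ProbabilityTheory.gaussianReal 0 1) x

/-- `m` has a finite height, which is at most `bound x X` and congruent to `b` modulo `q`. -/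
def Level (q : ℕ) (b : ℤ) (x : ℝ) (X m : ℕ) : Prop :=
  ∃ h : ℕ, height m = h ∧ (h : ℝ) ≤ bound x X ∧ (h : ℤ) ≡ b [ZMOD q]

/-- The odd integers in `[1, X]`. -/
def Odds (X : ℕ) : Finset ℕ := (Icc 1 X).filter (fun n => n % 2 = 1)

open Classical in
/-- The odd `n` in `[1, X]` for which the fractional part of `β n ^ c` is in `[u, v)`. -/
noncomputable def Frac (c β u v : ℝ) (X : ℕ) : Finset ℕ :=
  (Odds X).filter (fun n : ℕ => u ≤ Int.fract (β * (n : ℝ) ^ c) ∧ Int.fract (β * (n : ℝ) ^ c) < v)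

/-! ### proofs -/

open Pool.Agent.K3h65.LP

open Classical in
/-- the indicator function of the condition on the fractional part -/
noncomputable def wt (c β u v : ℝ) (n : ℕ) : ℝ :=
  if u ≤ Int.fract (β * (n : ℝ) ^ c) ∧ Int.fract (β * (n : ℝ) ^ c) < v then 1 else 0

theorem sum_wt (c β u v : ℝ) (X : ℕ) (f : ℕ → ℝ) :
    ∑ n ∈ Frac c β u v X, f n = ∑ n ∈ (Icc 1 X).filter (fun n => n % 2 = 1), wt c β u v n * f n := by
  classical
  unfold Frac Odds wt
  rw [sum_filter]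
  apply sum_congr rfl
  intro n _
  split_ifs <;> simp

/-- **Heights of odd integers and `β n ^ c` modulo one.** Let `δ > 0` be the natural density, among the odd positive
integers, of those of finite height (`δ = 1` iff all heights are finite). Let `c > 1` not be an integer. There is
`η > 0` such that:
(1) there is `K` such that for ALL functions `φ`, bounded by `1`, all `X ≥ 1`, all real `β` with
`X ^ (-η) ≤ |β| ≤ X ^ η` and all intervals `[u, v)` in `[0, 1]` the sum of `φ (h(n))` over the odd `n ≤ X` for which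
the fractional part of `β n ^ c` is in the interval is `v - u` times the sum over all odd `n ≤ X`, up to
`K X ^ (1 - η)`.
For `0 ≤ ν ≤ η / 2`, uniformly in such `β` as `X → ∞`, of the odd `n ≤ X` for which the fractional part of
`β n ^ c` is less than `X ^ (-ν)`:
(2) `(δ Phi(x) / q + o(1)) X ^ (1 - ν) / 2` have a finite height which is at most `bound x X` and congruent to `b`
modulo `q`;
(3) the sum of `min (h(n), ⌊Λ log X⌋)` over these `n` is
`(δ * 2 / log (16/9) + (1 - δ) Λ + o(1)) (X ^ (1 - ν) / 2) log X`, for every `Λ > 2 / log (16/9)`. -/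
theorem result : ∃ δ : ℝ, 0 < δ ∧ δ ≤ 1 ∧ (δ = 1 ↔ ∀ m : ℕ, Odd m → height m ≠ ⊤) ∧
    HasOddDensity (fun m => height m ≠ ⊤) δ ∧ ∀ c : ℝ, 1 < c → (∀ n : ℕ, c ≠ n) → ∃ η : ℝ, 0 < η ∧
    (∃ K : ℝ, ∀ φ : ℕ∞ → ℝ, (∀ t, |φ t| ≤ 1) → ∀ X : ℕ, 1 ≤ X → ∀ β : ℝ, (X : ℝ) ^ (-η) ≤ |β| → |β| ≤ (X : ℝ) ^ η →
      ∀ u v : ℝ, 0 ≤ u → u ≤ v → v ≤ 1 →
        |∑ n ∈ Frac c β u v X, φ (height n) - (v - u) * ∑ n ∈ Odds X, φ (height n)| ≤ K * (X : ℝ) ^ (1 - η)) ∧
    ∀ ν : ℝ, 0 ≤ ν → ν ≤ η / 2 →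
      (∀ (q : ℕ) (b : ℤ) (x : ℝ), 1 ≤ q → ∀ ε : ℝ, 0 < ε → ∃ X₀ : ℕ, ∀ X : ℕ, X₀ ≤ X →
        ∀ β : ℝ, (X : ℝ) ^ (-η) ≤ |β| → |β| ≤ (X : ℝ) ^ η →
          |({n : ℕ | n ∈ Frac c β 0 ((X : ℝ) ^ (-ν)) X ∧ Level q b x X n}.ncard : ℝ) -
            δ * Phi x / q * ((X : ℝ) ^ (1 - ν) / 2)| ≤ ε * (X : ℝ) ^ (1 - ν)) ∧
      ∀ Λ : ℝ, 2 / Real.log (16 / 9) < Λ → ∀ ε : ℝ, 0 < ε → ∃ X₀ : ℕ, ∀ X : ℕ, X₀ ≤ X →
        ∀ β : ℝ, (X : ℝ) ^ (-η) ≤ |β| → |β| ≤ (X : ℝ) ^ η →
          |∑ n ∈ Frac c β 0 ((X : ℝ) ^ (-ν)) X, (truncHeight n ⌊Λ * Real.log X⌋₊ : ℝ) -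
            (δ * (2 / Real.log (16 / 9)) + (1 - δ) * Λ) * ((X : ℝ) ^ (1 - ν) / 2) * Real.log X| ≤
              ε * (X : ℝ) ^ (1 - ν) * Real.log X := by
  classical
  obtain ⟨δ, hδ, h2, h3, hav⟩ := hgt_all
  refine ⟨δ, hδ.pos, hδ.le, h2, h3, fun c hc hni => ?_⟩
  obtain ⟨K, η, hK, hη0, hη1, H⟩ := otr_pow hc hni
  refine ⟨η, hη0, ⟨K, fun φ hφ X hX β hβ1 hβ2 u v hu huv hv => ?_⟩, fun ν hν0 hν1 => ?_⟩
  · have h4 : |∑ n ∈ (Icc 1 X).filter (fun n => n % 2 = 1), wt c β u v n *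
        φ (Pool.Agent.Results.MP_2b866c_nt.PiatetskiShapiroHeights.height n) -
        (v - u) * ∑ n ∈ (Icc 1 X).filter (fun n => n % 2 = 1),
          φ (Pool.Agent.Results.MP_2b866c_nt.PiatetskiShapiroHeights.height n)| ≤ K * (X : ℝ) ^ (1 - η) :=
      H X hX β hβ1 hβ2 u v hu huv hv φ hφ
    rw [← sum_wt c β u v X (fun n => φ (Pool.Agent.Results.MP_2b866c_nt.PiatetskiShapiroHeights.height n))] at h4
    exact h4
  have hT : ∀ (X : ℕ), 1 ≤ X → ∀ β : ℝ, (X : ℝ) ^ (-η) ≤ |β| → |β| ≤ (X : ℝ) ^ η →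
      OTr X (wt c β 0 ((X : ℝ) ^ (-ν))) ((X : ℝ) ^ (-ν)) (K * (X : ℝ) ^ (1 - 2 * (η / 2))) := by
    intro X hX β hβ1 hβ2
    have hXR : (1 : ℝ) ≤ X := by exact_mod_cast hX
    have h4 := H X hX β hβ1 hβ2 0 ((X : ℝ) ^ (-ν)) le_rfl (by positivity)
      (Real.rpow_le_one_of_one_le_of_nonpos hXR (by linarith))
    rw [sub_zero] at h4
    rw [show 1 - 2 * (η / 2) = 1 - η by ring]
    exact h4
  have hpow : ∀ X : ℕ, 1 ≤ X → (X : ℝ) ^ (-ν) * X = (X : ℝ) ^ (1 - ν) := by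
    intro X hX
    have hX0 : (0 : ℝ) < X := by exact_mod_cast hX
    rw [sub_eq_neg_add, Real.rpow_add hX0, Real.rpow_one]
  have hle : ∀ X : ℕ, 1 ≤ X → (X : ℝ) ^ (-(η / 2)) ≤ (X : ℝ) ^ (-ν) := by
    intro X hX
    exact Real.rpow_le_rpow_of_exponent_le (by exact_mod_cast hX) (by linarith)
  refine ⟨fun q b x hq ε hε => ?_, fun Λ hΛ ε hε => ?_⟩
  · obtain ⟨X0, hX0⟩ := otr_law hδ (show 0 < η / 2 by positivity) K hq b x hε
    refine ⟨X0 + 1, fun X hX β hβ1 hβ2 => ?_⟩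
    have h4 := hX0 X (by omega) _ _ (hle X (by omega)) (hT X (by omega) β hβ1 hβ2)
    rw [hpow X (by omega)] at h4
    have e1 : ∑ n ∈ (Icc 1 X).filter (fun n => n % 2 = 1), wt c β 0 ((X : ℝ) ^ (-ν)) n *
        phL q b (bd x X) (Pool.Agent.Results.MP_2b866c_nt.PiatetskiShapiroHeights.height n) =
        ({n : ℕ | n ∈ Frac c β 0 ((X : ℝ) ^ (-ν)) X ∧ Level q b x X n}.ncard : ℝ) := by
      rw [← sum_wt c β 0 ((X : ℝ) ^ (-ν)) X (fun n => phL q b (bd x X)
        (Pool.Agent.Results.MP_2b866c_nt.PiatetskiShapiroHeights.height n))]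
      have e2 : {n : ℕ | n ∈ Frac c β 0 ((X : ℝ) ^ (-ν)) X ∧ Level q b x X n} =
          (((Frac c β 0 ((X : ℝ) ^ (-ν)) X).filter (fun n => Level q b x X n) : Finset ℕ) : Set ℕ) := by
        ext n; simp
      rw [e2, Set.ncard_coe_finset, ← Finset.sum_boole]
      apply sum_congr rfl
      intro n _
      unfold phL Level
      rw [← bound_bd]
      rfl
    have e3 : Pool.Agent.H499R2.ND.Phi x = Phi x := Pool.Agent.H499R2.ND.phi_cdf x
    rw [e1, e3] at h4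
    exact h4
  · have hl : 0 < Real.log (16 / 9) := Real.log_pos (by norm_num)
    obtain ⟨X0, hX0⟩ := otr_avg (lt_trans (by positivity) hΛ) (hav Λ hΛ) (show 0 < η / 2 by positivity) hK hε
    refine ⟨X0 + 1, fun X hX β hβ1 hβ2 => ?_⟩
    have h4 := hX0 X (by omega) _ _ (hle X (by omega)) (hT X (by omega) β hβ1 hβ2)
    rw [hpow X (by omega)] at h4
    rw [← sum_wt c β 0 ((X : ℝ) ^ (-ν)) X
      (fun n => (Pool.Agent.Results.MP_2b866c_nt.TruncatedAverages.truncHeight n ⌊Λ * Real.log X⌋₊ : ℝ))] at h4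
    exact h4

end Pool.Agent.K3h65.LP.HeightsAndFractionalPowers
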