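import Pool.Agent.K3h65.LP.Sparse
import Pool.Agent.Results.MP_2b866c_nt.PiatetskiShapiroHeights
import Pool.Agent.Results.MP_2b866c_nt.TruncatedAverages

/-!
# Heights of the odd integers in thin sets

The `3 x + 1` map as a generalised Collatz map of coprime type; functions of the height; the law of the heights
and the truncated averages with respect to weights that are orthogonal to the functions of the height.
-/

set_option autoImplicit false

namespace Pool.Agent.K3h65.LP

open Finset Filter Topology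
open Pool.Agent.H319R3.GC (Adm Tm wd Mw PP)
open Pool.Agent.Y965.PS (Tz ac ac_succ iter_pos)
open Pool.Agent.Y965.PL
open Pool.Agent.H499R2.HL (H H_unique)
open Pool.Agent.H499R2.LT (odn)

/-- the multipliers `1, 3` -/
def m31 : ℕ → ℤ := fun i => if i = 0 then 1 else 3
/-- the offsets `0, -1` -/
def r31 : ℕ → ℤ := fun i => if i = 0 then 0 else -1

theorem adm31 : Adm 2 m31 r31 where
  two_le := le_rfl
  cop := by
    intro i _
    unfold m31
    split_ifs
    · exact isCoprime_one_left
    · refine ⟨1, -1, by norm_num⟩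
  adm := by
    intro i hi
    unfold m31 r31
    interval_cases i <;> norm_num
  contr := by unfold PP m31; decide
  big := by unfold PP m31; decide

theorem Tm31 (x : ℤ) : Tm 2 m31 r31 x = Tz 1 x := by
  unfold Tm Tz m31 r31
  rcases Int.emod_two_eq_zero_or_one x with h | h
  · rw [show ((2 : ℕ) : ℤ) = 2 by norm_num, h]; simp
  · rw [show ((2 : ℕ) : ℤ) = 2 by norm_num, h]; simp

theorem Tm31' : Tm 2 m31 r31 = Tz 1 := funext Tm31

theorem ac_succ' (k : ℕ) : ∀ x : ℤ, ac 1 (k + 1) x = (if x % 2 = 0 then 0 else 1) + ac 1 k (Tz 1 x) := by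
  induction k with
  | zero => intro x; simp [ac]
  | succ k ih =>
    intro x
    rw [ac_succ, ih x, ac_succ, Function.iterate_succ_apply]
    ring

theorem Mw31 (k : ℕ) : ∀ x : ℤ, Mw m31 (wd 2 m31 r31 k x) = 3 ^ (ac 1 k x) := by
  induction k with
  | zero => intro x; simp [wd, Mw, ac]
  | succ k ih =>
    intro x
    have e : Mw m31 (wd 2 m31 r31 (k + 1) x) = m31 (x % 2).toNat * Mw m31 (wd 2 m31 r31 k (Tm 2 m31 r31 x)) := by
      simp [wd, Mw]
    rw [e, ih, Tm31, ac_succ', pow_add]
    congr 1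
    unfold m31
    rcases Int.emod_two_eq_zero_or_one x with h | h
    · rw [h]; simp
    · rw [h]; simp

theorem Tz_neg {x : ℤ} (hx : x < 0) : Tz 1 x < 0 := by
  unfold Tz
  split_ifs <;> omega

theorem iter_neg {x : ℤ} (hx : x < 0) (t : ℕ) : (Tz 1)^[t] x < 0 := by
  induction t with
  | zero => simpa using hx
  | succ t ih => rw [Function.iterate_succ_apply']; exact Tz_neg ih

theorem syncM_Fg {g : ℕ → ℕ → ℝ} {g0 : ℝ} (hg : ∀ k o, |g k o| ≤ 1) (hg0 : |g0| ≤ 1) (N : ℕ) :
    SyncM 2 m31 r31 N (fun z => Fg g g0 z.toNat) := by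
  have hA := async_Fg hg hg0
  refine ⟨hA.1, fun k x y hk hx hy he hw => ?_⟩
  rw [Mw31, Mw31] at hw
  rw [Tm31'] at he
  have hac : ac 1 k x = ac 1 k y := by
    have h1 : (3 : ℤ) ^ ac 1 k x = 3 ^ ac 1 k y := hw
    exact Int.pow_right_injective (by norm_num) h1
  rcases Nat.eq_zero_or_pos N with hN | hN
  · subst hN
    rw [Nat.cast_zero, Real.zero_rpow (by norm_num)] at hk
    have : (0 : ℝ) < ((2 : ℕ) : ℝ) ^ k := by positivity
    linarith
  have hN1 : (1 : ℝ) ≤ N := by exact_mod_cast hN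
  have hk2 : ((2 : ℕ) : ℝ) ^ k ≤ (N : ℝ) ^ (1 / 2 : ℝ) :=
    hk.trans (Real.rpow_le_rpow_of_exponent_le hN1 (by norm_num))
  have hcast : ∀ z : ℤ, (N : ℝ) ^ (1 / 2 : ℝ) < |(z : ℝ)| → (2 : ℤ) ^ k < |z| := by
    intro z hz
    have h1 : (((2 : ℤ) ^ k : ℤ) : ℝ) < ((|z| : ℤ) : ℝ) := by
      push_cast
      push_cast at hk2
      exact lt_of_le_of_lt hk2 hz
    exact_mod_cast h1
  have hx' := hcast x hx
  have hy' := hcast y hy
  have hp : (0 : ℤ) < 2 ^ k := by positivity
  rcases lt_trichotomy x 0 with h1 | h1 | h1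
  · rcases lt_trichotomy y 0 with h2 | h2 | h2
    · dsimp only
      rw [Int.toNat_of_nonpos h1.le, Int.toNat_of_nonpos h2.le]
    · rw [h2, abs_zero] at hy'; omega
    · have h3 := iter_neg h1 k
      have h4 := iter_pos (d := 1) (Or.inl rfl) h2 k
      omega
  · rw [h1, abs_zero] at hx'; omega
  · rcases lt_trichotomy y 0 with h2 | h2 | h2
    · have h3 := iter_neg h2 k
      have h4 := iter_pos (d := 1) (Or.inl rfl) h1 k
      omega
    · rw [h2, abs_zero] at hy'; omega
    · rw [abs_of_pos h1] at hx'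
      rw [abs_of_pos h2] at hy'
      exact hA.2 k x y hx' hy' he hac

end Pool.Agent.K3h65.LP
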