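import Pool.Agent.K3h65.LP.Pow

/-!
# Exponential sums with `β n ^ c` and functions that are constant on coalescing trajectories
-/

set_option autoImplicit false

namespace Pool.Agent.K3h65.LP

open Finset Pool.Agent.H319R3.GC Pool.Agent.Y965.PS Pool.Agent.Y965.GP
open Pool.Agent.Helper602.MK (ee)
open Pool.Agent.Helper602.MK.N_J5b (ee_add ee_zero ee_conj norm_ee)

variable {d : ℕ} {m r : ℕ → ℤ}

theorem conj_sum (F : ℤ → ℝ) (s : ℤ) (g : ℕ → ℝ) (N : ℕ) :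
    ‖∑ n ∈ Icc 1 N, (F (s * (n : ℤ)) : ℂ) * ee (-g n)‖ = ‖∑ n ∈ Icc 1 N, (F (s * (n : ℤ)) : ℂ) * ee (g n)‖ := by
  have e : ∑ n ∈ Icc 1 N, (F (s * (n : ℤ)) : ℂ) * ee (-g n) =
      (starRingEnd ℂ) (∑ n ∈ Icc 1 N, (F (s * (n : ℤ)) : ℂ) * ee (g n)) := by
    rw [map_sum]
    apply sum_congr rfl
    intro n _
    rw [map_mul, Complex.conj_ofReal, ee_conj]
  rw [e, RCLike.norm_conj]

theorem pow_Ex (h : Adm d m r) {c : ℝ} (hc : 1 < c) (hni : ∀ n : ℕ, c ≠ n) :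
    ∃ η C1 c1 : ℝ, 0 < η ∧ η < 1 ∧ 0 ≤ C1 ∧ 0 < c1 ∧ ∀ s : ℤ, (s = 1 ∨ s = -1) → ∀ N : ℕ, 1 ≤ N → ∀ β : ℝ,
      (N : ℝ) ^ (-η) ≤ |β| → |β| ≤ (N : ℝ) ^ η → Ex d m r s N (fun n => β * (n : ℝ) ^ c) η C1 c1 := by
  have h1 : 1 ≤ ⌊c⌋₊ := Nat.floor_pos.2 hc.le
  have h2 : (⌊c⌋₊ : ℝ) < c := lt_of_le_of_ne (Nat.floor_le (by linarith)) (fun e => hni _ e.symm)
  have h3 : c < ⌊c⌋₊ + 1 := Nat.lt_floor_add_one c
  obtain ⟨k, hk⟩ : ∃ k : ℕ, ⌊c⌋₊ = k + 1 := ⟨⌊c⌋₊ - 1, by omega⟩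
  rw [hk] at h2 h3
  push_cast at h2 h3
  obtain ⟨θ, η0, hθ0, hθ1, hη0, hη1, N0, hcor⟩ := pow_cor (d := d) (by have := h.two_le; omega) h2 (by linarith)
  obtain ⟨N1, hN1⟩ := ev_small 2 (show 0 < η0 / 3 by positivity)
  obtain ⟨C, c', hC, hc0, hc1, H⟩ := orth_all h hθ0 hθ1 (N0 + N1)
  refine ⟨η0 / 3, C, c', by positivity, by linarith, by linarith, hc0, ?_⟩
  intro s hs N hN β hβ1 hβ2 F hF j hj1 hj2
  have hNR : (1 : ℝ) ≤ N := by exact_mod_cast hN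
  have hN0 : (0 : ℝ) < N := by linarith
  have hj1R : (1 : ℝ) ≤ j := by exact_mod_cast hj1
  have key : ‖∑ n ∈ Icc 1 N, (F (s * (n : ℤ)) : ℂ) * ee ((j * |β|) * (n : ℝ) ^ c)‖ ≤ C * (N : ℝ) ^ (1 - c') := by
    refine H s hs N hN F hF (fun n => ee ((j * |β|) * (n : ℝ) ^ c)) (fun n => (norm_ee _).le) (fun hNN => ?_)
    refine hcor N (by omega) (j * |β|) ?_ ?_
    · calc (N : ℝ) ^ (-η0) ≤ (N : ℝ) ^ (-(η0 / 3)) := Real.rpow_le_rpow_of_exponent_le hNR (by linarith)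
        _ ≤ |β| := hβ1
        _ ≤ j * |β| := le_mul_of_one_le_left (abs_nonneg _) hj1R
    · have e1 := hN1 N (by omega)
      have e2 : (N : ℝ) ^ η0 = (N : ℝ) ^ (η0 / 3) * (N : ℝ) ^ (η0 / 3) * (N : ℝ) ^ (η0 / 3) := by
        rw [← Real.rpow_add hN0, ← Real.rpow_add hN0]; congr 1; ring
      rw [e2]
      calc (j : ℝ) * |β| ≤ (2 * (N : ℝ) ^ (η0 / 3)) * (N : ℝ) ^ (η0 / 3) := mul_le_mul hj2 hβ2 (abs_nonneg _) (by positivity)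
        _ ≤ ((N : ℝ) ^ (η0 / 3) * (N : ℝ) ^ (η0 / 3)) * (N : ℝ) ^ (η0 / 3) := by
            apply mul_le_mul_of_nonneg_right _ (by positivity)
            exact mul_le_mul_of_nonneg_right e1 (by positivity)
  rcases le_or_gt 0 β with hβ | hβ
  · rw [abs_of_nonneg hβ] at key
    simp only [mul_assoc] at key ⊢
    exact key
  · rw [← conj_sum, abs_of_neg hβ] at key
    have e : ∀ n : ℕ, -((j : ℝ) * -β * (n : ℝ) ^ c) = j * (β * (n : ℝ) ^ c) := by intro n; ring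
    simp only [e] at key
    exact key

end Pool.Agent.K3h65.LP
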