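import Pool.Agent.K3h65.LP.HgtTr
import Pool.Agent.K3h65.LP.PowEx
import Pool.Agent.K3h65.LP.Chr

/-!
# Heights of odd integers in thin sets given by powers modulo one and by characters
-/

set_option autoImplicit false

namespace Pool.Agent.K3h65.LP

open Finset Filter Topology
open Pool.Agent.Results.MP_2b866c_nt

theorem otr_triv {X : ℕ} {w : ℕ → ℝ} {p : ℝ} (hw : ∀ n, |w n| ≤ 1) (hp : |p| ≤ 1) : OTr X w p (2 * X) := by
  intro φ hφ
  have hcard : (((Icc 1 X).filter (fun n => n % 2 = 1)).card : ℝ) ≤ X := by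
    have h1 := card_filter_le (Icc 1 X) (fun n => n % 2 = 1)
    rw [Nat.card_Icc, Nat.add_sub_cancel] at h1
    exact_mod_cast h1
  have h1 : |∑ n ∈ (Icc 1 X).filter (fun n => n % 2 = 1), w n * φ (PiatetskiShapiroHeights.height n)| ≤ X := by
    have h0 : ∀ n ∈ (Icc 1 X).filter (fun n => n % 2 = 1), |w n * φ (PiatetskiShapiroHeights.height n)| ≤ 1 := by
      intro n _
      rw [abs_mul]
      calc |w n| * |φ (PiatetskiShapiroHeights.height n)| ≤ 1 * 1 := mul_le_mul (hw n) (hφ _) (abs_nonneg _) zero_le_one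
        _ = 1 := one_mul 1
    refine (abs_sum_le_sum_abs _ _).trans ((sum_le_sum h0).trans ?_)
    rw [sum_const, nsmul_eq_mul, mul_one]
    exact hcard
  have h2 : |p * ∑ n ∈ (Icc 1 X).filter (fun n => n % 2 = 1), φ (PiatetskiShapiroHeights.height n)| ≤ X := by
    rw [abs_mul]
    have h3 : |∑ n ∈ (Icc 1 X).filter (fun n => n % 2 = 1), φ (PiatetskiShapiroHeights.height n)| ≤ X := by
      refine (abs_sum_le_sum_abs _ _).trans ((sum_le_sum fun n _ => hφ _).trans ?_)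
      rw [sum_const, nsmul_eq_mul, mul_one]
      exact hcard
    calc |p| * _ ≤ 1 * (X : ℝ) := mul_le_mul hp h3 (abs_nonneg _) zero_le_one
      _ = X := one_mul _
  refine (abs_sub _ _).trans ?_
  linarith

theorem otr_mono {X : ℕ} {w : ℕ → ℝ} {p E E' : ℝ} (h : OTr X w p E) (hE : E ≤ E') : OTr X w p E' :=
  fun φ hφ => (h φ hφ).trans hE

open Classical in
/-- the weights given by fractional parts -/
theorem otr_Ex {η : ℝ} (hη0 : 0 < η) (hη1 : η < 1) {C1 c1 : ℝ} (hC1 : 0 ≤ C1) (hc1 : 0 < c1) :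
    ∃ K c : ℝ, 0 ≤ K ∧ 0 < c ∧ c < 1 ∧ ∀ X : ℕ, 1 ≤ X → ∀ g : ℕ → ℝ, Ex 2 m31 r31 1 X g η C1 c1 →
      (1 ≤ X / 2 → Ex 2 m31 r31 1 (X / 2) (fun n => g (2 * n)) η C1 c1) → ∀ u v : ℝ, 0 ≤ u → u ≤ v → v ≤ 1 →
      OTr X (fun n => if u ≤ Int.fract (g n) ∧ Int.fract (g n) < v then 1 else 0) (v - u) (K * (X : ℝ) ^ (1 - c)) := by
  obtain ⟨C, c, hC, hc0, hc1', H⟩ := disc_Ex (d := 2) (m := m31) (r := r31) hη0 hη1 hC1 hc1
  refine ⟨C + C, c, by positivity, hc0, hc1', ?_⟩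
  intro X hX g h1 h2 u v hu huv hv
  have key := otr_of (X := X) (w := fun n => if u ≤ Int.fract (g n) ∧ Int.fract (g n) < v then 1 else 0) (p := v - u)
    (E1 := C * (X : ℝ) ^ (1 - c)) (E2 := C * (X : ℝ) ^ (1 - c))
    (fun F hF => H 1 X hX g h1 F hF u v hu huv hv) (fun F hF => by
      rcases Nat.eq_zero_or_pos (X / 2) with h0 | h0
      · rw [h0]; simp; positivity
      · have h3 := H 1 (X / 2) h0 _ (h2 h0) F hF u v hu huv hv
        have h4 : (((X / 2 : ℕ)) : ℝ) ^ (1 - c) ≤ (X : ℝ) ^ (1 - c) :=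
          Real.rpow_le_rpow (Nat.cast_nonneg _) (by exact_mod_cast Nat.div_le_self X 2) (by linarith)
        exact h3.trans (mul_le_mul_of_nonneg_left h4 hC))
  exact otr_mono key (by rw [add_mul])

open Classical in
/-- `β n ^ c` modulo one -/
theorem otr_pow {c : ℝ} (hc : 1 < c) (hni : ∀ n : ℕ, c ≠ n) : ∃ K η : ℝ, 0 ≤ K ∧ 0 < η ∧ η < 1 ∧ ∀ X : ℕ, 1 ≤ X →
    ∀ β : ℝ, (X : ℝ) ^ (-η) ≤ |β| → |β| ≤ (X : ℝ) ^ η → ∀ u v : ℝ, 0 ≤ u → u ≤ v → v ≤ 1 →
      OTr X (fun n => if u ≤ Int.fract (β * (n : ℝ) ^ c) ∧ Int.fract (β * (n : ℝ) ^ c) < v then 1 else 0) (v - u)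
        (K * (X : ℝ) ^ (1 - η)) := by
  obtain ⟨η0, C1, c1, hη0, hη1, hC1, hc1, hE⟩ := pow_Ex adm31 hc hni
  obtain ⟨K, c', hK, hc0, hc1', H⟩ := otr_Ex hη0 hη1 hC1 hc1
  obtain ⟨X0, hX0⟩ := ev_small ((2 : ℝ) ^ c * 3 ^ η0) (show 0 < η0 / 2 by positivity)
  refine ⟨K + 2 * X0, min (η0 / 2) c', by positivity, lt_min (by positivity) hc0, by
    have := min_le_left (η0 / 2) c'; linarith, ?_⟩
  intro X hX β hβ1 hβ2 u v hu huv hv
  have hXR : (1 : ℝ) ≤ X := by exact_mod_cast hX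
  have hXpos : (0 : ℝ) < X := by linarith
  set η := min (η0 / 2) c' with hη
  have hηη : η ≤ η0 / 2 := min_le_left _ _
  have hηc : η ≤ c' := min_le_right _ _
  have hp1 : 1 ≤ (X : ℝ) ^ (1 - η) := Real.one_le_rpow hXR (by linarith)
  have hX0R : (0 : ℝ) ≤ X0 := Nat.cast_nonneg _
  rcases lt_or_ge X X0 with hlt | hge
  · refine otr_mono (otr_triv (fun n => ?_) ?_) ?_
    · split_ifs <;> simp
    · rw [abs_le]; constructor <;> linarith
    · have : (X : ℝ) ≤ X0 := by exact_mod_cast hlt.le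
      nlinarith
  · have hbig := hX0 X hge
    have h2c : (1 : ℝ) ≤ 2 ^ c := Real.one_le_rpow (by norm_num) (by linarith)
    have h3η : (1 : ℝ) ≤ 3 ^ η0 := Real.one_le_rpow (by norm_num) hη0.le
    have e1 : (X : ℝ) ^ η0 = (X : ℝ) ^ (η0 / 2) * (X : ℝ) ^ (η0 / 2) := by
      rw [← Real.rpow_add hXpos]; congr 1; ring
    have b1 : (X : ℝ) ^ (-(η0 / 2)) ≤ |β| := (Real.rpow_le_rpow_of_exponent_le hXR (by linarith)).trans hβ1
    have b2 : |β| ≤ (X : ℝ) ^ (η0 / 2) := hβ2.trans (Real.rpow_le_rpow_of_exponent_le hXR hηη)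
    refine otr_mono (H X hX (fun n => β * (n : ℝ) ^ c) (hE 1 (Or.inl rfl) X hX β ?_ ?_) (fun h0 => ?_) u v hu huv hv) ?_
    · exact (Real.rpow_le_rpow_of_exponent_le hXR (by linarith)).trans b1
    · exact b2.trans (Real.rpow_le_rpow_of_exponent_le hXR (by linarith))
    · have h3 : (X : ℝ) / 3 ≤ ((X / 2 : ℕ) : ℝ) := by
        have : X ≤ 3 * (X / 2) := by omega
        have h4 : (X : ℝ) ≤ 3 * ((X / 2 : ℕ) : ℝ) := by exact_mod_cast this
        linarith
      have hN1 : (1 : ℝ) ≤ ((X / 2 : ℕ) : ℝ) := by exact_mod_cast h0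
      have hNp : (X : ℝ) ^ η0 / 3 ^ η0 ≤ ((X / 2 : ℕ) : ℝ) ^ η0 := by
        rw [← Real.div_rpow hXpos.le (by norm_num)]
        exact Real.rpow_le_rpow (by positivity) h3 hη0.le
      have h5 : 2 ^ c * (X : ℝ) ^ (η0 / 2) ≤ (X : ℝ) ^ η0 / 3 ^ η0 := by
        rw [le_div_iff₀ (by positivity), e1]
        calc 2 ^ c * (X : ℝ) ^ (η0 / 2) * 3 ^ η0 = (2 ^ c * 3 ^ η0) * (X : ℝ) ^ (η0 / 2) := by ring
          _ ≤ _ := mul_le_mul_of_nonneg_right hbig (by positivity)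
      have h6 := hE 1 (Or.inl rfl) (X / 2) h0 (β * 2 ^ c) ?_ ?_
      · refine (show (fun n : ℕ => β * (((2 * n : ℕ) : ℕ) : ℝ) ^ c) = fun n : ℕ => β * 2 ^ c * (n : ℝ) ^ c from ?_) ▸ h6
        funext n
        push_cast
        rw [Real.mul_rpow (by norm_num) (Nat.cast_nonneg n)]
        ring
      · rw [abs_mul, abs_of_pos (by positivity : (0 : ℝ) < 2 ^ c)]
        have h7 : ((X / 2 : ℕ) : ℝ) ^ (-η0) ≤ (X : ℝ) ^ (-(η0 / 2)) := by
          rw [Real.rpow_neg (by linarith), Real.rpow_neg hXpos.le]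
          apply inv_anti₀ (by positivity)
          refine le_trans ?_ hNp
          refine le_trans ?_ h5
          exact le_mul_of_one_le_left (by positivity) h2c
        calc _ ≤ (X : ℝ) ^ (-(η0 / 2)) := h7
          _ ≤ |β| := b1
          _ ≤ |β| * 2 ^ c := le_mul_of_one_le_right (abs_nonneg _) h2c
      · rw [abs_mul, abs_of_pos (by positivity : (0 : ℝ) < 2 ^ c)]
        calc |β| * 2 ^ c ≤ (X : ℝ) ^ (η0 / 2) * 2 ^ c := mul_le_mul_of_nonneg_right b2 (by positivity)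
          _ = 2 ^ c * (X : ℝ) ^ (η0 / 2) := by ring
          _ ≤ _ := h5
          _ ≤ _ := hNp
    · have h8 : (X : ℝ) ^ (1 - c') ≤ (X : ℝ) ^ (1 - η) := Real.rpow_le_rpow_of_exponent_le hXR (by linarith)
      calc K * (X : ℝ) ^ (1 - c') ≤ K * (X : ℝ) ^ (1 - η) := mul_le_mul_of_nonneg_left h8 hK
        _ ≤ _ := mul_le_mul_of_nonneg_right (by linarith) (by positivity)

open Classical in
/-- characters modulo primes -/
theorem otr_chr {δ : ℝ} (hδ : 0 < δ) (hδ1 : δ ≤ 1 / 2) : ∃ K η : ℝ, 0 ≤ K ∧ 0 < η ∧ η < 1 ∧ ∀ X : ℕ, 1 ≤ X →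
    ∀ (p : ℕ) [Fact p.Prime], (X : ℝ) ^ δ ≤ p → (p : ℝ) ≤ (X : ℝ) ^ (1 - δ) →
      ∀ (χ : MulChar (ZMod p) ℂ) (ζ : ℂ), ζ ^ orderOf χ = 1 →
      OTr X (fun n => if χ (n : ZMod p) = ζ then 1 else 0) (1 / (orderOf χ : ℝ)) (K * (X : ℝ) ^ (1 - η)) := by
  obtain ⟨K, c, hK, hc0, hc1, H⟩ := chr_Tr adm31 (show 0 < δ / 2 by positivity) (by linarith)
  obtain ⟨X0, hX0⟩ := ev_small 3 (show 0 < δ / 2 by positivity)
  refine ⟨2 * K + 2 * X0, c, by positivity, hc0, hc1, ?_⟩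
  intro X hX p hp hp1 hp2 χ ζ hζ
  have hXR : (1 : ℝ) ≤ X := by exact_mod_cast hX
  have hXpos : (0 : ℝ) < X := by linarith
  have hpow1 : 1 ≤ (X : ℝ) ^ (1 - c) := Real.one_le_rpow hXR (by linarith)
  have hX0R : (0 : ℝ) ≤ X0 := Nat.cast_nonneg _
  have hk : (1 : ℝ) ≤ orderOf χ := by exact_mod_cast MulChar.orderOf_pos χ
  rcases lt_or_ge X X0 with hlt | hge
  · refine otr_mono (otr_triv (fun n => ?_) ?_) ?_
    · split_ifs <;> simp
    · rw [abs_of_nonneg (by positivity), div_le_one (by linarith)]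
      exact hk
    · have : (X : ℝ) ≤ X0 := by exact_mod_cast hlt.le
      nlinarith
  · have hbig := hX0 X hge
    have e1 : (X : ℝ) ^ δ = (X : ℝ) ^ (δ / 2) * (X : ℝ) ^ (δ / 2) := by
      rw [← Real.rpow_add hXpos]; congr 1; ring
    have hp3 : (3 : ℝ) ≤ p := by
      refine le_trans ?_ hp1
      rw [e1]
      nlinarith
    have hp2' : 2 < p := by exact_mod_cast (by linarith : (2 : ℝ) < p)
    have h20 : ((2 : ℕ) : ZMod p) ≠ 0 := by
      intro e
      have h1 := (ZMod.natCast_eq_zero_iff 2 p).1 e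
      have h2 := Nat.le_of_dvd (by norm_num) h1
      omega
    have hχ2 : χ ((2 : ℕ) : ZMod p) ≠ 0 := by
      intro e
      have h1 : χ ((2 : ℕ) : ZMod p) * χ⁻¹ ((2 : ℕ) : ZMod p) = 1 := by
        rw [← MulChar.mul_apply, mul_inv_cancel]
        exact MulChar.one_apply (isUnit_iff_ne_zero.2 h20)
      rw [e, zero_mul] at h1
      exact zero_ne_one h1
    have hχk : χ ((2 : ℕ) : ZMod p) ^ orderOf χ = 1 := by
      rw [← MulChar.pow_apply' χ (MulChar.orderOf_pos χ).ne', pow_orderOf_eq_one]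
      exact MulChar.one_apply (isUnit_iff_ne_zero.2 h20)
    have hζ' : (ζ * (χ ((2 : ℕ) : ZMod p))⁻¹) ^ orderOf χ = 1 := by
      rw [mul_pow, hζ, inv_pow, hχk]; simp
    have key := otr_of (X := X) (w := fun n => if χ (n : ZMod p) = ζ then 1 else 0) (p := 1 / (orderOf χ : ℝ))
      (E1 := K * (X : ℝ) ^ (1 - c)) (E2 := K * (X : ℝ) ^ (1 - c))
      (fun F hF => H 1 (Or.inl rfl) X hX p ?_ ?_ χ ζ hζ F hF) (fun F hF => by
        rcases Nat.eq_zero_or_pos (X / 2) with h0 | h0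
        · rw [h0]; simp; positivity
        · have h3 := H 1 (Or.inl rfl) (X / 2) h0 p ?_ ?_ χ _ hζ' F hF
          · have h4 : (((X / 2 : ℕ)) : ℝ) ^ (1 - c) ≤ (X : ℝ) ^ (1 - c) :=
              Real.rpow_le_rpow (Nat.cast_nonneg _) (by exact_mod_cast Nat.div_le_self X 2) (by linarith)
            refine le_trans (le_of_eq ?_) (h3.trans (mul_le_mul_of_nonneg_left h4 hK))
            congr 2
            apply sum_congr rfl
            intro n _
            have h5 : χ ((2 * n : ℕ) : ZMod p) = ζ ↔ χ (n : ZMod p) = ζ * (χ ((2 : ℕ) : ZMod p))⁻¹ := by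
              rw [Nat.cast_mul, map_mul, eq_mul_inv_iff_mul_eq₀ hχ2, mul_comm]
            by_cases h6 : χ ((2 * n : ℕ) : ZMod p) = ζ
            · rw [if_pos h6, if_pos (h5.1 h6)]
            · rw [if_neg h6, if_neg (fun h => h6 (h5.2 h))]
          · have h8 : (((X / 2 : ℕ)) : ℝ) ^ (δ / 2) ≤ (X : ℝ) ^ (δ / 2) :=
              Real.rpow_le_rpow (Nat.cast_nonneg _) (by exact_mod_cast Nat.div_le_self X 2) (by linarith)
            refine h8.trans ?_
            exact (Real.rpow_le_rpow_of_exponent_le hXR (by linarith)).trans hp1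
          · have h7 : (X : ℝ) / 3 ≤ ((X / 2 : ℕ) : ℝ) := by
              have : X ≤ 3 * (X / 2) := by omega
              have h4 : (X : ℝ) ≤ 3 * ((X / 2 : ℕ) : ℝ) := by exact_mod_cast this
              linarith
            refine hp2.trans ?_
            refine le_trans ?_ (Real.rpow_le_rpow (by positivity) h7 (by linarith))
            rw [Real.div_rpow hXpos.le (by norm_num), le_div_iff₀ (by positivity)]
            have e2 : (X : ℝ) ^ (1 - δ / 2) = (X : ℝ) ^ (1 - δ) * (X : ℝ) ^ (δ / 2) := by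
              rw [← Real.rpow_add hXpos]; congr 1; ring
            rw [e2]
            apply mul_le_mul_of_nonneg_left _ (by positivity)
            refine le_trans ?_ hbig
            calc (3 : ℝ) ^ (1 - δ / 2) ≤ 3 ^ (1 : ℝ) := Real.rpow_le_rpow_of_exponent_le (by norm_num) (by linarith)
              _ = 3 := Real.rpow_one _)
    · refine otr_mono key ?_
      nlinarith
    · exact (Real.rpow_le_rpow_of_exponent_le hXR (by linarith)).trans hp1
    · exact hp2.trans (Real.rpow_le_rpow_of_exponent_le hXR (by linarith))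

end Pool.Agent.K3h65.LP
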