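import Pool.Agent.K3h65.LP.Hgt

/-!
# The law of the heights and their truncated averages in thin sets
-/

set_option autoImplicit false

namespace Pool.Agent.K3h65.LP

open Finset Filter Topology
open Pool.Agent.Y965.PS (Tz ac)
open Pool.Agent.Y965.PL
open Pool.Agent.H499R2.HL (H H_unique)
open Pool.Agent.H499R2.LT (odn)
open Pool.Agent.H499R2.ND (IsHt Dn)
open Pool.Agent.Results.MP_2b866c_nt

/-- the odd part of a sum -/
theorem odd_split (f : ℕ → ℝ) (X : ℕ) : ∑ n ∈ (Icc 1 X).filter (fun n => n % 2 = 1), f n =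
    ∑ n ∈ Icc 1 X, f n - ∑ m ∈ Icc 1 (X / 2), f (2 * m) := by
  induction X with
  | zero => simp
  | succ X ih =>
    rw [sum_filter] at ih ⊢
    rw [Finset.sum_Icc_succ_top (by omega), Finset.sum_Icc_succ_top (by omega), ih]
    rcases Nat.mod_two_eq_zero_or_one (X + 1) with h | h
    · have e1 : (X + 1) / 2 = X / 2 + 1 := by omega
      have e2 : 2 * (X / 2 + 1) = X + 1 := by omega
      rw [if_neg (by omega), e1, Finset.sum_Icc_succ_top (by omega), e2]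
      ring
    · have e1 : (X + 1) / 2 = X / 2 := by omega
      rw [if_pos h, e1]
      ring

/-- the weight `w` of mean `p` on the odd integers is orthogonal to the functions of the height -/
def OTr (X : ℕ) (w : ℕ → ℝ) (p E : ℝ) : Prop :=
  ∀ φ : ℕ∞ → ℝ, (∀ t, |φ t| ≤ 1) →
    |∑ n ∈ (Icc 1 X).filter (fun n => n % 2 = 1), w n * φ (PiatetskiShapiroHeights.height n) -
      p * ∑ n ∈ (Icc 1 X).filter (fun n => n % 2 = 1), φ (PiatetskiShapiroHeights.height n)| ≤ E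

theorem otr_of {X : ℕ} {w : ℕ → ℝ} {p E1 E2 : ℝ}
    (h1 : ∀ F : ℤ → ℝ, SyncM 2 m31 r31 X F → |∑ n ∈ Icc 1 X, w n * F (1 * (n : ℤ)) - p * ∑ n ∈ Icc 1 X, F (1 * (n : ℤ))| ≤ E1)
    (h2 : ∀ F : ℤ → ℝ, SyncM 2 m31 r31 (X / 2) F →
      |∑ n ∈ Icc 1 (X / 2), w (2 * n) * F (1 * (n : ℤ)) - p * ∑ n ∈ Icc 1 (X / 2), F (1 * (n : ℤ))| ≤ E2) :
    OTr X w p (E1 + E2) := by
  intro φ hφ
  set G : ℕ → ℝ := fun n => Fg (fun _ o => φ ((max o 1 : ℕ) : ℕ∞)) (φ ⊤) n with hG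
  have hG2 : ∀ n, G (2 * n) = G n := fun n => Fg_two (g := fun o => φ ((max o 1 : ℕ) : ℕ∞)) n
  have hGh : ∀ n, n % 2 = 1 → φ (PiatetskiShapiroHeights.height n) = G n := by
    intro n hn
    by_cases h : ∃ k, H k n
    · obtain ⟨k, hk⟩ := h
      rw [PiatetskiShapiroHeights.height_H hn hk]
      rw [hG]
      dsimp only
      rw [Fg_H hk]
    · rw [PiatetskiShapiroHeights.height_not hn h, hG]
      dsimp only
      rw [Fg_not h]
  have hS : ∀ N : ℕ, SyncM 2 m31 r31 N (fun z => G z.toNat) := fun N =>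
    syncM_Fg (g := fun _ o => φ ((max o 1 : ℕ) : ℕ∞)) (g0 := φ ⊤) (fun _ _ => hφ _) (hφ _) N
  have e1 : ∑ n ∈ (Icc 1 X).filter (fun n => n % 2 = 1), w n * φ (PiatetskiShapiroHeights.height n) =
      ∑ n ∈ (Icc 1 X).filter (fun n => n % 2 = 1), w n * G n := by
    apply sum_congr rfl
    intro n hn
    rw [hGh n (mem_filter.1 hn).2]
  have e2 : ∑ n ∈ (Icc 1 X).filter (fun n => n % 2 = 1), φ (PiatetskiShapiroHeights.height n) =
      ∑ n ∈ (Icc 1 X).filter (fun n => n % 2 = 1), G n := by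
    apply sum_congr rfl
    intro n hn
    rw [hGh n (mem_filter.1 hn).2]
  rw [e1, e2, odd_split, odd_split]
  have a1 := h1 _ (hS X)
  have a2 := h2 _ (hS (X / 2))
  simp only [one_mul, Int.toNat_natCast] at a1 a2
  simp only [hG2]
  have e3 : ∑ n ∈ Icc 1 X, w n * G n - ∑ m ∈ Icc 1 (X / 2), w (2 * m) * G m -
      p * (∑ n ∈ Icc 1 X, G n - ∑ m ∈ Icc 1 (X / 2), G m) =
      (∑ n ∈ Icc 1 X, w n * G n - p * ∑ n ∈ Icc 1 X, G n) -
      (∑ m ∈ Icc 1 (X / 2), w (2 * m) * G m - p * ∑ m ∈ Icc 1 (X / 2), G m) := by ring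
  rw [e3]
  exact (abs_sub _ _).trans (add_le_add a1 a2)

/-- laws with a threshold at `N` instead of `n` -/
theorem law_at {E : ℕ → Prop} {val : ℕ → ℕ → ℝ} {cls : ℕ → ℕ → Prop} {A b : ℝ} (hA : 0 ≤ A) (hb : 0 < b)
    {dd : ℝ → ℝ} (hd : Continuous dd)
    (hlaw : ∀ x, Mn (ind (fun n => E n ∧ Lv val cls (th A b x) n)) (dd x)) (x : ℝ) {ε : ℝ} (hε : 0 < ε) :
    ∀ᶠ N : ℕ in atTop, |∑ n ∈ Icc 1 N, ind (fun n => E n ∧ Lv val cls (fun _ => th A b x N) n) n - dd x * N| ≤ ε * N := by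
  obtain ⟨r, hr, hr'⟩ := Metric.continuousAt_iff.1 (hd.continuousAt (x := x)) (ε / 4) (by positivity)
  set θ : ℝ := r / 2 with hθ
  have hθ0 : 0 < θ := by positivity
  have d1 := hr' (x := x + θ) (by rw [Real.dist_eq, add_sub_cancel_left, abs_of_pos (by positivity)]; linarith)
  have d2 := hr' (x := x - θ) (by
    rw [Real.dist_eq, sub_sub_cancel_left, abs_neg, abs_of_pos (by positivity)]; linarith)
  rw [Real.dist_eq, abs_lt] at d1 d2
  have hev : ∀ y : ℝ, ∀ᶠ N : ℕ in atTop,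
      |∑ n ∈ Icc 1 N, ind (fun n => E n ∧ Lv val cls (th A b y) n) n - dd y * N| ≤ ε / 4 * N := by
    intro y
    have := (show MnS (fun n => n) (ind (fun n => E n ∧ Lv val cls (th A b y) n)) (dd y) from hlaw y)
    exact this.ev (by positivity)
  set κ : ℝ := ε / 4 with hκ
  have hκ0 : 0 < κ := by positivity
  filter_upwards [hev (x + θ), hev (x - θ), th_cmp hA hb (show x - θ < x by linarith) hκ0,
    th_cmp hA hb (show x < x + θ by linarith) hκ0] with N a1 a2 c1 c2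
  have hN0 : (0 : ℝ) ≤ N := Nat.cast_nonneg _
  -- the small integers
  have hsmall : ∑ n ∈ Icc 1 N, (if (n : ℝ) ≤ κ * N then (1 : ℝ) else 0) ≤ κ * N := by
    rw [← sum_filter, sum_const, nsmul_eq_mul, mul_one]
    have h2 : (Icc 1 N).filter (fun n : ℕ => (n : ℝ) ≤ κ * N) ⊆ Icc 1 ⌊κ * N⌋₊ := by
      intro n hn
      rw [mem_filter, mem_Icc] at hn
      rw [mem_Icc]
      exact ⟨hn.1.1, Nat.le_floor hn.2⟩
    have h3 := card_le_card h2
    rw [Nat.card_Icc, Nat.add_sub_cancel] at h3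
    have h4 : (((Icc 1 N).filter (fun n : ℕ => (n : ℝ) ≤ κ * N)).card : ℝ) ≤ ⌊κ * N⌋₊ := by exact_mod_cast h3
    exact h4.trans (Nat.floor_le (by positivity))
  have up : ∑ n ∈ Icc 1 N, ind (fun n => E n ∧ Lv val cls (fun _ => th A b x N) n) n ≤
      ∑ n ∈ Icc 1 N, ind (fun n => E n ∧ Lv val cls (th A b (x + θ)) n) n + κ * N := by
    refine le_trans ?_ (add_le_add le_rfl hsmall)
    rw [← sum_add_distrib]
    refine sum_le_sum fun n hn => ?_
    rw [mem_Icc] at hn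
    by_cases hs : (n : ℝ) ≤ κ * N
    · rw [if_pos hs]
      have g1 := ind_le_one (fun n => E n ∧ Lv val cls (fun _ => th A b x N) n) n
      have g2 := ind_nonneg (fun n => E n ∧ Lv val cls (th A b (x + θ)) n) n
      linarith
    · rw [if_neg hs, add_zero]
      push Not at hs
      apply ind_mono
      rintro ⟨g0, k, g1, g2, g3⟩
      exact ⟨g0, k, g1, g2.trans (c2 n hs hn.2).2, g3⟩
  have lo : ∑ n ∈ Icc 1 N, ind (fun n => E n ∧ Lv val cls (th A b (x - θ)) n) n ≤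
      ∑ n ∈ Icc 1 N, ind (fun n => E n ∧ Lv val cls (fun _ => th A b x N) n) n + κ * N := by
    refine le_trans ?_ (add_le_add le_rfl hsmall)
    rw [← sum_add_distrib]
    refine sum_le_sum fun n hn => ?_
    rw [mem_Icc] at hn
    by_cases hs : (n : ℝ) ≤ κ * N
    · rw [if_pos hs]
      have g1 := ind_le_one (fun n => E n ∧ Lv val cls (th A b (x - θ)) n) n
      have g2 := ind_nonneg (fun n => E n ∧ Lv val cls (fun _ => th A b x N) n) n
      linarith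
    · rw [if_neg hs, add_zero]
      push Not at hs
      apply ind_mono
      rintro ⟨g0, k, g1, g2, g3⟩
      exact ⟨g0, k, g1, g2.trans (c1 n hs hn.2).1, g3⟩
  rw [abs_le] at a1 a2 ⊢
  constructor <;> nlinarith

/-- `2 / log (16/9) * log X + x * log 2 * √(2 log X / (log (4/3))^3)` -/
noncomputable def bd (x : ℝ) (X : ℕ) : ℝ := th (1 / Real.log (4 / 3)) bO x X

theorem bound_bd (x : ℝ) (X : ℕ) : PiatetskiShapiroHeights.bound x X = bd x X := by
  unfold bd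
  rw [bo_th, PiatetskiShapiroHeights.bound_eq]

theorem lvl_iff (q : ℕ) (b : ℤ) (T : ℝ) {m : ℕ} (hm : m % 2 = 1) :
    (∃ h : ℕ, PiatetskiShapiroHeights.height m = h ∧ (h : ℝ) ≤ T ∧ (h : ℤ) ≡ b [ZMOD q]) ↔
      Lv valH (clsH q b) (fun _ => T) m := by
  unfold Lv valH clsH
  constructor
  · rintro ⟨h, h1, h2, h3⟩
    rw [PiatetskiShapiroHeights.height_iff] at h1
    obtain ⟨k, hk, rfl⟩ := (ht_max hm h).1 h1
    exact ⟨k, hk, h2, h3⟩
  · rintro ⟨k, hk, h2, h3⟩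
    refine ⟨_, ?_, h2, h3⟩
    rw [PiatetskiShapiroHeights.height_iff]
    exact (ht_max hm _).2 ⟨k, hk, rfl⟩

open Classical in
/-- the heights at most `T` and congruent to `b` modulo `q` -/
noncomputable def phL (q : ℕ) (b : ℤ) (T : ℝ) (t : ℕ∞) : ℝ :=
  if ∃ h : ℕ, t = h ∧ (h : ℝ) ≤ T ∧ (h : ℤ) ≡ b [ZMOD q] then 1 else 0

theorem phL_abs (q : ℕ) (b : ℤ) (T : ℝ) (t : ℕ∞) : |phL q b T t| ≤ 1 := by
  unfold phL
  split_ifs <;> simp

/-- the law of the heights of all odd integers, with a threshold at `N` -/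
theorem nat_law {δ : ℝ} (hδ : Nat3 δ) {q : ℕ} (hq : 1 ≤ q) (b : ℤ) (x : ℝ) {ε : ℝ} (hε : 0 < ε) : ∀ᶠ N : ℕ in atTop,
    |∑ n ∈ (Icc 1 N).filter (fun n => n % 2 = 1), phL q b (bd x N) (PiatetskiShapiroHeights.height n) -
      δ / q * Pool.Agent.H499R2.ND.Phi x / 2 * N| ≤ ε * N := by
  have h1 := law_at (E := fun n => n % 2 = 1) (val := valH) (cls := clsH q b)
    (show 0 ≤ 1 / Real.log (4 / 3) by have := nu_pos'; positivity) bO_pos
    (dd := fun x => δ / q * Pool.Agent.H499R2.ND.Phi x / 2)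
    ((Pool.Agent.H499R2.ND.Phi_continuous.const_mul _).div_const _) (fun y => hδ.law q b hq y) x hε
  filter_upwards [h1] with N h2
  have e : ∑ n ∈ (Icc 1 N).filter (fun n => n % 2 = 1), phL q b (bd x N) (PiatetskiShapiroHeights.height n) =
      ∑ n ∈ Icc 1 N, ind (fun n => n % 2 = 1 ∧ Lv valH (clsH q b) (fun _ => th (1 / Real.log (4 / 3)) bO x N) n) n := by
    rw [sum_filter]
    apply sum_congr rfl
    intro n _
    by_cases hn : n % 2 = 1
    · rw [if_pos hn]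
      unfold phL
      by_cases hL : Lv valH (clsH q b) (fun _ => th (1 / Real.log (4 / 3)) bO x N) n
      · rw [if_pos ((lvl_iff q b (bd x N) hn).2 hL)]
        exact (ind_pos ⟨hn, hL⟩).symm
      · rw [if_neg (fun h => hL ((lvl_iff q b (bd x N) hn).1 h))]
        exact (ind_neg fun h => hL h.2).symm
    · rw [if_neg hn]
      exact (ind_neg fun h => hn h.1).symm
  rw [e]
  exact h2

/-- THE LAW OF THE HEIGHTS IN THIN SETS -/
theorem otr_law {δ : ℝ} (hδ : Nat3 δ) {a : ℝ} (ha : 0 < a) (K : ℝ) {q : ℕ} (hq : 1 ≤ q) (b : ℤ) (x : ℝ) {ε : ℝ}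
    (hε : 0 < ε) : ∃ X0 : ℕ, ∀ X : ℕ, X0 ≤ X → ∀ (w : ℕ → ℝ) (p : ℝ), (X : ℝ) ^ (-a) ≤ p →
      OTr X w p (K * (X : ℝ) ^ (1 - 2 * a)) →
      |∑ n ∈ (Icc 1 X).filter (fun n => n % 2 = 1), w n * phL q b (bd x X) (PiatetskiShapiroHeights.height n) -
        δ * Pool.Agent.H499R2.ND.Phi x / q * (p * X / 2)| ≤ ε * (p * X) := by
  have hlim : Tendsto (fun X : ℕ => K * (X : ℝ) ^ (-a)) atTop (𝓝 0) := by
    have h1 := (tendsto_rpow_neg_atTop ha).comp tendsto_natCast_atTop_atTop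
    have h2 := h1.const_mul K
    rw [mul_zero] at h2
    exact h2
  obtain ⟨X0, hX0⟩ := ((nat_law hδ hq b x (show 0 < ε / 2 by positivity)).and
    ((hlim.eventually (gt_mem_nhds (show (0 : ℝ) < ε / 2 by positivity))).and (eventually_ge_atTop 1))).exists_forall_of_atTop
  refine ⟨X0, fun X hX w p hp hT => ?_⟩
  obtain ⟨g1, g2, g3⟩ := hX0 X hX
  have hX1R : (1 : ℝ) ≤ X := by exact_mod_cast g3
  have hXpos : (0 : ℝ) < X := by linarith
  have hp0 : 0 < p := lt_of_lt_of_le (by positivity) hp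
  have hpX : (X : ℝ) ^ (1 - a) ≤ p * X := by
    calc (X : ℝ) ^ (1 - a) = (X : ℝ) ^ (-a) * X := by rw [sub_eq_neg_add, Real.rpow_add hXpos, Real.rpow_one]
      _ ≤ p * X := mul_le_mul_of_nonneg_right hp hXpos.le
  have h1 := hT (phL q b (bd x X)) (phL_abs _ _ _)
  have h4 : K * (X : ℝ) ^ (1 - 2 * a) ≤ ε / 2 * (p * X) := by
    have e1 : (X : ℝ) ^ (1 - 2 * a) = (X : ℝ) ^ (-a) * (X : ℝ) ^ (1 - a) := by
      rw [← Real.rpow_add hXpos]; congr 1; ring
    rw [e1, ← mul_assoc]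
    exact mul_le_mul g2.le hpX (by positivity) (by positivity)
  have h5 : |p * ∑ n ∈ (Icc 1 X).filter (fun n => n % 2 = 1), phL q b (bd x X) (PiatetskiShapiroHeights.height n) -
        δ * Pool.Agent.H499R2.ND.Phi x / q * (p * X / 2)| ≤ ε / 2 * (p * X) := by
    have e1 : p * ∑ n ∈ (Icc 1 X).filter (fun n => n % 2 = 1), phL q b (bd x X) (PiatetskiShapiroHeights.height n) -
        δ * Pool.Agent.H499R2.ND.Phi x / q * (p * X / 2) =
        p * (∑ n ∈ (Icc 1 X).filter (fun n => n % 2 = 1), phL q b (bd x X) (PiatetskiShapiroHeights.height n) -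
        δ / q * Pool.Agent.H499R2.ND.Phi x / 2 * X) := by ring
    rw [e1, abs_mul, abs_of_pos hp0]
    calc p * _ ≤ p * (ε / 2 * X) := mul_le_mul_of_nonneg_left g1 hp0.le
      _ = ε / 2 * (p * X) := by ring
  have h6 := abs_sub_le (∑ n ∈ (Icc 1 X).filter (fun n => n % 2 = 1), w n * phL q b (bd x X) (PiatetskiShapiroHeights.height n))
    (p * ∑ n ∈ (Icc 1 X).filter (fun n => n % 2 = 1), phL q b (bd x X) (PiatetskiShapiroHeights.height n))
    (δ * Pool.Agent.H499R2.ND.Phi x / q * (p * X / 2))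
  linarith

/-- THE TRUNCATED AVERAGES OF THE HEIGHTS IN THIN SETS -/
theorem otr_avg {M Λ : ℝ} (hΛ : 0 < Λ) (hM : Tendsto (fun N : ℕ =>
      (2 / (N : ℝ) * ∑ m ∈ (Finset.Icc 1 N).filter (fun m => m % 2 = 1),
        (TruncatedAverages.truncHeight m ⌊Λ * Real.log N⌋₊ : ℝ)) / Real.log N) atTop (𝓝 M))
    {a : ℝ} (ha : 0 < a) {K : ℝ} (hK : 0 ≤ K) {ε : ℝ} (hε : 0 < ε) : ∃ X0 : ℕ, ∀ X : ℕ, X0 ≤ X → ∀ (w : ℕ → ℝ) (p : ℝ),
      (X : ℝ) ^ (-a) ≤ p → OTr X w p (K * (X : ℝ) ^ (1 - 2 * a)) →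
      |∑ n ∈ (Icc 1 X).filter (fun n => n % 2 = 1), w n * (TruncatedAverages.truncHeight n ⌊Λ * Real.log X⌋₊ : ℝ) -
        M * (p * X / 2) * Real.log X| ≤ ε * (p * X) * Real.log X := by
  have hlim : Tendsto (fun X : ℕ => Λ * K * (X : ℝ) ^ (-a)) atTop (𝓝 0) := by
    have h1 := (tendsto_rpow_neg_atTop ha).comp tendsto_natCast_atTop_atTop
    have h2 := h1.const_mul (Λ * K)
    rw [mul_zero] at h2
    exact h2
  obtain ⟨X0, hX0⟩ := (((Metric.tendsto_nhds.1 hM) ε hε).and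
    ((hlim.eventually (gt_mem_nhds (show (0 : ℝ) < ε / 2 by positivity))).and
    ((tlog.eventually_ge_atTop (1 / Λ)).and (eventually_ge_atTop 1)))).exists_forall_of_atTop
  refine ⟨X0, fun X hX w p hp hT => ?_⟩
  obtain ⟨g1, g2, g3, g4⟩ := hX0 X hX
  rw [Real.dist_eq] at g1
  have hX1R : (1 : ℝ) ≤ X := by exact_mod_cast g4
  have hXpos : (0 : ℝ) < X := by linarith
  have hp0 : 0 < p := lt_of_lt_of_le (by positivity) hp
  have hpX : (X : ℝ) ^ (1 - a) ≤ p * X := by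
    calc (X : ℝ) ^ (1 - a) = (X : ℝ) ^ (-a) * X := by rw [sub_eq_neg_add, Real.rpow_add hXpos, Real.rpow_one]
      _ ≤ p * X := mul_le_mul_of_nonneg_right hp hXpos.le
  obtain ⟨L, hL⟩ : ∃ L : ℝ, L = Real.log X := ⟨_, rfl⟩
  rw [← hL] at g1 g3 ⊢
  have hL0 : 0 < L := lt_of_lt_of_le (by positivity) g3
  obtain ⟨T, hT'⟩ : ∃ T : ℕ, T = ⌊Λ * L⌋₊ := ⟨_, rfl⟩
  rw [← hT'] at g1 ⊢
  have hT1 : 1 ≤ T := by
    rw [hT']
    apply Nat.floor_pos.2
    rw [div_le_iff₀ hΛ] at g3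
    linarith
  have hT0 : (0 : ℝ) < T := by exact_mod_cast hT1
  have hTL : (T : ℝ) ≤ Λ * L := by rw [hT']; exact Nat.floor_le (by positivity)
  -- the function of the height
  set φ : ℕ∞ → ℝ := fun t => ((min t (T : ℕ∞)).toNat : ℝ) / T with hφ
  have hφ1 : ∀ t, |φ t| ≤ 1 := by
    intro t
    rw [hφ]
    dsimp only
    rw [abs_of_nonneg (by positivity), div_le_one hT0]
    have : (min t (T : ℕ∞)).toNat ≤ T := ENat.toNat_le_of_le_natCast (min_le_right _ _)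
    exact_mod_cast this
  have hφh : ∀ n, (TruncatedAverages.truncHeight n T : ℝ) = T * φ (PiatetskiShapiroHeights.height n) := by
    intro n
    rw [hφ]
    dsimp only
    rw [mul_div_cancel₀ _ hT0.ne']
    rfl
  have h1 := hT φ hφ1
  have e1 : ∑ n ∈ (Icc 1 X).filter (fun n => n % 2 = 1), w n * (TruncatedAverages.truncHeight n T : ℝ) =
      T * ∑ n ∈ (Icc 1 X).filter (fun n => n % 2 = 1), w n * φ (PiatetskiShapiroHeights.height n) := by
    rw [mul_sum]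
    apply sum_congr rfl
    intro n _
    rw [hφh]; ring
  have e2 : ∑ n ∈ (Icc 1 X).filter (fun n => n % 2 = 1), (TruncatedAverages.truncHeight n T : ℝ) =
      T * ∑ n ∈ (Icc 1 X).filter (fun n => n % 2 = 1), φ (PiatetskiShapiroHeights.height n) := by
    rw [mul_sum]
    apply sum_congr rfl
    intro n _
    rw [hφh]
  rw [e2] at g1
  rw [e1]
  set U := ∑ n ∈ (Icc 1 X).filter (fun n => n % 2 = 1), w n * φ (PiatetskiShapiroHeights.height n)
  set V := ∑ n ∈ (Icc 1 X).filter (fun n => n % 2 = 1), φ (PiatetskiShapiroHeights.height n)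
  have h4 : T * (K * (X : ℝ) ^ (1 - 2 * a)) ≤ ε / 2 * (p * X) * L := by
    have e1 : (X : ℝ) ^ (1 - 2 * a) = (X : ℝ) ^ (-a) * (X : ℝ) ^ (1 - a) := by
      rw [← Real.rpow_add hXpos]; congr 1; ring
    calc T * (K * (X : ℝ) ^ (1 - 2 * a)) ≤ (Λ * L) * (K * (X : ℝ) ^ (1 - 2 * a)) :=
          mul_le_mul_of_nonneg_right hTL (by positivity)
      _ = (Λ * K * (X : ℝ) ^ (-a)) * (X : ℝ) ^ (1 - a) * L := by rw [e1]; ring
      _ ≤ ε / 2 * (p * X) * L := by
          apply mul_le_mul_of_nonneg_right _ hL0.le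
          exact mul_le_mul g2.le hpX (by positivity) (by positivity)
  have h5 : |T * V - M * (X / 2) * L| ≤ ε / 2 * X * L := by
    have e3 : T * V - M * (X / 2) * L = (2 / (X : ℝ) * (T * V) / L - M) * (X * L / 2) := by
      field_simp
    rw [e3, abs_mul, abs_of_pos (by positivity : 0 < (X : ℝ) * L / 2)]
    calc |2 / (X : ℝ) * (T * V) / L - M| * (X * L / 2) ≤ ε * (X * L / 2) :=
          mul_le_mul_of_nonneg_right g1.le (by positivity)
      _ = ε / 2 * X * L := by ring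
  have e4 : T * U - M * (p * X / 2) * L = T * (U - p * V) + p * (T * V - M * (X / 2) * L) := by ring
  rw [e4]
  refine (abs_add_le _ _).trans ?_
  rw [abs_mul, abs_mul, abs_of_pos hT0, abs_of_pos hp0]
  have h6 := mul_le_mul_of_nonneg_left h1 hT0.le
  have h7 := mul_le_mul_of_nonneg_left h5 hp0.le
  have e5 : ε * (p * X) * L = ε / 2 * (p * X) * L + p * (ε / 2 * X * L) := by ring
  rw [e5]
  linarith

/-- the density and the laws -/
theorem hgt_all : ∃ δ : ℝ, Nat3 δ ∧ (δ = 1 ↔ ∀ m : ℕ, Odd m → PiatetskiShapiroHeights.height m ≠ ⊤) ∧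
    PiatetskiShapiroHeights.HasOddDensity (fun m => PiatetskiShapiroHeights.height m ≠ ⊤) δ ∧
    ∀ Λ : ℝ, 2 / Real.log (16 / 9) < Λ → Tendsto (fun N : ℕ =>
      (2 / (N : ℝ) * ∑ m ∈ (Finset.Icc 1 N).filter (fun m => m % 2 = 1),
        (TruncatedAverages.truncHeight m ⌊Λ * Real.log N⌋₊ : ℝ)) / Real.log N) atTop
      (𝓝 (δ * (2 / Real.log (16 / 9)) + (1 - δ) * Λ)) := by
  obtain ⟨δ, hδ, h2, h3⟩ := nat3
  obtain ⟨δ', -, -, -, h4, -, h5⟩ := TruncatedAverages.result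
  have hden : PiatetskiShapiroHeights.HasOddDensity (fun m => PiatetskiShapiroHeights.height m ≠ ⊤) δ := by
    apply PiatetskiShapiroHeights.odd_density_of
    refine Pool.Agent.H499R2.LT.Dn_iff (fun n _ => ?_) h3
    rw [PiatetskiShapiroHeights.height_lt_top_iff]
  have he : δ' = δ := tendsto_nhds_unique h4 hden
  subst he
  refine ⟨δ', hδ, ?_, hden, h5⟩
  rw [h2]
  refine forall₂_congr fun n _ => ?_
  rw [PiatetskiShapiroHeights.height_lt_top_iff]

end Pool.Agent.K3h65.LP
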