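import Pool.Agent.Results.MP_39d40e_nt.PiatetskiShapiroTerms
import Pool.Agent.K3h65.LP.Sparse

/-!
# The natural densities of the invariant sets of a generalised Collatz map of coprime type, uniformly
-/

set_option autoImplicit false

namespace Pool.Agent.K3h65.LP

open Finset Filter Topology
open Pool.Agent.Results.MP_39d40e_nt

variable {d : ℕ} {m r : ℕ → ℤ}

/-- all invariant sets have natural densities -/
theorem dens_of (h : PiatetskiShapiroTerms.Coprime d m r) (hne : ∃ i < d, ∃ j < d, |m i| ≠ |m j|)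
    {σ : ℤ} (hσ : σ = 1 ∨ σ = -1) (S : Set ℤ) (hS : Pool.Agent.Y965.GP.InvT (PiatetskiShapiroTerms.T d m r) S) :
    ∃ δ : ℝ, Pool.Agent.Y965.GP.DSs σ S δ := by
  obtain ⟨hd, hm, hr, hL, -⟩ := h
  obtain ⟨r1, -, -⟩ := NaturalDensities.result d hd m r hm hr hL hne
  obtain ⟨p, q, hp, hq, -⟩ := r1 S hS
  rcases hσ with rfl | rfl
  · exact ⟨p, (PiatetskiShapiroTerms.DSs_iff (Or.inl rfl) S p).2 hp⟩
  · exact ⟨q, (PiatetskiShapiroTerms.DSs_iff (Or.inr rfl) S q).2 hq⟩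

/-- uniformly in the invariant set -/
theorem nat_of (h : PiatetskiShapiroTerms.Coprime d m r) (hne : ∃ i < d, ∃ j < d, |m i| ≠ |m j|)
    {σ : ℤ} (hσ : σ = 1 ∨ σ = -1) (ε : ℝ) (hε : 0 < ε) : ∃ N0 : ℕ, ∀ N : ℕ, N0 ≤ N → ∀ S : Set ℤ,
      Pool.Agent.Y965.GP.InvT (PiatetskiShapiroTerms.T d m r) S → ∀ δ : ℝ, Pool.Agent.Y965.GP.DSs σ S δ →
      |(∑ x ∈ Icc 1 N, Pool.Agent.Y965.GP.ind S (σ * (x : ℤ))) / N - δ| ≤ ε := by
  have hA := PiatetskiShapiroTerms.adm_of h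
  refine Pool.Agent.Y965.GP.unif_nat (dens_of h hne hσ) ?_ hε
  intro ε hε
  obtain ⟨C, hC, hmn⟩ := Pool.Agent.H319R3.GC.main hA 1
  obtain ⟨y, hy⟩ := ((Real.tendsto_log_atTop.comp tendsto_natCast_atTop_atTop).eventually
    (eventually_ge_atTop (C / ε))).exists_forall_of_atTop
  refine ⟨max y 2, fun N hN => ?_⟩
  have hNR : (1 : ℝ) ≤ N := by exact_mod_cast hN
  have hy2 : (2 : ℝ) ≤ ((max y 2 : ℕ) : ℝ) := by exact_mod_cast le_max_right y 2
  have hl : C / ε ≤ Real.log ((max y 2 : ℕ) : ℝ) := hy _ (le_max_left _ _)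
  have hl0 : 0 < Real.log ((max y 2 : ℕ) : ℝ) := Real.log_pos (by linarith)
  refine (Pool.Agent.Y965.GP.sum_ind_le hσ _ N).trans ((hmn N _ hNR hy2).trans ?_)
  rw [pow_one, div_le_iff₀ hl0]
  rw [div_le_iff₀ hε] at hl
  calc C * N ≤ Real.log ((max y 2 : ℕ) : ℝ) * ε * N := mul_le_mul_of_nonneg_right hl (by linarith)
    _ = ε * N * Real.log ((max y 2 : ℕ) : ℝ) := by ring

end Pool.Agent.K3h65.LP
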