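import Pool.Agent.K3h65.LP.Def

/-!
# A criterion of orthogonality to the functions that are constant on coalescing trajectories

`T` is a generalised Collatz map of coprime type with `∏ |m_i / d| < 1`. A bounded function `F` which has the
same value at integers whose trajectories are at the same point at the same time is orthogonal, with a power
saving, to all bounded functions `z` with small correlations along the progressions modulo small powers of `d`.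
-/

set_option autoImplicit false

namespace Pool.Agent.K3h65.LP

open Finset Pool.Agent.H319R3.GC Pool.Agent.Y965.PS Pool.Agent.Y965.GP

variable {d : ℕ} {m r : ℕ → ℤ}

theorem orth (h : Adm d m r) {θ : ℝ} (hθ : 0 < θ) (hθ1 : θ ≤ 1 / 16) : ∃ C c : ℝ, 1 ≤ C ∧ 0 < c ∧ c < 1 ∧
    ∀ s : ℤ, (s = 1 ∨ s = -1) → ∀ N : ℕ, 1 ≤ N → ∀ F : ℤ → ℝ, SyncM d m r N F → ∀ z : ℕ → ℂ, (∀ n, ‖z n‖ ≤ 1) →
    (∀ k u n0 J : ℕ, (d : ℝ) ^ k ≤ (N : ℝ) ^ θ → 1 ≤ u → (u : ℝ) ≤ 2 * (N : ℝ) ^ (2 * θ) →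
      (∀ j < J, n0 + d ^ k * j + u ≤ N) →
      ‖∑ j ∈ range J, z (n0 + d ^ k * j) * (starRingEnd ℂ) (z (n0 + d ^ k * j + u))‖ ≤ (N : ℝ) ^ (1 - 4 * θ)) →
    ‖∑ n ∈ Icc 1 N, (F (s * (n : ℤ)) : ℂ) * z n‖ ≤ C * (N : ℝ) ^ (1 - c) := by
  classical
  obtain ⟨σ, ρ, C0, lam, hσ0, hσ1, hρ0, hρσ, hC0, hl0, hl1, hkd⟩ := kd h
  have hd2 := h.two_le
  have hdR : (2 : ℝ) ≤ d := by exact_mod_cast hd2
  have hd0 : (0 : ℝ) < d := by linarith
  set ℓ := Real.log d with hℓ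
  have hℓ0 : 0 < ℓ := Real.log_pos (by linarith)
  set τ := θ / ℓ with hτ
  have hτ0 : 0 < τ := by positivity
  have hlσ : 0 < -Real.log σ := by have := Real.log_neg hσ0 hσ1; linarith
  set b1 := τ * (-Real.log σ) with hb1
  have hb10 : 0 < b1 := mul_pos hτ0 hlσ
  set b := min b1 (θ * lam) with hb
  have hb0 : 0 < b := lt_min hb10 (by positivity)
  have hbb1 : b ≤ b1 := min_le_left _ _
  have hbl : b ≤ θ * lam := min_le_right _ _
  have hb16 : b ≤ 1 / 16 := by nlinarith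
  set C3 := τ * (4 * d / b) + 1 with hC3
  have hC31 : 1 ≤ C3 := by
    rw [hC3]
    have : 0 ≤ τ * (4 * d / b) := by positivity
    linarith
  set C4 := (2 / σ + 3) * C3 ^ d with hC4
  have h3d : 1 ≤ C3 ^ d := one_le_pow₀ hC31
  have hC41 : 1 ≤ C4 := by
    have : 0 < 2 / σ := by positivity
    rw [hC4]
    nlinarith
  set C5 := 2 * (1 / σ + C0) with hC5
  have hC51 : 1 ≤ C5 := by
    have : 1 ≤ 1 / σ := by rw [le_div_iff₀ hσ0]; linarith
    rw [hC5]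
    linarith
  refine ⟨5 * C4 + C5 + 3, b / 4, by linarith, by positivity, by linarith, ?_⟩
  intro s hs N hN F hF z hz1 hz
  have hNpos : (0 : ℝ) < N := by exact_mod_cast hN
  have hN1R : (1 : ℝ) ≤ N := by exact_mod_cast hN
  set L := Real.log N with hL
  have hL0 : 0 ≤ L := Real.log_natCast_nonneg N
  have hexp : Real.exp L = N := Real.exp_log hNpos
  have hpow : ∀ t : ℝ, (N : ℝ) ^ t = Real.exp (t * L) := by
    intro t
    rw [← hexp, ← Real.exp_mul]; congr 1; ring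
  set k := ⌊τ * L⌋₊ with hk
  have hk1 : (k : ℝ) ≤ τ * L := Nat.floor_le (by positivity)
  have hk2 : τ * L < k + 1 := Nat.lt_floor_add_one _
  set R := (N : ℝ) ^ θ with hR
  have hR1 : 1 ≤ R := Real.one_le_rpow hN1R hθ.le
  have hdk : (d : ℝ) ^ k ≤ (N : ℝ) ^ θ := by
    have h1 : (d : ℝ) ^ k = Real.exp (k * ℓ) := by rw [Real.exp_nat_mul, hℓ, Real.exp_log hd0]
    rw [h1, hpow]
    apply Real.exp_le_exp.2
    have h2 : (k : ℝ) * ℓ ≤ τ * L * ℓ := mul_le_mul_of_nonneg_right hk1 hℓ0.le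
    have h3 : τ * L * ℓ = θ * L := by rw [hτ]; field_simp
    linarith
  have hdkN : d ^ k ≤ N := by
    have h1 : ((d : ℝ) ^ k) ≤ N := by
      refine hdk.trans ?_
      calc (N : ℝ) ^ θ ≤ (N : ℝ) ^ (1 : ℝ) := Real.rpow_le_rpow_of_exponent_le hN1R (by linarith)
        _ = N := Real.rpow_one _
    exact_mod_cast h1
  have K := hkd s hs k N R hdkN hR1
  have hσk : σ ^ k ≤ 1 / σ * (N : ℝ) ^ (-b) := by
    have h1 : σ ^ (k + 1) ≤ (N : ℝ) ^ (-b) := by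
      have h2 : σ ^ (k + 1) = Real.exp ((k + 1 : ℕ) * Real.log σ) := by rw [Real.exp_nat_mul, Real.exp_log hσ0]
      rw [h2, hpow]
      apply Real.exp_le_exp.2
      push_cast
      have h3 : ((k : ℝ) + 1) * (-Real.log σ) ≥ τ * L * (-Real.log σ) := mul_le_mul_of_nonneg_right hk2.le hlσ.le
      have h4 : τ * L * (-Real.log σ) = b1 * L := by rw [hb1]; ring
      have h5 : b * L ≤ b1 * L := mul_le_mul_of_nonneg_right hbb1 hL0
      linarith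
    rw [pow_succ] at h1
    rw [one_div, inv_mul_eq_div, le_div_iff₀ hσ0]
    exact h1
  have hNb : (N : ℝ) * (N : ℝ) ^ (-b) = (N : ℝ) ^ (1 - b) := by
    calc (N : ℝ) * (N : ℝ) ^ (-b) = (N : ℝ) ^ (1 : ℝ) * (N : ℝ) ^ (-b) := by rw [Real.rpow_one]
      _ = _ := by rw [← Real.rpow_add hNpos]; congr 1
  have hRb : R ≤ (N : ℝ) ^ (1 - b) := Real.rpow_le_rpow_of_exponent_le hN1R (by linarith)
  have h1b : 1 ≤ (N : ℝ) ^ (1 - b) := Real.one_le_rpow hN1R (by linarith)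
  -- the number of keys
  have hV : (2 * (N * σ ^ k + R) + 1) * ((k : ℝ) + 1) ^ d ≤ C4 * (N : ℝ) ^ (1 - 3 / 4 * b) := by
    have g1 : (2 * (N * σ ^ k + R) + 1) ≤ (2 / σ + 3) * (N : ℝ) ^ (1 - b) := by
      have g2 : N * σ ^ k ≤ 1 / σ * (N : ℝ) ^ (1 - b) := by
        rw [← hNb]
        calc N * σ ^ k ≤ N * (1 / σ * (N : ℝ) ^ (-b)) := mul_le_mul_of_nonneg_left hσk hNpos.le
          _ = _ := by ring
      have g3 : (2 / σ + 3) * (N : ℝ) ^ (1 - b) = 2 * (1 / σ * (N : ℝ) ^ (1 - b)) + 3 * (N : ℝ) ^ (1 - b) := by ring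
      linarith
    have g4 : ((k : ℝ) + 1) ^ d ≤ C3 ^ d * (N : ℝ) ^ (b / 4) := by
      have g5 : (k : ℝ) + 1 ≤ C3 * (N : ℝ) ^ (b / (4 * d)) := by
        have g6 := log_le (s := b / (4 * d)) (by positivity) hN
        rw [← hL] at g6
        have g7 : 1 / (b / (4 * (d : ℝ))) = 4 * d / b := by field_simp
        rw [g7] at g6
        have g8 : 1 ≤ (N : ℝ) ^ (b / (4 * d)) := Real.one_le_rpow hN1R (by positivity)
        have g9 : τ * L ≤ τ * (4 * d / b * (N : ℝ) ^ (b / (4 * d))) := mul_le_mul_of_nonneg_left g6 hτ0.le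
        have g10 : C3 * (N : ℝ) ^ (b / (4 * d)) = τ * (4 * d / b * (N : ℝ) ^ (b / (4 * d))) + (N : ℝ) ^ (b / (4 * d)) := by
          rw [hC3]; ring
        linarith
      calc ((k : ℝ) + 1) ^ d ≤ (C3 * (N : ℝ) ^ (b / (4 * d))) ^ d := pow_le_pow_left₀ (by positivity) g5 d
        _ = C3 ^ d * (N : ℝ) ^ (b / 4) := by
            rw [mul_pow, ← Real.rpow_natCast ((N : ℝ) ^ (b / (4 * d))), ← Real.rpow_mul hNpos.le]
            congr 2
            field_simp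
    calc (2 * (N * σ ^ k + R) + 1) * ((k : ℝ) + 1) ^ d
        ≤ ((2 / σ + 3) * (N : ℝ) ^ (1 - b)) * (C3 ^ d * (N : ℝ) ^ (b / 4)) :=
          mul_le_mul g1 g4 (by positivity) (by positivity)
      _ = C4 * ((N : ℝ) ^ (1 - b) * (N : ℝ) ^ (b / 4)) := by rw [hC4]; ring
      _ = C4 * (N : ℝ) ^ (1 - 3 / 4 * b) := by
          rw [← Real.rpow_add hNpos]
          congr 2
          ring
  -- the bad integers
  have hB : 2 * N * (σ ^ k + C0 * R ^ (-lam)) ≤ C5 * (N : ℝ) ^ (1 - b) := by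
    have g1 : R ^ (-lam) ≤ (N : ℝ) ^ (-b) := by
      rw [hR, ← Real.rpow_mul hNpos.le]
      apply Real.rpow_le_rpow_of_exponent_le hN1R
      linarith
    have g2 : σ ^ k + C0 * R ^ (-lam) ≤ (1 / σ + C0) * (N : ℝ) ^ (-b) := by
      rw [add_mul]
      exact add_le_add hσk (mul_le_mul_of_nonneg_left g1 hC0)
    calc 2 * N * (σ ^ k + C0 * R ^ (-lam)) ≤ 2 * N * ((1 / σ + C0) * (N : ℝ) ^ (-b)) :=
          mul_le_mul_of_nonneg_left g2 (by positivity)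
      _ = C5 * (N * (N : ℝ) ^ (-b)) := by rw [hC5]; ring
      _ = C5 * (N : ℝ) ^ (1 - b) := by rw [hNb]
  have habs : ∀ n : ℕ, |((s * (n : ℤ) : ℤ) : ℝ)| = n := by
    intro n
    push_cast
    rw [abs_mul, Nat.abs_cast]
    rcases hs with rfl | rfl <;> simp
  -- the dispersion inequality
  set N1 := ⌊(N : ℝ) ^ (1 / 2 : ℝ)⌋₊ with hN1
  have hlt : ∀ n : ℕ, N1 < n → (N : ℝ) ^ (1 / 2 : ℝ) < n := fun n hn => (Nat.floor_lt (by positivity)).1 hn
  have hdk16 : (d : ℝ) ^ k ≤ (N : ℝ) ^ (1 / 16 : ℝ) :=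
    hdk.trans (Real.rpow_le_rpow_of_exponent_le hN1R hθ1)
  have hdisp := disp K N1 (F := fun n : ℕ => F (s * (n : ℤ))) (fun n => hF.1 _)
    (fun n n' hn hn' _ _ hkk => by
      unfold key at hkk
      rw [Prod.mk.injEq] at hkk
      refine hF.2 k _ _ hdk16 ?_ ?_ hkk.1 hkk.2
      · rw [habs n]; exact hlt n hn
      · rw [habs n']; exact hlt n' hn')
    hz1 (β := fun _ => (N : ℝ) ^ (1 - 4 * θ)) (fun _ => by positivity)
    (fun u hu1 hu2 n0 J _ hJ => by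
      refine hz k u n0 J hdk hu1 ?_ hJ
      refine hu2.trans ?_
      have e1 : (N : ℝ) ^ (2 * θ) = (N : ℝ) ^ θ * (N : ℝ) ^ θ := by
        rw [← Real.rpow_add hNpos]; congr 1; ring
      rw [e1, hR]
      have := mul_le_mul_of_nonneg_left hdk (show (0 : ℝ) ≤ 2 * (N : ℝ) ^ θ by positivity)
      linarith)
  have hGS : ‖∑ n ∈ GS (Gd d m r ρ R s k) N1 N, (F (s * (n : ℤ)) : ℂ) * z n‖ ≤ 5 * C4 * (N : ℝ) ^ (1 - b / 4) := by
    have g0 : (0 : ℝ) ≤ (2 * (N * σ ^ k + R) + 1) * ((k : ℝ) + 1) ^ d := by positivity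
    have g1 : (N : ℝ) + 2 * ((d ^ k : ℕ) * ∑ _h ∈ Icc 1 ⌊2 * R * (d : ℝ) ^ k⌋₊, (N : ℝ) ^ (1 - 4 * θ)) ≤ 5 * N := by
      rw [sum_const, Nat.card_Icc, Nat.add_sub_cancel, nsmul_eq_mul]
      have g2 : ((⌊2 * R * (d : ℝ) ^ k⌋₊ : ℕ) : ℝ) ≤ 2 * R * (d : ℝ) ^ k := Nat.floor_le (by positivity)
      have g3 : ((d ^ k : ℕ) : ℝ) * (((⌊2 * R * (d : ℝ) ^ k⌋₊ : ℕ) : ℝ) * (N : ℝ) ^ (1 - 4 * θ)) ≤
          (N : ℝ) ^ θ * (2 * (N : ℝ) ^ θ * (N : ℝ) ^ θ * (N : ℝ) ^ (1 - 4 * θ)) := by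
        push_cast
        gcongr
        refine g2.trans ?_
        rw [hR]
        gcongr
      have g4 : (N : ℝ) ^ θ * (2 * (N : ℝ) ^ θ * (N : ℝ) ^ θ * (N : ℝ) ^ (1 - 4 * θ)) = 2 * (N : ℝ) ^ (1 - θ) := by
        have : (N : ℝ) ^ (1 - θ) = (N : ℝ) ^ θ * (N : ℝ) ^ θ * (N : ℝ) ^ θ * (N : ℝ) ^ (1 - 4 * θ) := by
          rw [← Real.rpow_add hNpos, ← Real.rpow_add hNpos, ← Real.rpow_add hNpos]
          congr 1; ring
        rw [this]; ring
      have g5 : (N : ℝ) ^ (1 - θ) ≤ N := by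
        calc (N : ℝ) ^ (1 - θ) ≤ (N : ℝ) ^ (1 : ℝ) := Real.rpow_le_rpow_of_exponent_le hN1R (by linarith)
          _ = N := Real.rpow_one _
      rw [g4] at g3
      linarith
    have g6 : ‖∑ n ∈ GS (Gd d m r ρ R s k) N1 N, (F (s * (n : ℤ)) : ℂ) * z n‖ ^ 2 ≤
        (C4 * (N : ℝ) ^ (1 - 3 / 4 * b)) * (5 * N) :=
      hdisp.trans (mul_le_mul hV g1 (by positivity) (by positivity))
    have g7 : (C4 * (N : ℝ) ^ (1 - 3 / 4 * b)) * (5 * N) ≤ (5 * C4 * (N : ℝ) ^ (1 - b / 4)) ^ 2 := by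
      have e1 : ((N : ℝ) ^ (1 - b / 4)) ^ 2 = (N : ℝ) ^ (1 - b / 2) * N := by
        calc ((N : ℝ) ^ (1 - b / 4)) ^ 2 = (N : ℝ) ^ (1 - b / 4) * (N : ℝ) ^ (1 - b / 4) := by ring
          _ = (N : ℝ) ^ ((1 - b / 2) + 1) := by rw [← Real.rpow_add hNpos]; congr 1; ring
          _ = _ := by rw [Real.rpow_add hNpos, Real.rpow_one]
      have e2 : (N : ℝ) ^ (1 - 3 / 4 * b) ≤ (N : ℝ) ^ (1 - b / 2) :=
        Real.rpow_le_rpow_of_exponent_le hN1R (by linarith)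
      rw [mul_pow, e1]
      have e3 : C4 * 5 ≤ (5 * C4) ^ 2 := by nlinarith
      calc (C4 * (N : ℝ) ^ (1 - 3 / 4 * b)) * (5 * N) = (C4 * 5) * ((N : ℝ) ^ (1 - 3 / 4 * b) * N) := by ring
        _ ≤ (5 * C4) ^ 2 * ((N : ℝ) ^ (1 - b / 2) * N) := by gcongr
    exact (abs_le_of_sq_le_sq' (g6.trans g7) (by positivity)).2
  -- the remaining integers
  have hterm : ∀ n : ℕ, ‖(F (s * (n : ℤ)) : ℂ) * z n‖ ≤ 1 := by
    intro n
    rw [norm_mul, Complex.norm_real, Real.norm_eq_abs]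
    have := hF.1 (s * (n : ℤ))
    have h2 := hz1 n
    nlinarith [abs_nonneg (F (s * (n : ℤ))), norm_nonneg (z n)]
  have hsub : GS (Gd d m r ρ R s k) N1 N ⊆ Icc 1 N := by
    intro n hn
    rw [Pool.Agent.Y965.GP.mem_GS] at hn
    rw [mem_Icc]; omega
  rw [← Finset.sum_sdiff hsub]
  refine (norm_add_le _ _).trans ?_
  have hrest : ‖∑ n ∈ Icc 1 N \ GS (Gd d m r ρ R s k) N1 N, (F (s * (n : ℤ)) : ℂ) * z n‖ ≤
      (N : ℝ) ^ (1 / 2 : ℝ) + C5 * (N : ℝ) ^ (1 - b) := by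
    refine (norm_sum_le _ _).trans ((sum_le_sum fun n _ => hterm n).trans ?_)
    rw [sum_const, nsmul_eq_mul, mul_one]
    have h1 : Icc 1 N \ GS (Gd d m r ρ R s k) N1 N ⊆ Icc 1 N1 ∪ (Icc 1 N).filter (fun n => ¬ Gd d m r ρ R s k n) := by
      intro n hn
      rw [mem_sdiff, Pool.Agent.Y965.GP.mem_GS, mem_Icc] at hn
      rw [mem_union, mem_filter, mem_Icc, mem_Icc]
      by_cases hg : Gd d m r ρ R s k n
      · left
        refine ⟨hn.1.1, ?_⟩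
        by_contra hcon
        push Not at hcon
        exact hn.2 ⟨⟨hcon, hn.1.2⟩, hg⟩
      · right; exact ⟨hn.1, hg⟩
    have h2 : ((Icc 1 N \ GS (Gd d m r ρ R s k) N1 N).card : ℝ) ≤
        ((Icc 1 N1).card : ℝ) + (((Icc 1 N).filter (fun n => ¬ Gd d m r ρ R s k n)).card : ℝ) := by
      exact_mod_cast (card_le_card h1).trans (card_union_le _ _)
    refine h2.trans (add_le_add ?_ ?_)
    · rw [Nat.card_Icc, Nat.add_sub_cancel]
      exact Nat.floor_le (by positivity)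
    · refine (K.bad _ ?_).trans hB
      intro n hn
      rw [mem_filter, mem_Icc] at hn
      exact hn
  have e1 : (N : ℝ) ^ (1 / 2 : ℝ) ≤ (N : ℝ) ^ (1 - b / 4) := Real.rpow_le_rpow_of_exponent_le hN1R (by linarith)
  have e2 : (N : ℝ) ^ (1 - b) ≤ (N : ℝ) ^ (1 - b / 4) := Real.rpow_le_rpow_of_exponent_le hN1R (by linarith)
  have e3 : C5 * (N : ℝ) ^ (1 - b) ≤ C5 * (N : ℝ) ^ (1 - b / 4) := mul_le_mul_of_nonneg_left e2 (by linarith)
  have e4 : 0 < (N : ℝ) ^ (1 - b / 4) := by positivity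
  nlinarith [hrest, hGS]

end Pool.Agent.K3h65.LP
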