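import Pool.Agent.K3h65.LP.Abs
import Pool.Agent.TH915.PW.Exp

/-!
# The correlations of `e(β n ^ c)` along progressions

The phases `β (x + D j + u) ^ c - β (x + D j) ^ c`, `j = 0, 1, ...`: the derivative test of order `⌊c⌋`.
-/

set_option autoImplicit false

namespace Pool.Agent.K3h65.LP

open Finset
open Pool.Agent.TH915.PW (Hy exp_bound)
open Pool.Agent.H469R2.NK (Cq Cq_pos)
open Pool.Agent.Y55.DS (e_eq_ee)
open Pool.Agent.Helper602.MK (ee)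
open Pool.Agent.Helper602.MK.N_J5b (ee_add ee_zero ee_conj norm_ee)

/-- the falling factorial `c (c - 1) ... (c - m + 1)` -/
noncomputable def ff (c : ℝ) (m : ℕ) : ℝ := ∏ i ∈ range m, (c - i)

theorem ff_succ (c : ℝ) (m : ℕ) : ff c (m + 1) = ff c m * (c - m) := by
  unfold ff
  rw [prod_range_succ]

theorem ff_pos {c : ℝ} {m : ℕ} (h : (m : ℝ) < c + 1) : 0 < ff c m := by
  unfold ff
  apply prod_pos
  intro i hi
  rw [mem_range] at hi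
  have : (i : ℝ) + 1 ≤ m := by exact_mod_cast hi
  linarith

/-- the derivatives of the phase -/
noncomputable def ph (c x0 D u : ℝ) (m : ℕ) (t : ℝ) : ℝ :=
  D ^ m * ff c m * ((x0 + D * t + u) ^ (c - m) - (x0 + D * t) ^ (c - m))

theorem ph_der {c x0 D u t : ℝ} (m : ℕ) (h1 : 0 < x0 + D * t) (hu : 0 ≤ u) :
    HasDerivAt (ph c x0 D u m) (ph c x0 D u (m + 1) t) t := by
  have e2 : HasDerivAt (fun t : ℝ => x0 + D * t) D t := by
    simpa using ((hasDerivAt_id t).const_mul D).const_add x0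
  have e1 : HasDerivAt (fun t : ℝ => x0 + D * t + u) D t := e2.add_const u
  have e3 := e1.rpow_const (p := c - m) (Or.inl (by linarith : (x0 + D * t + u) ≠ 0))
  have e4 := e2.rpow_const (p := c - m) (Or.inl h1.ne')
  have e5 := (e3.sub e4).const_mul (D ^ m * ff c m)
  have e6 : HasDerivAt (ph c x0 D u m) _ t := e5
  refine e6.congr_deriv ?_
  have e7 : ph c x0 D u (m + 1) t = D ^ (m + 1) * ff c (m + 1) *
      ((x0 + D * t + u) ^ (c - ((m + 1 : ℕ) : ℝ)) - (x0 + D * t) ^ (c - ((m + 1 : ℕ) : ℝ))) := rfl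
  rw [e7, ff_succ, pow_succ]
  push_cast
  have : c - ((m : ℝ) + 1) = c - m - 1 := by ring
  rw [this]
  ring

theorem rpow_diff {a y u : ℝ} (ha0 : 0 < a) (ha1 : a < 1) (hy : 0 < y) (hu : 0 ≤ u) :
    a * u * (y + u) ^ (a - 1) ≤ (y + u) ^ a - y ^ a ∧ (y + u) ^ a - y ^ a ≤ a * u * y ^ (a - 1) := by
  rcases hu.eq_or_lt with h0 | h0
  · rw [← h0]; simp
  obtain ⟨ξ, ⟨h1, h2⟩, h3⟩ := exists_hasDerivAt_eq_slope (fun t : ℝ => t ^ a) (fun t : ℝ => a * t ^ (a - 1))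
    (show y < y + u by linarith) (by
      intro t ht
      exact (Real.continuousAt_rpow_const _ _ (Or.inl (by have := ht.1; linarith))).continuousWithinAt) (by
      intro t ht
      exact Real.hasDerivAt_rpow_const (Or.inl (by have := ht.1; linarith)))
  have h4 : (y + u) ^ a - y ^ a = a * u * ξ ^ (a - 1) := by
    have e : y + u - y = u := by ring
    rw [e, eq_div_iff h0.ne'] at h3
    linarith
  rw [h4]
  have h5 : ξ ^ (a - 1) ≤ y ^ (a - 1) := Real.rpow_le_rpow_of_nonpos hy h1.le (by linarith)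
  have h6 : (y + u) ^ (a - 1) ≤ ξ ^ (a - 1) := Real.rpow_le_rpow_of_nonpos (by linarith) h2.le (by linarith)
  exact ⟨mul_le_mul_of_nonneg_left h6 (by positivity), mul_le_mul_of_nonneg_left h5 (by positivity)⟩

theorem ph_hy {c x0 D u L Y0 Y1 : ℝ} {k : ℕ} (hk1 : (k : ℝ) + 1 < c) (hk2 : c < k + 2) (hD : 0 < D) (hu : 0 ≤ u)
    (hY0 : 0 < Y0) (hx0 : Y0 ≤ x0) (hY1 : x0 + D * L + u ≤ Y1) :
    Hy k 0 L (D ^ (k + 1) * ff c (k + 1) * ((c - (k + 1)) * u * Y1 ^ (c - (k + 1) - 1)))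
      (D ^ (k + 1) * ff c (k + 1) * ((c - (k + 1)) * u * Y0 ^ (c - (k + 1) - 1))) (ph c x0 D u) := by
  have hf : 0 < ff c (k + 1) := ff_pos (by push_cast; linarith)
  have hf2 : 0 < ff c (k + 2) := ff_pos (by push_cast; linarith)
  have ha0 : 0 < c - (k + 1) := by linarith
  have ha1 : c - (k + 1) < 1 := by linarith
  have hbase : ∀ t ∈ Set.Icc (0 : ℝ) L, Y0 ≤ x0 + D * t ∧ x0 + D * t + u ≤ Y1 := by
    intro t ht
    have h1 : 0 ≤ D * t := mul_nonneg hD.le ht.1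
    have h2 : D * t ≤ D * L := mul_le_mul_of_nonneg_left ht.2 hD.le
    constructor <;> linarith
  refine ⟨?_, ?_, ?_, ?_⟩
  · intro m _ t ht
    exact ph_der m (by linarith [(hbase t ht).1]) hu
  · intro t ht
    obtain ⟨h1, h2⟩ := hbase t ht
    unfold ph
    push_cast
    apply mul_le_mul_of_nonneg_left _ (by positivity)
    refine le_trans ?_ (rpow_diff ha0 ha1 (by linarith) hu).1
    apply mul_le_mul_of_nonneg_left _ (by positivity)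
    exact Real.rpow_le_rpow_of_nonpos (by linarith) h2 (by linarith)
  · intro t ht
    obtain ⟨h1, h2⟩ := hbase t ht
    unfold ph
    push_cast
    apply mul_le_mul_of_nonneg_left _ (by positivity)
    refine (rpow_diff ha0 ha1 (by linarith) hu).2.trans ?_
    apply mul_le_mul_of_nonneg_left _ (by positivity)
    exact Real.rpow_le_rpow_of_nonpos hY0 h1 (by linarith)
  · intro t ht
    obtain ⟨h1, h2⟩ := hbase t ht
    unfold ph
    push_cast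
    apply mul_nonpos_of_nonneg_of_nonpos (by positivity)
    have : (x0 + D * t + u) ^ (c - (k + 2)) ≤ (x0 + D * t) ^ (c - (k + 2)) :=
      Real.rpow_le_rpow_of_nonpos (by linarith) (by linarith) (by linarith)
    linarith

/-- `C N ^ (-x) ≤ 1` for large `N` -/
theorem ev_small (C : ℝ) {x : ℝ} (hx : 0 < x) : ∃ N0 : ℕ, ∀ N : ℕ, N0 ≤ N → C ≤ (N : ℝ) ^ x := by
  have h1 := (tendsto_rpow_atTop hx).comp tendsto_natCast_atTop_atTop
  exact (h1.eventually (Filter.eventually_ge_atTop C)).exists_forall_of_atTop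

theorem corr_norm (β c : ℝ) (n0 D u J : ℕ) :
    ‖∑ j ∈ range J, ee (β * ((n0 + D * j : ℕ) : ℝ) ^ c) * (starRingEnd ℂ) (ee (β * ((n0 + D * j + u : ℕ) : ℝ) ^ c))‖ =
      ‖∑ j ∈ range J, ee (β * ph c n0 D u 0 j)‖ := by
  have e1 : ∑ j ∈ range J, ee (β * ((n0 + D * j : ℕ) : ℝ) ^ c) * (starRingEnd ℂ) (ee (β * ((n0 + D * j + u : ℕ) : ℝ) ^ c))
      = (starRingEnd ℂ) (∑ j ∈ range J, ee (β * ph c n0 D u 0 j)) := by
    rw [map_sum]
    apply sum_congr rfl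
    intro j _
    have e2 : β * ph c n0 D u 0 j = β * ((n0 + D * j + u : ℕ) : ℝ) ^ c + -(β * ((n0 + D * j : ℕ) : ℝ) ^ c) := by
      unfold ph ff
      push_cast
      simp only [pow_zero, range_zero, prod_empty, sub_zero]
      ring
    rw [e2, ee_add, map_mul, ee_conj (-(β * ((n0 + D * j : ℕ) : ℝ) ^ c)), neg_neg]
    ring
  rw [e1, RCLike.norm_conj]

/-- the correlations of `e(β n ^ c)` -/
theorem pow_cor {d : ℕ} (hd : 1 ≤ d) {c : ℝ} {k : ℕ} (hk1 : (k : ℝ) + 1 < c) (hk2 : c < k + 2) :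
    ∃ θ η : ℝ, 0 < θ ∧ θ ≤ 1 / 16 ∧ 0 < η ∧ η < 1 ∧ ∃ N0 : ℕ, ∀ N : ℕ, N0 ≤ N → ∀ β : ℝ, (N : ℝ) ^ (-η) ≤ β →
      β ≤ (N : ℝ) ^ η → Cor d θ N (fun n => ee (β * (n : ℝ) ^ c)) := by
  obtain ⟨a, ha⟩ : ∃ a : ℝ, a = c - (k + 1) := ⟨_, rfl⟩
  have ha0 : 0 < a := by rw [ha]; linarith
  have ha1 : a < 1 := by rw [ha]; linarith
  obtain ⟨b, hb0, hba, hba'⟩ : ∃ b : ℝ, 0 < b ∧ b ≤ a ∧ b ≤ 1 - a :=
    ⟨min a (1 - a), lt_min ha0 (by linarith), min_le_left _ _, min_le_right _ _⟩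
  obtain ⟨κ, hκ⟩ : ∃ κ : ℝ, κ = b / (16 * (k + 4)) := ⟨_, rfl⟩
  have hk0 : (0 : ℝ) ≤ k := Nat.cast_nonneg k
  have hκ0 : 0 < κ := by rw [hκ]; positivity
  have hκb : κ * (16 * (k + 4)) = b := by rw [hκ]; field_simp
  have hκ1 : 64 * κ ≤ b := by nlinarith
  have hb1 : b ≤ 1 / 2 := by linarith
  obtain ⟨P, hP⟩ : ∃ P : ℕ, P = 2 ^ k := ⟨_, rfl⟩
  have hP1 : 1 ≤ P := by rw [hP]; exact Nat.one_le_two_pow
  have hPR : (1 : ℝ) ≤ P := by exact_mod_cast hP1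
  obtain ⟨θ, hθ⟩ : ∃ θ : ℝ, θ = κ / (8 * P) := ⟨_, rfl⟩
  have hθ0 : 0 < θ := by rw [hθ]; positivity
  have hθκ : 4 * θ * P ≤ κ / 2 := by rw [hθ]; field_simp; linarith
  have hθκ2 : θ ≤ κ / 8 := by
    rw [hθ]
    apply div_le_div_of_nonneg_left hκ0.le (by norm_num) (by linarith)
  have hf : 0 < ff c (k + 1) := ff_pos (by push_cast; linarith)
  obtain ⟨f, hfd⟩ : ∃ f : ℝ, f = ff c (k + 1) := ⟨_, rfl⟩
  rw [← hfd] at hf
  have hCq := Cq_pos k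
  -- the thresholds
  obtain ⟨N1, hN1⟩ := ev_small (4 * f * a) (show 0 < 3 * b / 8 by positivity)
  obtain ⟨N2, hN2⟩ := ev_small (Cq k * (2 + 4 / (f * a)) * 2 ^ P) (show 0 < κ / 2 by positivity)
  obtain ⟨N3, hN3⟩ := ev_small 4 (show (0 : ℝ) < 1 / 4 by norm_num)
  refine ⟨θ, κ, hθ0, by linarith, hκ0, by linarith, N1 + N2 + N3 + 1, ?_⟩
  intro N hN β hβ1 hβ2
  have hNR : (1 : ℝ) ≤ N := by exact_mod_cast (by omega : 1 ≤ N)
  have hN0 : (0 : ℝ) < N := by linarith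
  have t1 := hN1 N (by omega)
  have t2 := hN2 N (by omega)
  have t3 := hN3 N (by omega)
  have hβ0 : 0 < β := lt_of_lt_of_le (by positivity) hβ1
  refine ⟨fun n => (norm_ee _).le, fun q u n0 J hq hu1 hu2 hJ => ?_⟩
  have hD1 : 1 ≤ d ^ q := Nat.one_le_pow _ _ hd
  obtain ⟨D, hDd⟩ : ∃ D : ℕ, D = d ^ q := ⟨_, rfl⟩
  have hDR : (D : ℝ) = (d : ℝ) ^ q := by rw [hDd]; push_cast; rfl
  rw [← hDd] at hJ hD1 ⊢
  rw [← hDR] at hq
  have hDR1 : (1 : ℝ) ≤ D := by exact_mod_cast hD1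
  have hu1R : (1 : ℝ) ≤ u := by exact_mod_cast hu1
  -- the number of the small terms
  have hsq1 : (N : ℝ) ^ (1 / 2 : ℝ) + 1 ≤ 1 / 2 * (N : ℝ) ^ (1 - 4 * θ) := by
    have e1 : (1 : ℝ) ≤ (N : ℝ) ^ (1 / 2 : ℝ) := Real.one_le_rpow hNR (by norm_num)
    have e2 : (N : ℝ) ^ (1 / 2 + 1 / 4 : ℝ) = (N : ℝ) ^ (1 / 2 : ℝ) * (N : ℝ) ^ (1 / 4 : ℝ) := Real.rpow_add hN0 _ _
    have e3 : (N : ℝ) ^ (1 / 2 + 1 / 4 : ℝ) ≤ (N : ℝ) ^ (1 - 4 * θ) :=
      Real.rpow_le_rpow_of_exponent_le hNR (by linarith)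
    nlinarith
  obtain ⟨j0, hj0⟩ : ∃ j0 : ℕ, j0 = ⌈(N : ℝ) ^ (1 / 2 : ℝ)⌉₊ := ⟨_, rfl⟩
  have hj0a : (N : ℝ) ^ (1 / 2 : ℝ) ≤ j0 := by rw [hj0]; exact Nat.le_ceil _
  have hj0b : (j0 : ℝ) ≤ (N : ℝ) ^ (1 / 2 : ℝ) + 1 := by
    rw [hj0]; exact (Nat.ceil_lt_add_one (by positivity)).le
  have htriv : ∀ S : Finset ℕ, ‖∑ j ∈ S, ee (β * ph c n0 D u 0 j)‖ ≤ S.card := by
    intro S
    refine (norm_sum_le _ _).trans ?_
    rw [sum_congr rfl fun j _ => norm_ee _]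
    simp
  have hpos : 0 < (N : ℝ) ^ (1 - 4 * θ) := by positivity
  show ‖∑ j ∈ range J, ee (β * ((n0 + D * j : ℕ) : ℝ) ^ c) * (starRingEnd ℂ) (ee (β * ((n0 + D * j + u : ℕ) : ℝ) ^ c))‖ ≤ _
  rw [corr_norm]
  rcases le_or_gt J j0 with hJs | hJs
  · refine (htriv _).trans ?_
    rw [card_range]
    have : (J : ℝ) ≤ j0 := by exact_mod_cast hJs
    linarith
  obtain ⟨L, rfl⟩ : ∃ L : ℕ, J = j0 + L := ⟨J - j0, by omega⟩
  have hL1 : 1 ≤ L := by omega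
  rw [sum_range_add]
  refine (norm_add_le _ _).trans ?_
  have hfirst : ‖∑ j ∈ range j0, ee (β * ph c n0 D u 0 j)‖ ≤ 1 / 2 * (N : ℝ) ^ (1 - 4 * θ) := by
    refine (htriv _).trans ?_
    rw [card_range]
    linarith
  -- the main part
  have hlast := hJ (j0 + L - 1) (by omega)
  obtain ⟨x0, hx0⟩ : ∃ x0 : ℝ, x0 = n0 + D * j0 := ⟨_, rfl⟩
  have hx0a : (N : ℝ) ^ (1 / 2 : ℝ) ≤ x0 := by
    rw [hx0]
    have e1 : (j0 : ℝ) ≤ D * j0 := le_mul_of_one_le_left (Nat.cast_nonneg _) hDR1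
    have e2 : (0 : ℝ) ≤ n0 := Nat.cast_nonneg _
    linarith
  have hend : x0 + D * L + u ≤ 2 * N := by
    have e1 : n0 + D * (j0 + L) + u ≤ N + D := by
      have : D * (j0 + L) = D * (j0 + L - 1) + D := by
        conv_lhs => rw [show j0 + L = (j0 + L - 1) + 1 by omega]
        ring
      omega
    have e2 : (D : ℝ) ≤ N := by
      refine hq.trans ?_
      calc (N : ℝ) ^ θ ≤ (N : ℝ) ^ (1 : ℝ) := Real.rpow_le_rpow_of_exponent_le hNR (by linarith)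
        _ = N := Real.rpow_one _
    have e3 : (n0 : ℝ) + D * (j0 + L) + u ≤ N + D := by exact_mod_cast e1
    rw [hx0]
    have e4 : (n0 : ℝ) + D * j0 + D * L + u = n0 + D * (j0 + L) + u := by ring
    linarith
  have hshift : ∑ i ∈ range L, ee (β * ph c n0 D u 0 ((j0 + i : ℕ) : ℝ)) = ∑ i ∈ range L, ee (β * ph c x0 D u 0 (0 + i)) := by
    apply sum_congr rfl
    intro i _
    unfold ph
    push_cast
    have e : (n0 : ℝ) + D * (j0 + i) = x0 + D * (0 + i) := by rw [hx0]; ring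
    rw [e]
  have hshift' : ∑ i ∈ range L, ee (β * ph c n0 D u 0 ((j0 + i : ℕ) : ℝ)) =
      ∑ i ∈ range L, Pool.Agent.H469R2.NK.e (β * ph c x0 D u 0 (0 + i)) := by
    rw [hshift]
    simp only [e_eq_ee]
  rw [hshift']
  have hY0 : (0 : ℝ) < (N : ℝ) ^ (1 / 2 : ℝ) := by positivity
  have hhy := ph_hy (L := L) hk1 hk2 (by linarith : (0 : ℝ) < D) (by linarith : (0 : ℝ) ≤ u) hY0 hx0a hend
  rw [← hfd, ← ha] at hhy
  obtain ⟨H, hH⟩ : ∃ H : ℕ, H = ⌊(N : ℝ) ^ κ⌋₊ := ⟨_, rfl⟩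
  have hNκ1 : (1 : ℝ) ≤ (N : ℝ) ^ κ := Real.one_le_rpow hNR hκ0.le
  have hH1 : 1 ≤ H := by rw [hH]; exact Nat.floor_pos.2 hNκ1
  have hHκ : (H : ℝ) ≤ (N : ℝ) ^ κ := by rw [hH]; exact Nat.floor_le (by positivity)
  have hHN : H ≤ N := by
    have : (H : ℝ) ≤ N := by
      refine hHκ.trans ?_
      calc (N : ℝ) ^ κ ≤ (N : ℝ) ^ (1 : ℝ) := Real.rpow_le_rpow_of_exponent_le hNR (by linarith)
        _ = N := Real.rpow_one _
    exact_mod_cast this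
  have hHκ2 : (N : ℝ) ^ κ ≤ 2 * H := by
    have h1 : (N : ℝ) ^ κ < (H : ℝ) + 1 := by rw [hH]; exact Nat.lt_floor_add_one _
    have h2 : (1 : ℝ) ≤ H := by exact_mod_cast hH1
    linarith
  have hLN : L ≤ N := by
    have h1 : D * (j0 + L - 1) ≤ N := by omega
    have h2 : j0 + L - 1 ≤ D * (j0 + L - 1) := Nat.le_mul_of_pos_left _ hD1
    have h3 : 1 ≤ j0 := by rw [hj0]; exact Nat.ceil_pos.2 hY0
    omega
  have hH0 : (0 : ℝ) < H := by exact_mod_cast hH1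
  -- the size of the derivative
  have hup : 2 * (β * ((D : ℝ) ^ (k + 1) * f * (a * u * ((N : ℝ) ^ (1 / 2 : ℝ)) ^ (a - 1)) * (H : ℝ) ^ k)) ≤ 1 := by
    have e1 : ((N : ℝ) ^ (1 / 2 : ℝ)) ^ (a - 1) = (N : ℝ) ^ ((a - 1) / 2) := by
      rw [← Real.rpow_mul hN0.le]; congr 1; ring
    rw [e1]
    have e2 : (D : ℝ) ^ (k + 1) ≤ (N : ℝ) ^ (κ * (k + 1)) := by
      calc (D : ℝ) ^ (k + 1) ≤ ((N : ℝ) ^ θ) ^ (k + 1) := pow_le_pow_left₀ (by linarith) hq _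
        _ = (N : ℝ) ^ (θ * (k + 1)) := by
            rw [← Real.rpow_natCast, ← Real.rpow_mul hN0.le]; push_cast; rfl
        _ ≤ _ := Real.rpow_le_rpow_of_exponent_le hNR (mul_le_mul_of_nonneg_right (by linarith) (by linarith))
    have e3 : (H : ℝ) ^ k ≤ (N : ℝ) ^ (κ * k) := by
      calc (H : ℝ) ^ k ≤ ((N : ℝ) ^ κ) ^ k := pow_le_pow_left₀ hH0.le hHκ _
        _ = (N : ℝ) ^ (κ * k) := by
            rw [← Real.rpow_natCast, ← Real.rpow_mul hN0.le]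
    have e4 : (u : ℝ) ≤ 2 * (N : ℝ) ^ κ := by
      refine hu2.trans ?_
      apply mul_le_mul_of_nonneg_left _ (by norm_num)
      exact Real.rpow_le_rpow_of_exponent_le hNR (by linarith)
    calc 2 * (β * ((D : ℝ) ^ (k + 1) * f * (a * u * (N : ℝ) ^ ((a - 1) / 2)) * (H : ℝ) ^ k))
        ≤ 2 * ((N : ℝ) ^ κ * ((N : ℝ) ^ (κ * (k + 1)) * f * (a * (2 * (N : ℝ) ^ κ) * (N : ℝ) ^ ((a - 1) / 2)) * (N : ℝ) ^ (κ * k))) := by
          gcongr
      _ = (4 * f * a) * ((N : ℝ) ^ κ * (N : ℝ) ^ (κ * (k + 1)) * (N : ℝ) ^ κ * (N : ℝ) ^ ((a - 1) / 2) * (N : ℝ) ^ (κ * k)) := by ring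
      _ = (4 * f * a) * (N : ℝ) ^ (κ + κ * (k + 1) + κ + (a - 1) / 2 + κ * k) := by
          rw [← Real.rpow_add hN0, ← Real.rpow_add hN0, ← Real.rpow_add hN0, ← Real.rpow_add hN0]
      _ ≤ (N : ℝ) ^ (3 * b / 8) * (N : ℝ) ^ (-(3 * b / 8)) := by
          apply mul_le_mul t1 _ (by positivity) (by positivity)
          apply Real.rpow_le_rpow_of_exponent_le hNR
          nlinarith
      _ = 1 := by rw [← Real.rpow_add hN0]; simp
  have hlo0 : 0 < (D : ℝ) ^ (k + 1) * f * (a * u * (2 * (N : ℝ)) ^ (a - 1)) := by positivity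
  have hEB := exp_bound (N := N) (L := L) (H := H) hlo0 (by positivity) β hβ0 hhy 0 (by omega) hLN le_rfl
    (by rw [zero_add]) hH1 hHN (by rw [← mul_assoc] at hup ⊢; convert hup using 1)
  have hlow : 2 / (β * ((D : ℝ) ^ (k + 1) * f * (a * u * (2 * (N : ℝ)) ^ (a - 1)))) / N ≤ 4 / (f * a) * (N : ℝ) ^ (-κ) := by
    have e1 : (2 * (N : ℝ)) ^ (a - 1) = 2 ^ (a - 1) * (N : ℝ) ^ (a - 1) := Real.mul_rpow (by norm_num) hN0.le
    have e2 : (1 / 2 : ℝ) ≤ 2 ^ (a - 1) := by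
      calc (1 / 2 : ℝ) = 2 ^ (-1 : ℝ) := by rw [Real.rpow_neg_one]; norm_num
        _ ≤ 2 ^ (a - 1) := Real.rpow_le_rpow_of_exponent_le (by norm_num) (by linarith)
    have e3 : 1 ≤ (D : ℝ) ^ (k + 1) := one_le_pow₀ hDR1
    have e4 : (N : ℝ) ^ (-κ) * (f * (a * (1 / 2 * (N : ℝ) ^ (a - 1)))) * N ≤
        β * ((D : ℝ) ^ (k + 1) * f * (a * u * (2 * (N : ℝ)) ^ (a - 1))) * N := by
      rw [e1]
      apply mul_le_mul_of_nonneg_right _ hN0.le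
      apply mul_le_mul hβ1 _ (by positivity) hβ0.le
      have e5 : f ≤ (D : ℝ) ^ (k + 1) * f := le_mul_of_one_le_left hf.le e3
      have e6 : a ≤ a * u := le_mul_of_one_le_right ha0.le hu1R
      apply mul_le_mul e5 _ (by positivity) (by positivity)
      apply mul_le_mul e6 _ (by positivity) (by positivity)
      exact mul_le_mul_of_nonneg_right e2 (by positivity)
    have e7 : (N : ℝ) ^ (-κ) * (f * (a * (1 / 2 * (N : ℝ) ^ (a - 1)))) * N = 1 / 2 * (f * a) * (N : ℝ) ^ (a - κ) := by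
      have : (N : ℝ) ^ (a - κ) = (N : ℝ) ^ (-κ) * (N : ℝ) ^ (a - 1) * N := by
        rw [← Real.rpow_add hN0]
        calc (N : ℝ) ^ (a - κ) = (N : ℝ) ^ ((-κ + (a - 1)) + 1) := by congr 1; ring
          _ = _ := by rw [Real.rpow_add hN0, Real.rpow_one]
      rw [this]; ring
    rw [e7] at e4
    have e8 : (N : ℝ) ^ κ ≤ (N : ℝ) ^ (a - κ) := Real.rpow_le_rpow_of_exponent_le hNR (by linarith)
    rw [div_div, div_le_iff₀ (by positivity)]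
    have e9 : (N : ℝ) ^ (-κ) * (N : ℝ) ^ κ = 1 := by rw [← Real.rpow_add hN0]; simp
    calc (2 : ℝ) = 4 / (f * a) * (N : ℝ) ^ (-κ) * (1 / 2 * (f * a) * (N : ℝ) ^ κ) := by
          have : 4 / (f * a) * (N : ℝ) ^ (-κ) * (1 / 2 * (f * a) * (N : ℝ) ^ κ) = 2 * ((N : ℝ) ^ (-κ) * (N : ℝ) ^ κ) := by
            field_simp; ring
          rw [this, e9, mul_one]
      _ ≤ 4 / (f * a) * (N : ℝ) ^ (-κ) * (1 / 2 * (f * a) * (N : ℝ) ^ (a - κ)) := by gcongr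
      _ ≤ _ := mul_le_mul_of_nonneg_left e4 (by positivity)
  have hHinv : 1 / (H : ℝ) ≤ 2 * (N : ℝ) ^ (-κ) := by
    rw [div_le_iff₀ hH0]
    have e9 : (N : ℝ) ^ (-κ) * (N : ℝ) ^ κ = 1 := by rw [← Real.rpow_add hN0]; simp
    calc (1 : ℝ) = (N : ℝ) ^ (-κ) * (N : ℝ) ^ κ := e9.symm
      _ ≤ (N : ℝ) ^ (-κ) * (2 * H) := mul_le_mul_of_nonneg_left hHκ2 (by positivity)
      _ = _ := by ring
  -- the conclusion
  obtain ⟨S, hS⟩ : ∃ S : ℝ, S = ‖∑ i ∈ range L, Pool.Agent.H469R2.NK.e (β * ph c x0 D u 0 (0 + i))‖ := ⟨_, rfl⟩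
  rw [← hS] at hEB ⊢
  have hS0 : 0 ≤ S := by rw [hS]; exact norm_nonneg _
  rw [← hP] at hEB
  have hfin : (S / N) ^ P ≤ (1 / 2 * (N : ℝ) ^ (-(4 * θ))) ^ P := by
    refine hEB.trans ?_
    calc Cq k * (1 / (H : ℝ) + 2 / (β * ((D : ℝ) ^ (k + 1) * f * (a * u * (2 * (N : ℝ)) ^ (a - 1)))) / N)
        ≤ Cq k * (2 * (N : ℝ) ^ (-κ) + 4 / (f * a) * (N : ℝ) ^ (-κ)) := by gcongr
      _ = (Cq k * (2 + 4 / (f * a)) * 2 ^ P) * ((1 / 2) ^ P * (N : ℝ) ^ (-κ)) := by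
          have : (2 : ℝ) ^ P * (1 / 2) ^ P = 1 := by rw [← mul_pow]; norm_num
          calc Cq k * (2 * (N : ℝ) ^ (-κ) + 4 / (f * a) * (N : ℝ) ^ (-κ))
              = (Cq k * (2 + 4 / (f * a))) * ((2 : ℝ) ^ P * (1 / 2) ^ P) * (N : ℝ) ^ (-κ) := by rw [this]; ring
            _ = _ := by ring
      _ ≤ (N : ℝ) ^ (κ / 2) * ((1 / 2) ^ P * (N : ℝ) ^ (-κ)) := mul_le_mul_of_nonneg_right t2 (by positivity)
      _ = (1 / 2) ^ P * (N : ℝ) ^ (-(κ / 2)) := by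
          have : (N : ℝ) ^ (-(κ / 2)) = (N : ℝ) ^ (κ / 2) * (N : ℝ) ^ (-κ) := by
            rw [← Real.rpow_add hN0]; congr 1; ring
          rw [this]; ring
      _ ≤ (1 / 2) ^ P * (N : ℝ) ^ (-(4 * θ * P)) := by
          apply mul_le_mul_of_nonneg_left _ (by positivity)
          exact Real.rpow_le_rpow_of_exponent_le hNR (by linarith)
      _ = (1 / 2 * (N : ℝ) ^ (-(4 * θ))) ^ P := by
          rw [mul_pow]
          congr 1
          rw [← Real.rpow_natCast, ← Real.rpow_mul hN0.le]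
          congr 1
          ring
  have hfin2 : S / N ≤ 1 / 2 * (N : ℝ) ^ (-(4 * θ)) :=
    le_of_pow_le_pow_left₀ (by omega) (by positivity) hfin
  rw [div_le_iff₀ hN0] at hfin2
  have e10 : 1 / 2 * (N : ℝ) ^ (-(4 * θ)) * N = 1 / 2 * (N : ℝ) ^ (1 - 4 * θ) := by
    have : (N : ℝ) ^ (1 - 4 * θ) = (N : ℝ) ^ (-(4 * θ)) * N := by
      rw [sub_eq_neg_add, Real.rpow_add hN0, Real.rpow_one]
    rw [this]; ring
  rw [e10] at hfin2
  linarith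

end Pool.Agent.K3h65.LP
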