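import Pool.Agent.K3h65.LP.Orth
import Pool.Agent.Y55.DS.Disc2

/-!
# The Weyl inequality for generalised Collatz maps of coprime type

Sums of `F (s n) e(φ n)`, where `F` is constant on coalescing trajectories and `φ` is a polynomial phase of
degree at least two whose leading coefficient is in the minor arcs.
-/

set_option autoImplicit false

namespace Pool.Agent.K3h65.LP

open Finset Pool.Agent.H319R3.GC Pool.Agent.Y965.PS Pool.Agent.Y965.GP Pool.Agent.H373R2.NB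
open Pool.Agent.Helper602.MK (ee)
open Pool.Agent.Helper602.MK.N_J5b (ee_add ee_zero ee_conj norm_ee)

variable {d : ℕ} {m r : ℕ → ℤ}

theorem norm_term_le {F : ℤ → ℝ} (hF : ∀ x, |F x| ≤ 1) (s : ℤ) {z : ℕ → ℂ} (hz : ∀ n, ‖z n‖ ≤ 1) (N : ℕ) :
    ‖∑ n ∈ Icc 1 N, (F (s * (n : ℤ)) : ℂ) * z n‖ ≤ N := by
  refine (norm_sum_le _ _).trans ?_
  have h2 : ∀ n ∈ Icc 1 N, ‖(F (s * (n : ℤ)) : ℂ) * z n‖ ≤ 1 := by
    intro n _
    rw [norm_mul, Complex.norm_real, Real.norm_eq_abs]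
    calc |F (s * (n : ℤ))| * ‖z n‖ ≤ 1 * 1 := mul_le_mul (hF _) (hz n) (norm_nonneg _) zero_le_one
      _ = 1 := one_mul 1
  refine (sum_le_sum h2).trans ?_
  simp

theorem J_le {N D n0 J u : ℕ} (hD : 1 ≤ D) (hJ : ∀ j < J, n0 + D * j + u ≤ N) : (J : ℝ) ≤ N / D + 1 := by
  have hD0 : (0 : ℝ) < D := by exact_mod_cast hD
  rcases Nat.eq_zero_or_pos J with h0 | h0
  · rw [h0, Nat.cast_zero]; positivity
  · have h1 := hJ (J - 1) (by omega)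
    have h2 : D * (J - 1) ≤ N := by omega
    have h3 : (D : ℝ) * ((J - 1 : ℕ) : ℝ) ≤ N := by exact_mod_cast h2
    rw [Nat.cast_sub h0, Nat.cast_one] at h3
    have h4 : (J : ℝ) - 1 ≤ N / D := by
      rw [le_div_iff₀ hD0]; linarith
    linarith

theorem weyl_ph (h : Adm d m r) {k : ℕ} (hk : 1 ≤ k) {η : ℝ} (hη : 0 < η) : ∃ C c : ℝ, 0 ≤ C ∧ 0 < c ∧ c < 1 ∧
    ∀ s : ℤ, (s = 1 ∨ s = -1) → ∀ N : ℕ, 1 ≤ N → ∀ F : ℤ → ℝ, SyncM d m r N F →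
    ∀ (α : ℝ) (φ : ℕ → ℝ), Ph (k + 1) α φ →
    (∀ l : ℕ, 1 ≤ l → (l : ℝ) ≤ (N : ℝ) ^ η → ∀ a : ℤ, (N : ℝ) ^ (η - k) ≤ |l * α - a|) →
    ‖∑ n ∈ Icc 1 N, (F (s * (n : ℤ)) : ℂ) * ee (φ n)‖ ≤ C * (N : ℝ) ^ (1 - c) := by
  obtain ⟨c₁, m₁, hc₁, hIW⟩ := IW_all k hk
  have hc₁R : (1 : ℝ) ≤ c₁ := by exact_mod_cast hc₁
  obtain ⟨W, hW⟩ : ∃ W : ℕ, W = 4 * (m₁ + k) + k + 2 := ⟨_, rfl⟩
  have hW0 : (0 : ℝ) < W := by
    have : 0 < W := by omega
    exact_mod_cast this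
  obtain ⟨θ, hθ0, hθ1, hθ2⟩ : ∃ θ : ℝ, 0 < θ ∧ θ ≤ 1 / 16 ∧ θ * W ≤ η / 2 := by
    refine ⟨min (1 / 16) (η / (2 * W)), lt_min (by norm_num) (by positivity), min_le_left _ _, ?_⟩
    calc min (1 / 16) (η / (2 * W)) * W ≤ η / (2 * W) * W := mul_le_mul_of_nonneg_right (min_le_right _ _) hW0.le
      _ = η / 2 := by field_simp
  obtain ⟨C, c, hC, hc0, hc1, H⟩ := orth h hθ0 hθ1
  obtain ⟨G, hG⟩ : ∃ G : ℝ, G = c₁ * 2 ^ (m₁ + k + 1) := ⟨_, rfl⟩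
  have hG0 : 0 < G := by rw [hG]; positivity
  refine ⟨C + G ^ (2 / η), c, by positivity, hc0, hc1, ?_⟩
  intro s hs N hN F hF α φ hφ hα
  have hNR : (1 : ℝ) ≤ N := by exact_mod_cast hN
  have hN0 : (0 : ℝ) < N := by linarith
  have hp1 : 1 ≤ (N : ℝ) ^ (1 - c) := Real.one_le_rpow hNR (by linarith)
  have hGη : 0 ≤ G ^ (2 / η) := by positivity
  rcases lt_or_ge G ((N : ℝ) ^ (η / 2)) with hbig | hsm
  swap
  · have h1 := norm_term_le hF.1 s (z := fun n => ee (φ n)) (fun n => (norm_ee _).le) N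
    have h2 : (N : ℝ) ≤ G ^ (2 / η) := by
      have h3 : ((N : ℝ) ^ (η / 2)) ^ (2 / η) ≤ G ^ (2 / η) := Real.rpow_le_rpow (by positivity) hsm (by positivity)
      rw [← Real.rpow_mul hN0.le] at h3
      have h4 : η / 2 * (2 / η) = 1 := by field_simp
      rwa [h4, Real.rpow_one] at h3
    calc _ ≤ (N : ℝ) := h1
      _ ≤ C + G ^ (2 / η) := by linarith
      _ ≤ _ := le_mul_of_one_le_right (by positivity) hp1
  have key := H s hs N hN F hF (fun n => ee (φ n)) (fun n => (norm_ee _).le) ?_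
  · refine key.trans ?_
    exact mul_le_mul_of_nonneg_right (by linarith) (by positivity)
  intro q u n0 J hq hu1 hu2 hJ
  -- everything in terms of `x = N ^ θ`
  obtain ⟨x, hx⟩ : ∃ x : ℝ, x = (N : ℝ) ^ θ := ⟨_, rfl⟩
  have hx1 : 1 ≤ x := by rw [hx]; exact Real.one_le_rpow hNR hθ0.le
  have hx0 : 0 < x := by linarith
  have hx2 : (N : ℝ) ^ (2 * θ) = x ^ 2 := by
    rw [hx, ← Real.rpow_natCast, ← Real.rpow_mul hN0.le]; congr 1; push_cast; ring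
  have hx4 : (N : ℝ) ^ (1 - 4 * θ) = N / x ^ 4 := by
    rw [hx, ← Real.rpow_natCast, ← Real.rpow_mul hN0.le, Real.rpow_sub hN0, Real.rpow_one]
    congr 2; push_cast; ring
  have hxW : x ^ W ≤ (N : ℝ) ^ (η / 2) := by
    rw [hx, ← Real.rpow_natCast, ← Real.rpow_mul hN0.le]
    exact Real.rpow_le_rpow_of_exponent_le hNR hθ2
  have hGx : G * x ^ W < (N : ℝ) ^ η := by
    have e1 : (N : ℝ) ^ η = (N : ℝ) ^ (η / 2) * (N : ℝ) ^ (η / 2) := by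
      rw [← Real.rpow_add hN0]; congr 1; ring
    rw [e1]
    have h3 : 0 < x ^ W := by positivity
    calc G * x ^ W < (N : ℝ) ^ (η / 2) * x ^ W := mul_lt_mul_of_pos_right hbig h3
      _ ≤ _ := mul_le_mul_of_nonneg_left hxW (by positivity)
  rw [← hx] at hq
  rw [hx2] at hu2
  rw [hx4]
  have hD1 : 1 ≤ d ^ q := Nat.one_le_pow _ _ (by have := h.two_le; omega)
  have hDR : (1 : ℝ) ≤ (d : ℝ) ^ q := by exact_mod_cast hD1
  have hDc : ((d ^ q : ℕ) : ℝ) = (d : ℝ) ^ q := by push_cast; rfl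
  have hJm := J_le hD1 hJ
  rw [hDc] at hJm
  obtain ⟨D, hDdef⟩ : ∃ D : ℝ, D = (d : ℝ) ^ q := ⟨_, rfl⟩
  rw [← hDdef] at hJm hDR hq hDc
  have hD0 : 0 < D := by linarith
  obtain ⟨Jm, hJmd⟩ : ∃ Jm : ℝ, Jm = N / D + 1 := ⟨_, rfl⟩
  rw [← hJmd] at hJm
  have hJm0 : 0 < Jm := by rw [hJmd]; positivity
  have hJm2 : Jm ≤ 2 * N := by
    have : (N : ℝ) / D ≤ N := div_le_self hN0.le hDR
    rw [hJmd]; linarith
  have hJmN : N / D ≤ Jm := by rw [hJmd]; linarith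
  have hU1 : 1 ≤ 2 * x ^ 4 := by
    have : 1 ≤ x ^ 4 := one_le_pow₀ hx1
    linarith
  have hDk : D ^ k ≤ x ^ k := pow_le_pow_left₀ hD0.le hq k
  have res := Pool.Agent.Y55.DS.phase_corr (k := k) (c := c₁) (m := m₁) hIW hφ (D := d ^ q) hD1 hu1 hU1 hJm0
    (Y := (N : ℝ) ^ η) (Z := (N : ℝ) ^ (η - k)) ?_ ?_ hα n0 J hJm
  · refine res.trans ?_
    rw [div_le_div_iff₀ (by positivity) (by positivity)]
    have : 0 < x ^ 4 := by positivity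
    nlinarith
  · rw [hDc]
    refine le_trans ?_ hGx.le
    calc (c₁ : ℝ) * (2 * x ^ 4) ^ m₁ * (D ^ k * u) ≤ c₁ * (2 * x ^ 4) ^ m₁ * (x ^ k * (2 * x ^ 2)) := by gcongr
      _ = c₁ * 2 ^ (m₁ + 1) * x ^ (4 * m₁ + k + 2) := by
          rw [mul_pow, ← pow_mul]; ring
      _ ≤ G * x ^ W := by
          rw [hG]
          refine mul_le_mul (mul_le_mul_of_nonneg_left (pow_le_pow_right₀ (by norm_num) (by omega)) (by positivity))
            (pow_le_pow_right₀ hx1 (by omega)) (by positivity) (by positivity)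
  · have hNk : (N : ℝ) ^ (η - k) = (N : ℝ) ^ η / (N : ℝ) ^ k := by
      rw [Real.rpow_sub hN0, Real.rpow_natCast]
    rw [hNk, div_pow, div_div_eq_mul_div]
    have e1 : (c₁ : ℝ) * (2 * x ^ 4) ^ m₁ * (2 * x ^ 4) ^ k / Jm ^ k ≤
        c₁ * (2 * x ^ 4) ^ m₁ * (2 * x ^ 4) ^ k / (N / D) ^ k := by
      gcongr
    refine e1.trans_lt ?_
    rw [div_pow, div_div_eq_mul_div]
    apply div_lt_div_of_pos_right _ (by positivity)
    refine lt_of_le_of_lt ?_ hGx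
    calc (c₁ : ℝ) * (2 * x ^ 4) ^ m₁ * (2 * x ^ 4) ^ k * D ^ k ≤ c₁ * (2 * x ^ 4) ^ m₁ * (2 * x ^ 4) ^ k * x ^ k := by
          gcongr
      _ = c₁ * 2 ^ (m₁ + k) * x ^ (4 * (m₁ + k) + k) := by
          rw [mul_pow, mul_pow, ← pow_mul, ← pow_mul]; ring
      _ ≤ G * x ^ W := by
          rw [hG]
          refine mul_le_mul (mul_le_mul_of_nonneg_left (pow_le_pow_right₀ (by norm_num) (by omega)) (by positivity))
            (pow_le_pow_right₀ hx1 (by omega)) (by positivity) (by positivity)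

end Pool.Agent.K3h65.LP
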